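import Mathlib
import Pool.Agent.Helper68.PT.Ext2

/-!
# Project VCP (MP_bca398_lc): the algorithm

Vectors are lists of Booleans; a set `T` of vertices `< i` is represented by a vector of length `i`.
`E` is the input hypergraph (vectors of length `n`), `L` the list of the minimal transversals found so
far. `q` is the size of the local tests; `P` is the budget: all the lists that are built are truncated
to (about) `P` elements, and the budget is increased if that is not enough for any `q < P`.
-/

set_option autoImplicit false

namespace Pool.Agent.Helper81.VCP

open Pool.Agent.Helper36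

/-- `j` is an element of the set represented by `v`. -/
def mem (v : List Bool) (j : ℕ) : Bool := v.getD j false

/-- All lists of length at most `q` of numbers smaller than `n` (truncated to `P + 1` lists). -/
def tup (P n : ℕ) : ℕ → List (List ℕ)
  | 0 => [[]]
  | q + 1 => (tup P n q ++
      (tup P n q).flatMap (fun t => (List.range n).map (fun j => j :: t))).take (P + 1)

/-- All lists of length at most `q` of pairs `(j, B)` with `j < n` and `B ∈ L` (truncated). -/
def prs (P n : ℕ) (L : List (List Bool)) : ℕ → List (List (ℕ × List Bool))
  | 0 => [[]]
  | q + 1 => (prs P n L q ++ (prs P n L q).flatMap (fun w =>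
      (List.range n).flatMap (fun j => L.map (fun B => (j, B) :: w)))).take (P + 1)

/-- The local test with respect to the family `E`: for every `t ∈ X` contained in `T` some `A ∈ E`
contains `t` and contains no `j < i` outside `T`. -/
def locB (X : List (List ℕ)) (E : List (List Bool)) (i : ℕ) (T : List Bool) : Bool :=
  X.all fun t => !(t.all fun j => mem T j) ||
    E.any fun A => (t.all fun j => mem A j) && (List.range i).all fun j => !(mem A j) || mem T j

/-- One step of the construction of the candidates: the children of the vectors (of length `i`)
passing the test `loc i`, truncated. -/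
def candStep (loc : ℕ → List Bool → Bool) (P i : ℕ) (C : List (List Bool)) : List (List Bool) :=
  ((C.filter (loc i)).take P).flatMap (fun T => [T ++ [false], T ++ [true]])

/-- The candidates of length `i`. -/
def cand (loc : ℕ → List Bool → Bool) (P : ℕ) : ℕ → List (List Bool)
  | 0 => [[]]
  | i + 1 => candStep loc P i (cand loc P i)

/-- Some list of candidates is truncated. -/
def trunc (loc : ℕ → List Bool → Bool) (P n : ℕ) : Bool :=
  (List.range (n + 1)).any fun i => decide (P < ((cand loc P i).filter (loc i)).length)

/-- The set `(V_i - T) ∪ ⋃_{(x, B) ∈ w} (B - x)` as a vector of length `n`. -/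
def Zof (n i : ℕ) (T : List Bool) (w : List (ℕ × List Bool)) : List Bool :=
  (List.range n).map fun j =>
    (decide (j < i) && !(mem T j)) || w.any fun p => mem p.2 j && !(decide (j = p.1))

/-- `Z` meets all members of `E`. -/
def hits (n : ℕ) (E : List (List Bool)) (Z : List Bool) : Bool :=
  E.all fun A => (List.range n).any fun j => mem A j && mem Z j

/-- `Z` contains no member of `L`. -/
def avoids (n : ℕ) (L : List (List Bool)) (Z : List Bool) : Bool :=
  L.all fun B => (List.range n).any fun j => mem B j && !(mem Z j)

/-- `Z` meets all members of `E` and contains no member of `L`. -/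
def good (n : ℕ) (E L : List (List Bool)) (Z : List Bool) : Bool := hits n E Z && avoids n L Z

/-- The candidates for good sets. -/
def allZ (X : List (List ℕ)) (W : List (List (ℕ × List Bool))) (P n : ℕ) (E : List (List Bool)) :
    List (List Bool) :=
  (List.range (n + 1)).flatMap fun i =>
    (cand (locB X E) P i).flatMap fun T => W.map fun w => Zof n i T w

/-- One step of the greedy algorithm: delete `j` from `Z` if the rest still meets all of `E`. -/
def minStep (n : ℕ) (E : List (List Bool)) (Z : List Bool) (j : ℕ) : List Bool :=
  bif hits n E (Z.set j false) then Z.set j false else Z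

/-- A minimal transversal of `E` inside the transversal `Z`. -/
def minim (n : ℕ) (E : List (List Bool)) (Z : List Bool) : List Bool :=
  (List.range n).foldl (minStep n E) Z

/-- The search for a new minimal transversal. -/
def next (X : List (List ℕ)) (W : List (List (ℕ × List Bool))) (P n : ℕ) (E L : List (List Bool)) :
    Option (List Bool) :=
  ((allZ X W P n E).find? (good n E L)).map (minim n E)

/-- No list is truncated in the search for a new minimal transversal with local tests of size `q`. -/
def feasH (P n : ℕ) (E L : List (List Bool)) (q : ℕ) : Bool :=
  (decide ((tup P n q).length ≤ P) && decide ((prs P n L q).length ≤ P)) &&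
    !(trunc (locB (tup P n q) E) P n)

/-! ### Direct computation of the minimal transversals if they have a small VC-dimension -/

/-- The set `t` extends to a minimal transversal of `E` avoiding all `j < i` outside `T`: there are
private members for the elements of `t` such that `(V_i - T) ∪ ⋃ (A_x - x)` contains no member
of `E`. -/
def extG (W : List (List (ℕ × List Bool))) (n : ℕ) (E : List (List Bool)) (i : ℕ) (T : List Bool)
    (t : List ℕ) : Bool :=
  W.any fun w => decide (w.map Prod.fst = t) &&
    ((w.all fun p => mem p.2 p.1 && t.all fun j => decide (j = p.1) || !(mem p.2 j)) &&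
      avoids n E (Zof n i T w))

/-- The local test with respect to the family of the minimal transversals of `E`. -/
def locG (X : List (List ℕ)) (W : List (List (ℕ × List Bool))) (n : ℕ) (E : List (List Bool))
    (i : ℕ) (T : List Bool) : Bool :=
  X.all fun t => !(t.all fun j => mem T j) || extG W n E i T t

/-- No list is truncated in the direct computation with local tests of size `q`. -/
def feasG (P n : ℕ) (E : List (List Bool)) (q : ℕ) : Bool :=
  (decide ((tup P n q).length ≤ P) && decide ((prs P n E q).length ≤ P)) &&
    !(trunc (locG (tup P n q) (prs P n E q) n E) P n)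

/-- `Z` is a minimal transversal of `E`. -/
def isMinTr (n : ℕ) (E : List (List Bool)) (Z : List Bool) : Bool :=
  hits n E Z && (List.range n).all fun j => !(mem Z j) || !(hits n E (Z.set j false))

/-- The direct computation of all minimal transversals. -/
def direct (P n : ℕ) (E : List (List Bool)) (q : ℕ) : List (List Bool) :=
  (cand (locG (tup P n q) (prs P n E q) n E) P n).filter (isMinTr n E)

/-! ### Input and output, the main loop -/

/-- Symbols of the alphabet `Option Bool` are represented by two bits. -/
def cod : Option Bool → List Bool
  | none => [false, false]
  | some b => [true, b]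

/-- The number of vertices from the code of a hypergraph. -/
noncomputable def parseN (w : List Bool) : ℕ := PT.mu w.length (fun i => w.getD (2 * i) true = false)

/-- The input hypergraph from its code. -/
noncomputable def parse (w : List Bool) : ℕ × List (List Bool) :=
  (parseN w, (List.range (w.length / 2 / (parseN w + 1) - 1)).map fun k =>
    (List.range (parseN w)).map fun j => w.getD (2 * ((k + 1) * (parseN w + 1) + j) + 1) false)

/-- The states of the main loop: `((n, E), (L, (P, fin)))`. -/
abbrev State := (ℕ × List (List Bool)) × (List (List Bool) × (ℕ × Bool))

/-- The initial state. -/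
noncomputable def initS (w : PT.Word) : State := (parse w.w, ([], (0, false)))

/-- One round. If the direct computation is feasible for some `q < P` it is made; else, if the
search for a new minimal transversal is feasible for some `q < P` it is made; else the budget is
increased. -/
def stepS (s : State) : State :=
  match (List.range s.2.2.1).find? (feasG s.2.2.1 s.1.1 s.1.2) with
  | some q => (s.1, (direct s.2.2.1 s.1.1 s.1.2 q, (s.2.2.1, true)))
  | none =>
    match (List.range s.2.2.1).find? (feasH s.2.2.1 s.1.1 s.1.2 s.2.1) with
    | some q =>
      match next (tup s.2.2.1 s.1.1 q) (prs s.2.2.1 s.1.1 s.2.1 q) s.2.2.1 s.1.1 s.1.2 s.2.1 with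
      | some v => (s.1, (s.2.1 ++ [v], (s.2.2.1, false)))
      | none => (s.1, (s.2.1, (s.2.2.1, true)))
    | none => (s.1, (s.2.1, ((s.2.2.1 + 2) * (s.2.2.1 + 2), false)))

/-- The end of the loop. -/
def doneS (s : State) : Bool := s.2.2.2

/-- The code of the output. -/
def outS (s : State) : PT.Word :=
  ⟨s.2.1.flatMap fun v => (v.flatMap fun b => [true, b]) ++ [false, false]⟩

/-! ### Sets and vectors -/

/-- The vector of a set. -/
def vec {n : ℕ} (T : Finset (Fin n)) : List Bool := List.ofFn (fun i => decide (i ∈ T))

/-- The set of the vertices smaller than `i`. -/
def VI (n i : ℕ) : Finset (Fin n) := Finset.univ.filter (fun j => (j : ℕ) < i)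

/-- The vector of length `i` of the set `T ∩ V_i`. -/
def pre {n : ℕ} (i : ℕ) (T : Finset (Fin n)) : List Bool := (vec T).take i

/-- The minimal transversals of a list of sets. -/
def MinTr {n : ℕ} (E : List (Finset (Fin n))) (T : Finset (Fin n)) : Prop :=
  Minimal (fun S : Finset (Fin n) => ∀ e ∈ E, (S ∩ e).Nonempty) T

open Classical in
/-- The family of all minimal transversals. -/
noncomputable def TrF {n : ℕ} (E : List (Finset (Fin n))) : Finset (Finset (Fin n)) :=
  Finset.univ.filter (MinTr E)

/-- The local condition: every subset `T₀` of `T` with at most `q` elements lies in some `A ∈ H`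
with `A ∩ V_i ⊆ T`. -/
def Loc {n : ℕ} (q : ℕ) (H : Finset (Finset (Fin n))) (i : ℕ) (T : Finset (Fin n)) : Prop :=
  ∀ T₀ ⊆ T, T₀.card ≤ q → ∃ A ∈ H, T₀ ⊆ A ∧ A ∩ VI n i ⊆ T

end Pool.Agent.Helper81.VCP
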