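import Mathlib
import Pool.Agent.Helper81.VCP.Defs

/-!
# VCP-K3: sets and vectors (Mathlib only; many easy lemmas, 120-200 lines)

`vec T = List.ofFn (fun i => decide (i ∈ T))`, `pre i T = (vec T).take i`, `mem v j = v.getD j false`.
For `vec_surj` take `T = univ.filter (fun i => v.getD i false = true)`. `hits_vec`, `avoids_vec`,
`isMinTr_vec`: unfold, `List.all_eq_true`, `List.any_eq_true`, `List.mem_map`, `mem_vec`; for
`isMinTr_vec` use `vec_set` and: `Z` is a minimal transversal iff it is a transversal and no `Z.erase j`,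
`j ∈ Z`, is one.
`Zof_vec`: entries: `j < n` is in the right-hand set iff (`j < i` and `j ∉ T`) or some `x ∈ T₀` has
`j ∈ b x`, `j ≠ x`.
-/

set_option autoImplicit false

namespace Pool.Agent.Helper81.VCP

variable {n : ℕ}

theorem length_vec (T : Finset (Fin n)) : (vec T).length = n := by
  simp [vec]

theorem mem_vec (T : Finset (Fin n)) (j : ℕ) : mem (vec T) j = true ↔ ∃ h : j < n, (⟨j, h⟩ : Fin n) ∈ T := by
  unfold mem vec
  by_cases h : j < n
  · rw [List.getD_eq_getElem _ _ (by simpa using h)]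
    simp [h]
  · rw [List.getD_eq_default _ _ (by simpa using h)]
    simp [h]

theorem mem_vec_fin (T : Finset (Fin n)) (j : Fin n) : mem (vec T) j = true ↔ j ∈ T := by
  rw [mem_vec]
  exact ⟨fun ⟨_, h⟩ => h, fun h => ⟨j.2, h⟩⟩

/-- Two vectors of the same length with the same elements are equal. -/
theorem ext_mem_K3 {v w : List Bool} (hl : v.length = w.length)
    (h : ∀ j, j < v.length → (mem v j = true ↔ mem w j = true)) : v = w := by
  apply List.ext_getElem hl
  intro j h1 h2
  have h3 := h j h1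
  unfold mem at h3
  rw [List.getD_eq_getElem _ _ h1, List.getD_eq_getElem _ _ h2] at h3
  exact Bool.eq_iff_iff.mpr h3

theorem vec_injective : Function.Injective (vec : Finset (Fin n) → List Bool) := by
  intro T T' h
  ext j
  rw [← mem_vec_fin, ← mem_vec_fin, h]

theorem vec_surj (v : List Bool) (hv : v.length = n) : ∃ T : Finset (Fin n), v = vec T := by
  refine ⟨Finset.univ.filter (fun i : Fin n => mem v i = true), ?_⟩
  apply ext_mem_K3
  · rw [length_vec, hv]
  · intro j hj
    rw [mem_vec]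
    constructor
    · intro h
      exact ⟨hv ▸ hj, by simpa using h⟩
    · rintro ⟨h1, h2⟩
      simpa using h2

theorem vec_set (T : Finset (Fin n)) (j : Fin n) : (vec T).set j false = vec (T.erase j) := by
  apply ext_mem_K3
  · rw [List.length_set, length_vec, length_vec]
  · intro i hi
    rw [List.length_set, length_vec] at hi
    rw [mem_vec]
    unfold mem
    rw [List.getD_eq_getElem _ _ (by rw [List.length_set, length_vec]; exact hi), List.getElem_set]
    by_cases hij : (j : ℕ) = i
    · rw [if_pos hij]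
      constructor
      · intro h
        exact absurd h (by decide)
      · rintro ⟨h1, h2⟩
        exact absurd (Fin.ext hij.symm) (Finset.mem_erase.mp h2).1
    · rw [if_neg hij]
      have h3 := mem_vec T i
      unfold mem at h3
      rw [List.getD_eq_getElem _ _ (by rw [length_vec]; exact hi)] at h3
      rw [h3]
      constructor
      · rintro ⟨h1, h2⟩
        refine ⟨h1, Finset.mem_erase.mpr ⟨?_, h2⟩⟩
        intro h4
        exact hij (by rw [← h4])
      · rintro ⟨h1, h2⟩
        exact ⟨h1, (Finset.mem_erase.mp h2).2⟩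

theorem length_pre (i : ℕ) (hi : i ≤ n) (T : Finset (Fin n)) : (pre i T).length = i := by
  unfold pre
  rw [List.length_take, length_vec]
  exact min_eq_left hi

theorem mem_pre (i : ℕ) (T : Finset (Fin n)) (j : ℕ) :
    mem (pre i T) j = true ↔ j < i ∧ ∃ h : j < n, (⟨j, h⟩ : Fin n) ∈ T := by
  rw [← mem_vec]
  unfold pre mem
  by_cases h : j < i
  · rw [List.getD_eq_getElem?_getD, List.getD_eq_getElem?_getD, List.getElem?_take_of_lt h]
    simp [h]
  · rw [List.getD_eq_default _ _ (by rw [List.length_take]; omega)]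
    simp [h]

theorem pre_zero (T : Finset (Fin n)) : pre 0 T = [] := by
  simp [pre]

theorem pre_self (T : Finset (Fin n)) : pre n T = vec T := by
  unfold pre
  exact List.take_of_length_le (by rw [length_vec])

theorem pre_succ (i : ℕ) (hi : i < n) (T : Finset (Fin n)) :
    pre (i + 1) T = pre i T ++ [decide ((⟨i, hi⟩ : Fin n) ∈ T)] := by
  unfold pre
  rw [List.take_add_one, List.getElem?_eq_getElem (by rw [length_vec]; exact hi)]
  simp [vec]

theorem pre_eq_iff (i : ℕ) (T T' : Finset (Fin n)) :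
    pre i T = pre i T' ↔ T ∩ VI n i = T' ∩ VI n i := by
  constructor
  · intro h
    ext j
    have h1 := mem_pre i T j
    have h2 := mem_pre i T' j
    rw [h] at h1
    have h3 := h1.symm.trans h2
    simp only [VI, Finset.mem_inter, Finset.mem_filter, Finset.mem_univ, true_and]
    constructor
    · rintro ⟨h4, h5⟩
      obtain ⟨h6, h7, h8⟩ := h3.mp ⟨h5, j.2, h4⟩
      exact ⟨h8, h6⟩
    · rintro ⟨h4, h5⟩
      obtain ⟨h6, h7, h8⟩ := h3.mpr ⟨h5, j.2, h4⟩
      exact ⟨h8, h6⟩
  · intro h
    apply ext_mem_K3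
    · unfold pre
      rw [List.length_take, List.length_take, length_vec, length_vec]
    · intro j _
      rw [mem_pre, mem_pre]
      have key : ∀ h1 : j < n, j < i → ((⟨j, h1⟩ : Fin n) ∈ T ↔ (⟨j, h1⟩ : Fin n) ∈ T') := by
        intro h1 h2
        have h3 : (⟨j, h1⟩ : Fin n) ∈ T ∩ VI n i ↔ (⟨j, h1⟩ : Fin n) ∈ T' ∩ VI n i := by rw [h]
        simpa [VI, h2] using h3
      constructor
      · rintro ⟨h1, h2, h3⟩
        exact ⟨h1, h2, (key h2 h1).mp h3⟩
      · rintro ⟨h1, h2, h3⟩
        exact ⟨h1, h2, (key h2 h1).mpr h3⟩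

theorem pre_inter (i : ℕ) (T : Finset (Fin n)) : pre i (T ∩ VI n i) = pre i T := by
  rw [pre_eq_iff, Finset.inter_assoc, Finset.inter_self]

theorem pre_surj (i : ℕ) (hi : i ≤ n) (v : List Bool) (hv : v.length = i) :
    ∃ T : Finset (Fin n), T ⊆ VI n i ∧ v = pre i T := by
  obtain ⟨T, hT⟩ := vec_surj (n := n) (v ++ List.replicate (n - i) false) (by
    rw [List.length_append, List.length_replicate, hv]; omega)
  refine ⟨T ∩ VI n i, Finset.inter_subset_right, ?_⟩
  rw [pre_inter]
  unfold pre
  rw [← hT, ← hv, List.take_left]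

theorem hits_vec (E : List (Finset (Fin n))) (Z : Finset (Fin n)) :
    hits n (E.map vec) (vec Z) = true ↔ ∀ A ∈ E, (A ∩ Z).Nonempty := by
  unfold hits
  rw [List.all_eq_true]
  simp only [List.mem_map, forall_exists_index, and_imp, forall_apply_eq_imp_iff₂, List.any_eq_true,
    List.mem_range, Bool.and_eq_true]
  constructor
  · intro h A hA
    obtain ⟨j, hj, h1, h2⟩ := h A hA
    rw [mem_vec] at h1 h2
    obtain ⟨h1, h3⟩ := h1
    obtain ⟨h2, h4⟩ := h2
    exact ⟨⟨j, hj⟩, Finset.mem_inter.mpr ⟨h3, h4⟩⟩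
  · intro h A hA
    obtain ⟨j, hj⟩ := h A hA
    rw [Finset.mem_inter] at hj
    exact ⟨j, j.2, (mem_vec_fin A j).mpr hj.1, (mem_vec_fin Z j).mpr hj.2⟩

theorem avoids_vec (L : List (Finset (Fin n))) (Z : Finset (Fin n)) :
    avoids n (L.map vec) (vec Z) = true ↔ ∀ B ∈ L, ¬ B ⊆ Z := by
  unfold avoids
  rw [List.all_eq_true]
  simp only [List.mem_map, forall_exists_index, and_imp, forall_apply_eq_imp_iff₂, List.any_eq_true,
    List.mem_range, Bool.and_eq_true, Bool.not_eq_true']
  constructor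
  · intro h B hB hs
    obtain ⟨j, hj, h1, h2⟩ := h B hB
    rw [mem_vec] at h1
    obtain ⟨h1, h3⟩ := h1
    have h4 := (mem_vec_fin Z ⟨j, hj⟩).mpr (hs h3)
    rw [h2] at h4
    exact absurd h4 (by decide)
  · intro h B hB
    obtain ⟨j, hj1, hj2⟩ := Finset.not_subset.mp (h B hB)
    refine ⟨j, j.2, (mem_vec_fin B j).mpr hj1, ?_⟩
    rw [← Bool.not_eq_true, mem_vec_fin]
    exact hj2

theorem isMinTr_vec (E : List (Finset (Fin n))) (Z : Finset (Fin n)) :
    isMinTr n (E.map vec) (vec Z) = true ↔ MinTr E Z := by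
  unfold isMinTr
  rw [Bool.and_eq_true, hits_vec, List.all_eq_true]
  constructor
  · rintro ⟨h1, h2⟩
    refine ⟨fun e he => by rw [Finset.inter_comm]; exact h1 e he, ?_⟩
    intro S hS hSZ
    by_contra hcon
    obtain ⟨j, hj1, hj2⟩ := Finset.not_subset.mp hcon
    have h3 := h2 j (List.mem_range.mpr j.2)
    rw [vec_set, Bool.or_eq_true, Bool.not_eq_true', Bool.not_eq_true', ← Bool.not_eq_true,
      mem_vec_fin, ← Bool.not_eq_true, hits_vec] at h3
    rcases h3 with h3 | h3
    · exact h3 hj1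
    · apply h3
      intro A hA
      obtain ⟨x, hx⟩ := hS A hA
      rw [Finset.mem_inter] at hx
      refine ⟨x, Finset.mem_inter.mpr ⟨hx.2, Finset.mem_erase.mpr ⟨?_, hSZ hx.1⟩⟩⟩
      intro hxj
      exact hj2 (hxj ▸ hx.1)
  · rintro ⟨h1, h2⟩
    refine ⟨fun e he => by rw [Finset.inter_comm]; exact h1 e he, ?_⟩
    intro j hj
    rw [List.mem_range] at hj
    have h3 := vec_set Z ⟨j, hj⟩
    simp only at h3
    rw [h3, Bool.or_eq_true, Bool.not_eq_true', Bool.not_eq_true', ← Bool.not_eq_true,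
      ← Bool.not_eq_true, hits_vec]
    by_cases h4 : mem (vec Z) j = true
    · right
      intro h5
      have h6 : (fun S : Finset (Fin n) => ∀ e ∈ E, (S ∩ e).Nonempty) (Z.erase ⟨j, hj⟩) := by
        intro e he
        rw [Finset.inter_comm]
        exact h5 e he
      have h7 := h2 h6 (Finset.erase_subset _ _)
      have h8 : (⟨j, hj⟩ : Fin n) ∈ Z := (mem_vec_fin Z ⟨j, hj⟩).mp h4
      exact (Finset.mem_erase.mp (h7 h8)).1 rfl
    · left
      exact h4

theorem length_Zof (i : ℕ) (T : List Bool) (w : List (ℕ × List Bool)) :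
    (Zof n i T w).length = n := by
  simp [Zof]

theorem Zof_vec (i : ℕ) (T T₀ : Finset (Fin n)) (b : Fin n → Finset (Fin n)) :
    Zof n i (pre i T) (T₀.toList.map (fun x : Fin n => ((x : ℕ), vec (b x)))) =
      vec ((VI n i \ T) ∪ T₀.biUnion (fun x => (b x).erase x)) := by
  apply ext_mem_K3
  · rw [length_Zof, length_vec]
  · intro j hj
    rw [length_Zof] at hj
    rw [mem_vec]
    have h1 : mem (Zof n i (pre i T) (T₀.toList.map (fun x : Fin n => ((x : ℕ), vec (b x))))) j =
        ((decide (j < i) && !(mem (pre i T) j)) ||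
          (T₀.toList.map (fun x : Fin n => ((x : ℕ), vec (b x)))).any
            fun p => mem p.2 j && !(decide (j = p.1))) := by
      unfold Zof
      rw [mem, List.getD_eq_getElem _ _ (by simpa using hj)]
      simp
    rw [h1, Bool.or_eq_true, Bool.and_eq_true, Bool.not_eq_true', ← Bool.not_eq_true, mem_pre,
      List.any_eq_true]
    simp only [List.mem_map, Finset.mem_toList, Bool.and_eq_true, Bool.not_eq_true',
      decide_eq_true_eq, decide_eq_false_iff_not, Finset.mem_union, Finset.mem_sdiff,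
      Finset.mem_biUnion, Finset.mem_erase, VI, Finset.mem_filter, Finset.mem_univ, true_and]
    constructor
    · rintro (⟨h2, h3⟩ | ⟨p, ⟨x, hx, rfl⟩, h3, h4⟩)
      · refine ⟨hj, Or.inl ⟨h2, ?_⟩⟩
        intro h4
        exact h3 ⟨h2, hj, h4⟩
      · rw [mem_vec] at h3
        obtain ⟨_, h5⟩ := h3
        refine ⟨hj, Or.inr ⟨x, hx, ?_, h5⟩⟩
        intro h6
        exact h4 (by rw [← h6])
    · rintro ⟨_, ⟨h2, h3⟩ | ⟨x, hx, h3, h4⟩⟩
      · left
        refine ⟨h2, ?_⟩
        rintro ⟨_, _, h5⟩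
        exact h3 h5
      · right
        refine ⟨((x : ℕ), vec (b x)), ⟨x, hx, rfl⟩, ?_, ?_⟩
        · rw [mem_vec]
          exact ⟨hj, h4⟩
        · intro h5
          exact h3 (Fin.ext h5)

end Pool.Agent.Helper81.VCP
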