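import Mathlib
import Pool.Agent.Helper68.PT.Ext2
import Pool.Agent.Helper81.VCP.Defs

/-!
# VCP-PT1a: polynomial time of `mem` and `tup` (PT library; 50-90 lines)

The PT library (`Pool.Agent.Helper68.PT.Core`, `Ext`, `Ext2`; see the docs at the head of `Core.lean`)
proves `PolyTime f` by `fun_prop` for compositions of its functions; a local function of several
variables is made available by `have h := @PolyTime.unc1 _ _ _ _ _ _ _ hf` (or `unc2`).
* `mem`: `getD`.
* `tup`: show that `tup P n q = PT.recN [[]] (fun _ X => (X ++ X.flatMap ...).take (P + 1)) q`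
  (`PT.recN s h (n+1) = h n (PT.recN s h n)`) and use `PolyTime.recN` (`Pool.Agent.Helper28.PT.E1`), which
  needs a `Bdd` bound on the size of the intermediate values: `tup P n k`, `k ≤ q`, has at most `P + 1`
  elements (a `take (P+1)`, or `[[]]`), each of which is a list of at most `k` numbers `< n`; `esz` of a
  list is the sum of the `2 * esz x + 1`; `esz` of a number is the number (`esz_nat`); so
  `esz ≤ (P + 1) * (2 * (q * (2 * n + 1)) + 1)`. `Bdd` by `Bdd.add`, `Bdd.mul`, `Bdd.const`, and
  `(hP.bdd).mono ..` for `P`, `n`, `q`.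
-/

set_option autoImplicit false

namespace Pool.Agent.Helper81.VCP

open Pool.Agent.Helper36.PT

variable {α : Type} [Enc α]

@[fun_prop]
theorem mem_pt {v : α → List Bool} {j : α → ℕ} (hv : PolyTime v) (hj : PolyTime j) :
    PolyTime (fun a => mem (v a) (j a)) := by
  have h : PolyTime (fun a => (v a).getD (j a) false) := by fun_prop
  exact h

private theorem pt1a_rec (P n : ℕ) (k : ℕ) :
    recN [[]] (fun _ X => (X ++ X.flatMap (fun t => (List.range n).map (fun j => j :: t))).take
      (P + 1)) k = tup P n k := by
  induction k with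
  | zero => rfl
  | succ k ih =>
    rw [recN, ih]
    rfl

private theorem pt1a_len (P n : ℕ) (k : ℕ) : (tup P n k).length ≤ P + 1 := by
  cases k with
  | zero => simp [tup]
  | succ k =>
    rw [tup, List.length_take]
    exact min_le_left _ _

private theorem pt1a_mem (P n : ℕ) (k : ℕ) :
    ∀ t ∈ tup P n k, t.length ≤ k ∧ ∀ x ∈ t, x < n := by
  induction k with
  | zero =>
    intro t ht
    simp only [tup, List.mem_singleton] at ht
    subst ht
    exact ⟨le_refl _, fun x hx => by simp at hx⟩
  | succ k ih =>
    intro t ht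
    rw [tup] at ht
    have h1 := List.mem_of_mem_take ht
    rw [List.mem_append, List.mem_flatMap] at h1
    rcases h1 with h | ⟨u, hu, h⟩
    · exact ⟨(ih t h).1.trans (Nat.le_succ k), (ih t h).2⟩
    · rw [List.mem_map] at h
      obtain ⟨j, hj, rfl⟩ := h
      rw [List.mem_range] at hj
      refine ⟨?_, ?_⟩
      · rw [List.length_cons]
        exact Nat.succ_le_succ (ih u hu).1
      · intro x hx
        rw [List.mem_cons] at hx
        rcases hx with h | h
        · rw [h]; exact hj
        · exact (ih u hu).2 x h

private theorem pt1a_esz (P n : ℕ) (k q : ℕ) (hk : k ≤ q) :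
    esz (tup P n k) ≤ (P + 1) * (2 * (q * (2 * n + 1)) + 1) := by
  have h1 : ∀ t ∈ tup P n k, esz t ≤ q * (2 * n + 1) := by
    intro t ht
    obtain ⟨h2, h3⟩ := pt1a_mem P n k t ht
    have h4 : esz t ≤ t.length * (2 * n + 1) := by
      apply esz_list_le
      intro x hx
      rw [esz_nat]
      exact (h3 x hx).le
    exact h4.trans (Nat.mul_le_mul_right _ (h2.trans hk))
  have h5 : esz (tup P n k) ≤ (tup P n k).length * (2 * (q * (2 * n + 1)) + 1) :=
    esz_list_le h1
  exact h5.trans (Nat.mul_le_mul_right _ (pt1a_len P n k))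

@[fun_prop]
theorem tup_pt {P n q : α → ℕ} (hP : PolyTime P) (hn : PolyTime n) (hq : PolyTime q) :
    PolyTime (fun a => tup (P a) (n a) (q a)) := by
  have hh : PolyTime (fun p : (α × ℕ) × List (List ℕ) =>
      (p.2 ++ p.2.flatMap (fun t => (List.range (n p.1.1)).map (fun j => j :: t))).take
        (P p.1.1 + 1)) := by fun_prop
  have h := PolyTime.recN (n := q) (g := fun _ : α => ([[]] : List (List ℕ)))
    (h := fun a _ X => (X ++ X.flatMap (fun t => (List.range (n a)).map (fun j => j :: t))).take
      (P a + 1)) hq (PolyTime.const [[]]) hh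
    ⟨fun a => (P a + 1) * (2 * (q a * (2 * n a + 1)) + 1),
      ((bdd_nat hP).add (Bdd.const 1)).mul
        (((Bdd.const 2).mul ((bdd_nat hq).mul
          (((Bdd.const 2).mul (bdd_nat hn)).add (Bdd.const 1)))).add (Bdd.const 1)), by
        intro a i hi
        rw [pt1a_rec]
        exact pt1a_esz (P a) (n a) i (q a) hi⟩
  refine h.congr fun a => ?_
  exact pt1a_rec (P a) (n a) (q a)

end Pool.Agent.Helper81.VCP
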