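import Mathlib
import Pool.Agent.Helper68.PT.Ext2
import Pool.Agent.Helper81.VCP.Defs

/-!
# VCP-PT1b: polynomial time of `prs` (PT library; 50-90 lines)

The PT library (`Pool.Agent.Helper68.PT.Core`, `Ext`, `Ext2`; see the docs at the head of `Core.lean`)
proves `PolyTime f` by `fun_prop` for compositions of its functions; a local function of several
variables is made available by `have h := @PolyTime.unc1 _ _ _ _ _ _ _ hf` (or `unc2`).
`prs P n L q = PT.recN [[]] (fun _ W => (W ++ W.flatMap ...).take (P + 1)) q`
(`PT.recN s h (n+1) = h n (PT.recN s h n)`); use `PolyTime.recN` (`Pool.Agent.Helper28.PT.E1`), which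
needs a `Bdd` bound on the size of the intermediate values: `prs P n L k`, `k ≤ q`, has at most `P + 1`
elements (a `take (P+1)`, or `[[]]`), each of which is a list of at most `k` pairs `(j, B)`, `j < n`,
`B ∈ L`; `esz` of a list is the sum of the `2 * esz x + 1`, `esz (a, b) = 2 * esz a + 1 + esz b`
(`esz_pair`), `esz` of a number is the number (`esz_nat`), `esz B ≤ esz L` for `B ∈ L`; so
`esz ≤ (P + 1) * (2 * (q * (2 * (2 * n + 1 + esz L) + 1)) + 1)`.
-/

set_option autoImplicit false

namespace Pool.Agent.Helper81.VCP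

open Pool.Agent.Helper36.PT

variable {α : Type} [Enc α]

private theorem pt1b_esz_mem {β : Type} [Enc β] (l : List β) (x : β) (hx : x ∈ l) :
    esz x ≤ esz l := by
  induction l with
  | nil => simp at hx
  | cons y l ih =>
    rw [esz_cons]
    rw [List.mem_cons] at hx
    rcases hx with h | h
    · rw [h]; omega
    · have := ih h
      omega

private theorem pt1b_rec (P n : ℕ) (L : List (List Bool)) (k : ℕ) :
    recN [[]] (fun _ W => (W ++ W.flatMap (fun w =>
      (List.range n).flatMap (fun j => L.map (fun B => (j, B) :: w)))).take (P + 1)) k =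
      prs P n L k := by
  induction k with
  | zero => rfl
  | succ k ih =>
    rw [recN, ih]
    rfl

private theorem pt1b_len (P n : ℕ) (L : List (List Bool)) (k : ℕ) :
    (prs P n L k).length ≤ P + 1 := by
  cases k with
  | zero => simp [prs]
  | succ k =>
    rw [prs, List.length_take]
    exact min_le_left _ _

private theorem pt1b_mem (P n : ℕ) (L : List (List Bool)) (k : ℕ) :
    ∀ t ∈ prs P n L k, t.length ≤ k ∧ ∀ x ∈ t, x.1 < n ∧ x.2 ∈ L := by
  induction k with
  | zero =>
    intro t ht
    simp only [prs, List.mem_singleton] at ht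
    subst ht
    exact ⟨le_refl _, fun x hx => by simp at hx⟩
  | succ k ih =>
    intro t ht
    rw [prs] at ht
    have h1 := List.mem_of_mem_take ht
    rw [List.mem_append, List.mem_flatMap] at h1
    rcases h1 with h | ⟨u, hu, h⟩
    · exact ⟨(ih t h).1.trans (Nat.le_succ k), (ih t h).2⟩
    · rw [List.mem_flatMap] at h
      obtain ⟨j, hj, h⟩ := h
      rw [List.mem_map] at h
      obtain ⟨B, hB, rfl⟩ := h
      rw [List.mem_range] at hj
      refine ⟨?_, ?_⟩
      · rw [List.length_cons]
        exact Nat.succ_le_succ (ih u hu).1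
      · intro x hx
        rw [List.mem_cons] at hx
        rcases hx with h | h
        · rw [h]; exact ⟨hj, hB⟩
        · exact (ih u hu).2 x h

private theorem pt1b_esz (P n : ℕ) (L : List (List Bool)) (k q : ℕ) (hk : k ≤ q) :
    esz (prs P n L k) ≤ (P + 1) * (2 * (q * (2 * (2 * n + 1 + esz L) + 1)) + 1) := by
  have h1 : ∀ t ∈ prs P n L k, esz t ≤ q * (2 * (2 * n + 1 + esz L) + 1) := by
    intro t ht
    obtain ⟨h2, h3⟩ := pt1b_mem P n L k t ht
    have h4 : esz t ≤ t.length * (2 * (2 * n + 1 + esz L) + 1) := by
      apply esz_list_le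
      intro x hx
      obtain ⟨h5, h6⟩ := h3 x hx
      have h7 := pt1b_esz_mem L x.2 h6
      have h8 : esz x = 2 * x.1 + 1 + esz x.2 := by
        have := esz_pair x.1 x.2
        rw [esz_nat] at this
        exact this
      omega
    exact h4.trans (Nat.mul_le_mul_right _ (h2.trans hk))
  have h5 : esz (prs P n L k) ≤
      (prs P n L k).length * (2 * (q * (2 * (2 * n + 1 + esz L) + 1)) + 1) :=
    esz_list_le h1
  exact h5.trans (Nat.mul_le_mul_right _ (pt1b_len P n L k))

@[fun_prop]
theorem prs_pt {P n q : α → ℕ} {L : α → List (List Bool)} (hP : PolyTime P) (hn : PolyTime n)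
    (hL : PolyTime L) (hq : PolyTime q) : PolyTime (fun a => prs (P a) (n a) (L a) (q a)) := by
  have hh : PolyTime (fun p : (α × ℕ) × List (List (ℕ × List Bool)) =>
      (p.2 ++ p.2.flatMap (fun w =>
        (List.range (n p.1.1)).flatMap (fun j => (L p.1.1).map (fun B => (j, B) :: w)))).take
        (P p.1.1 + 1)) := by fun_prop
  have hLs : PolyTime (fun a => esz (L a)) := by fun_prop
  have h := PolyTime.recN (n := q) (g := fun _ : α => ([[]] : List (List (ℕ × List Bool))))
    (h := fun a _ W => (W ++ W.flatMap (fun w =>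
        (List.range (n a)).flatMap (fun j => (L a).map (fun B => (j, B) :: w)))).take
      (P a + 1)) hq (PolyTime.const [[]]) hh
    ⟨fun a => (P a + 1) * (2 * (q a * (2 * (2 * n a + 1 + esz (L a)) + 1)) + 1),
      ((bdd_nat hP).add (Bdd.const 1)).mul
        (((Bdd.const 2).mul ((bdd_nat hq).mul
          (((Bdd.const 2).mul ((((Bdd.const 2).mul (bdd_nat hn)).add (Bdd.const 1)).add
            (bdd_nat hLs))).add (Bdd.const 1)))).add (Bdd.const 1)), by
        intro a i hi
        rw [pt1b_rec]
        exact pt1b_esz (P a) (n a) (L a) i (q a) hi⟩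
  refine h.congr fun a => ?_
  exact pt1b_rec (P a) (n a) (L a) (q a)

end Pool.Agent.Helper81.VCP
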