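import Mathlib
import Pool.Agent.Helper68.PT.Ext2
import Pool.Agent.Helper81.VCP.Defs
import Pool.Agent.Helper81.VCP.PT1a

/-!
# VCP-PT2a: polynomial time of the tests (PT library, PT1a as black box; 50-90 lines)

The PT library (`Pool.Agent.Helper68.PT.Core`, `Ext`, `Ext2`; see the docs at the head of `Core.lean`)
proves `PolyTime f` by `fun_prop` for compositions of its functions; a local function of several
variables is made available by `have h := @PolyTime.unc1 _ _ _ _ _ _ _ hf` (or `unc2`).
All by `fun_prop` after unfolding: `locB`, `Zof`, `hits`, `avoids`, `good`, `isMinTr` are compositions of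
`List.all`, `List.any`, `List.map`, `List.range`, `List.set`, `decide`, `&&`, `||`, `!`, `mem`.
-/

set_option autoImplicit false

namespace Pool.Agent.Helper81.VCP

open Pool.Agent.Helper36.PT

variable {α : Type} [Enc α]

@[fun_prop]
theorem locB_pt {X : α → List (List ℕ)} {E : α → List (List Bool)} {i : α → ℕ} {T : α → List Bool}
    (hX : PolyTime X) (hE : PolyTime E) (hi : PolyTime i) (hT : PolyTime T) :
    PolyTime (fun a => locB (X a) (E a) (i a) (T a)) := by
  unfold locB
  fun_prop

@[fun_prop]
theorem Zof_pt {n i : α → ℕ} {T : α → List Bool} {w : α → List (ℕ × List Bool)}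
    (hn : PolyTime n) (hi : PolyTime i) (hT : PolyTime T) (hw : PolyTime w) :
    PolyTime (fun a => Zof (n a) (i a) (T a) (w a)) := by
  unfold Zof
  fun_prop

@[fun_prop]
theorem hits_pt {n : α → ℕ} {E : α → List (List Bool)} {Z : α → List Bool} (hn : PolyTime n)
    (hE : PolyTime E) (hZ : PolyTime Z) : PolyTime (fun a => hits (n a) (E a) (Z a)) := by
  unfold hits
  fun_prop

@[fun_prop]
theorem avoids_pt {n : α → ℕ} {L : α → List (List Bool)} {Z : α → List Bool} (hn : PolyTime n)
    (hL : PolyTime L) (hZ : PolyTime Z) : PolyTime (fun a => avoids (n a) (L a) (Z a)) := by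
  unfold avoids
  fun_prop

@[fun_prop]
theorem good_pt {n : α → ℕ} {E L : α → List (List Bool)} {Z : α → List Bool} (hn : PolyTime n)
    (hE : PolyTime E) (hL : PolyTime L) (hZ : PolyTime Z) :
    PolyTime (fun a => good (n a) (E a) (L a) (Z a)) := by
  unfold good
  fun_prop

@[fun_prop]
theorem isMinTr_pt {n : α → ℕ} {E : α → List (List Bool)} {Z : α → List Bool} (hn : PolyTime n)
    (hE : PolyTime E) (hZ : PolyTime Z) : PolyTime (fun a => isMinTr (n a) (E a) (Z a)) := by
  unfold isMinTr
  fun_prop

end Pool.Agent.Helper81.VCP
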