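import Mathlib
import Pool.Agent.Helper81.VCP.Defs
import Pool.Agent.Helper81.VCP.K3

/-!
# VCP-K5: the lists of candidates (uses VCP-K3 as black boxes; 80-130 lines)

`cand loc P (i+1) = (((cand loc P i).filter (loc i)).take P).flatMap (T ↦ [T ++ [false], T ++ [true]])`.
* `length_of_mem_cand`, `nodup_cand`: induction on `i`; `T ++ [b]` determines `T` and `b`
  (`List.append_inj'`), `List.nodup_flatMap` or similar, `List.Nodup.filter`, `List.Nodup.sublist`
  with `List.take_sublist`.
* `mem_cand`: induction on `i`; since `trunc loc P n = false`, for `i ≤ n` the list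
  `(cand loc P i).filter (loc i)` has at most `P` elements, so `take P` does nothing
  (`List.take_of_length_le`); `pre (i+1) T = pre i T ++ [..]` (`pre_succ`), so
  `pre (i+1) T ∈ cand loc P (i+1)` iff `pre i T ∈ cand loc P i` and `loc i (pre i T) = true`.
* `not_trunc`: for `i ≤ n` the elements of `(cand loc P i).filter (loc i)` are distinct vectors of
  length `i`, i.e. `pre i T` for distinct `T ⊆ V_i` (`pre_surj`, `pre_eq_iff`) with
  `loc i (pre i T) = true`; so the length is at most the number of such `T`, which is at most `P` by
  hypothesis (`List.toFinset_card_of_nodup`, `Finset.card_le_card_of_surjOn` or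
  `Finset.card_image_le`).
-/

set_option autoImplicit false

namespace Pool.Agent.Helper81.VCP

private theorem cand_succ (loc : ℕ → List Bool → Bool) (P i : ℕ) :
    cand loc P (i + 1) = (((cand loc P i).filter (loc i)).take P).flatMap
      (fun T => [T ++ [false], T ++ [true]]) := rfl

private theorem mem_cand_succ (loc : ℕ → List Bool → Bool) (P i : ℕ) (v : List Bool) :
    v ∈ cand loc P (i + 1) ↔ ∃ T ∈ ((cand loc P i).filter (loc i)).take P, ∃ b : Bool,
      v = T ++ [b] := by
  rw [cand_succ, List.mem_flatMap]
  constructor
  · rintro ⟨T, hT, h⟩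
    simp only [List.mem_cons, List.not_mem_nil, or_false] at h
    rcases h with h | h
    · exact ⟨T, hT, false, h⟩
    · exact ⟨T, hT, true, h⟩
  · rintro ⟨T, hT, b, h⟩
    refine ⟨T, hT, ?_⟩
    cases b
    · rw [h]
      exact List.mem_cons_self
    · rw [h]
      exact List.mem_cons_of_mem _ List.mem_cons_self

theorem length_of_mem_cand (loc : ℕ → List Bool → Bool) (P i : ℕ) (v : List Bool)
    (hv : v ∈ cand loc P i) : v.length = i := by
  induction i generalizing v with
  | zero =>
    have h : v = [] := List.mem_singleton.1 hv
    rw [h, List.length_nil]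
  | succ i ih =>
    obtain ⟨T, hT, b, rfl⟩ := (mem_cand_succ loc P i v).1 hv
    rw [List.length_append, List.length_singleton,
      ih T (List.mem_filter.1 (List.mem_of_mem_take hT)).1]

theorem nodup_cand (loc : ℕ → List Bool → Bool) (P i : ℕ) : (cand loc P i).Nodup := by
  induction i with
  | zero => exact List.nodup_singleton _
  | succ i ih =>
    rw [cand_succ, List.nodup_flatMap]
    constructor
    · intro T _
      rw [List.nodup_cons]
      refine ⟨?_, List.nodup_singleton _⟩
      rw [List.mem_singleton]
      intro h
      have h1 := (List.append_inj' h rfl).2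
      simp at h1
    · have h1 : (((cand loc P i).filter (loc i)).take P).Nodup :=
        (ih.filter _).sublist (List.take_sublist _ _)
      refine List.Pairwise.imp ?_ h1
      intro T T' hne
      change List.Disjoint _ _
      intro v h2 h3
      apply hne
      simp only [List.mem_cons, List.not_mem_nil, or_false] at h2 h3
      rcases h2 with h2 | h2 <;> rcases h3 with h3 | h3
      all_goals exact (List.append_inj' (h2.symm.trans h3) rfl).1

theorem length_cand_le (loc : ℕ → List Bool → Bool) (P i : ℕ) :
    (cand loc P i).length ≤ 2 * P + 1 := by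
  cases i with
  | zero => simp [cand]
  | succ i =>
    rw [cand_succ]
    have h : ∀ L : List (List Bool),
        (L.flatMap (fun T => [T ++ [false], T ++ [true]])).length = 2 * L.length := by
      intro L
      induction L with
      | nil => simp
      | cons a L ih =>
        rw [List.flatMap_cons, List.length_append, ih, List.length_cons]
        simp only [List.length_cons, List.length_nil]
        ring
    rw [h, List.length_take]
    have := min_le_left P ((cand loc P i).filter (loc i)).length
    omega

theorem mem_cand {n : ℕ} (loc : ℕ → List Bool → Bool) (P : ℕ) (h : trunc loc P n = false) (i : ℕ)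
    (hi : i ≤ n) (T : Finset (Fin n)) :
    pre i T ∈ cand loc P i ↔ ∀ j < i, loc j (pre j T) = true := by
  induction i with
  | zero =>
    rw [pre_zero]
    exact ⟨fun _ j hj => absurd hj (Nat.not_lt_zero j), fun _ => List.mem_singleton.2 rfl⟩
  | succ i ih =>
    have hlen : ((cand loc P i).filter (loc i)).length ≤ P := by
      by_contra hc
      have h1 : trunc loc P n = true := by
        unfold trunc
        rw [List.any_eq_true]
        exact ⟨i, List.mem_range.2 (by omega), decide_eq_true (by omega)⟩
      rw [h] at h1
      exact Bool.false_ne_true h1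
    rw [mem_cand_succ, List.take_of_length_le hlen, pre_succ i (by omega) T]
    constructor
    · rintro ⟨T', hT', b, hb⟩
      have h1 := (List.append_inj' hb rfl).1
      obtain ⟨h2, h3⟩ := List.mem_filter.1 hT'
      rw [← h1] at h2 h3
      intro j hj
      rcases Nat.lt_succ_iff_lt_or_eq.1 hj with hj | rfl
      · exact (ih (by omega)).1 h2 j hj
      · exact h3
    · intro h1
      exact ⟨pre i T, List.mem_filter.2 ⟨(ih (by omega)).2 fun j hj => h1 j (by omega),
        h1 i (by omega)⟩, _, rfl⟩

theorem not_trunc {n : ℕ} (loc : ℕ → List Bool → Bool) (P : ℕ)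
    (h : ∀ i ≤ n, ∀ 𝒯 : Finset (Finset (Fin n)),
      (∀ T ∈ 𝒯, T ⊆ VI n i ∧ loc i (pre i T) = true) → 𝒯.card ≤ P) :
    trunc loc P n = false := by
  classical
  rw [← Bool.not_eq_true]
  intro ht
  unfold trunc at ht
  rw [List.any_eq_true] at ht
  obtain ⟨i, hi, h1⟩ := ht
  rw [List.mem_range] at hi
  have h2 : P < ((cand loc P i).filter (loc i)).length := of_decide_eq_true h1
  have h3 : ((cand loc P i).filter (loc i)).Nodup := (nodup_cand loc P i).filter _
  have h4 := h i (by omega)
    (Finset.univ.filter fun T : Finset (Fin n) => T ⊆ VI n i ∧ loc i (pre i T) = true)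
    (fun T hT => (Finset.mem_filter.1 hT).2)
  rw [← List.toFinset_card_of_nodup h3] at h2
  have h5 : ((cand loc P i).filter (loc i)).toFinset.card ≤
      (Finset.univ.filter fun T : Finset (Fin n) =>
        T ⊆ VI n i ∧ loc i (pre i T) = true).card := by
    refine Finset.card_le_card_of_surjOn (pre i) ?_
    intro v hv
    rw [Finset.mem_coe, List.mem_toFinset, List.mem_filter] at hv
    have hin : i ≤ n := by omega
    obtain ⟨T, hT, rfl⟩ := pre_surj i hin v (length_of_mem_cand loc P i v hv.1)
    refine ⟨T, ?_, rfl⟩
    rw [Finset.mem_coe, Finset.mem_filter]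
    exact ⟨Finset.mem_univ _, hT, hv.2⟩
  omega

end Pool.Agent.Helper81.VCP
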