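import Mathlib
import Pool.Agent.Helper68.PT.Ext2
import Pool.Agent.Helper81.VCP.Defs
import Pool.Agent.Helper81.VCP.K5

/-!
# VCP-PT1c: polynomial time of `cand` and `trunc` (PT library, K5 as black box; 60-100 lines)

The PT library (`Pool.Agent.Helper68.PT.Core`, `Ext`, `Ext2`; see the docs at the head of `Core.lean`)
proves `PolyTime f` by `fun_prop` for compositions of its functions; a local function of several
variables is made available by `have h := @PolyTime.unc1 _ _ _ _ _ _ _ hf` (or `unc2`).
* `cand loc P i = PT.recN [[]] (candStep loc P) i` (`PT.recN s h (n+1) = h n (PT.recN s h n)`); use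
  `PolyTime.recN` (`Pool.Agent.Helper28.PT.E1`), which needs a `Bdd` bound on the size of the intermediate
  values: `cand loc P k`, `k ≤ i`, has at most `2 P + 1` elements (`length_cand_le`), which are lists of
  `k` Booleans (`length_of_mem_cand`), so `esz ≤ (2 P + 1) * (6 * i + 1)`. The step uses
  `PolyTime.filter` with `hloc`.
* `trunc`: `List.any` over `List.range`, `cand_comp`, `filter`, `length`, `decide`.
-/

set_option autoImplicit false

namespace Pool.Agent.Helper81.VCP

open Pool.Agent.Helper36.PT

variable {α : Type} [Enc α]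

private theorem pt1c_rec (loc : ℕ → List Bool → Bool) (P : ℕ) (k : ℕ) :
    recN [[]] (fun i C => candStep loc P i C) k = cand loc P k := by
  induction k with
  | zero => rfl
  | succ k ih =>
    rw [recN, ih]
    rfl

private theorem pt1c_esz (loc : ℕ → List Bool → Bool) (P : ℕ) (k q : ℕ) (hk : k ≤ q) :
    esz (cand loc P k) ≤ (2 * P + 1) * (2 * (q * (2 * 1 + 1)) + 1) := by
  have h1 : ∀ t ∈ cand loc P k, esz t ≤ q * (2 * 1 + 1) := by
    intro t ht
    have h4 : esz t ≤ t.length * (2 * 1 + 1) := by
      apply esz_list_le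
      intro x hx
      exact le_refl 1
    rw [length_of_mem_cand loc P k t ht] at h4
    exact h4.trans (Nat.mul_le_mul_right _ hk)
  have h5 : esz (cand loc P k) ≤ (cand loc P k).length * (2 * (q * (2 * 1 + 1)) + 1) :=
    esz_list_le h1
  exact h5.trans (Nat.mul_le_mul_right _ (length_cand_le loc P k))

/-- `cand` with a test depending on parameters. -/
theorem cand_comp {β : Type} [Enc β] {loc : β → ℕ → List Bool → Bool} {b : α → β} {P i : α → ℕ}
    (hloc : PolyTime (fun p : (β × ℕ) × List Bool => loc p.1.1 p.1.2 p.2)) (hb : PolyTime b)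
    (hP : PolyTime P) (hi : PolyTime i) : PolyTime (fun a => cand (loc (b a)) (P a) (i a)) := by
  have hl := @PolyTime.unc2 _ _ _ _ _ _ _ _ _ hloc
  have hh : PolyTime (fun p : (α × ℕ) × List (List Bool) =>
      candStep (loc (b p.1.1)) (P p.1.1) p.1.2 p.2) := by
    unfold candStep
    fun_prop
  have h := PolyTime.recN (n := i) (g := fun _ : α => ([[]] : List (List Bool)))
    (h := fun a k C => candStep (loc (b a)) (P a) k C) hi (PolyTime.const [[]]) hh
    ⟨fun a => (2 * P a + 1) * (2 * (i a * (2 * 1 + 1)) + 1),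
      (((Bdd.const 2).mul (bdd_nat hP)).add (Bdd.const 1)).mul
        (((Bdd.const 2).mul ((bdd_nat hi).mul (Bdd.const (2 * 1 + 1)))).add (Bdd.const 1)), by
        intro a k hk
        rw [pt1c_rec]
        exact pt1c_esz (loc (b a)) (P a) k (i a) hk⟩
  refine h.congr fun a => ?_
  exact pt1c_rec (loc (b a)) (P a) (i a)

theorem trunc_comp {β : Type} [Enc β] {loc : β → ℕ → List Bool → Bool} {b : α → β} {P n : α → ℕ}
    (hloc : PolyTime (fun p : (β × ℕ) × List Bool => loc p.1.1 p.1.2 p.2)) (hb : PolyTime b)
    (hP : PolyTime P) (hn : PolyTime n) : PolyTime (fun a => trunc (loc (b a)) (P a) (n a)) := by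
  have hl := @PolyTime.unc2 _ _ _ _ _ _ _ _ _ hloc
  have hc : PolyTime (fun p : α × ℕ => cand (loc (b p.1)) (P p.1) p.2) :=
    cand_comp hloc (hb.comp PolyTime.fst) (hP.comp PolyTime.fst) PolyTime.snd
  have hf : PolyTime (fun p : α × ℕ =>
      decide (P p.1 < ((cand (loc (b p.1)) (P p.1) p.2).filter (loc (b p.1) p.2)).length)) := by
    fun_prop
  unfold trunc
  fun_prop

end Pool.Agent.Helper81.VCP
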