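import Mathlib
import Pool.Agent.Helper68.PT.Ext2
import Pool.Agent.Helper81.VCP.Defs
import Pool.Agent.Helper81.VCP.PT1a
import Pool.Agent.Helper81.VCP.PT1b
import Pool.Agent.Helper81.VCP.PT1c
import Pool.Agent.Helper81.VCP.PT2a

/-!
# VCP-PT2b: polynomial time of the search (PT library, PT1a-c, PT2a as black boxes; 60-100 lines)

The PT library (`Pool.Agent.Helper68.PT.Core`, `Ext`, `Ext2`; see the docs at the head of `Core.lean`)
proves `PolyTime f` by `fun_prop` for compositions of its functions; a local function of several
variables is made available by `have h := @PolyTime.unc1 _ _ _ _ _ _ _ hf` (or `unc2`).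
* `minim`: `PolyTime.foldl` (`Pool.Agent.Helper31.PT.F1`); the intermediate values are vectors of the
  same length as `Z` (`List.length_set`), and `esz` of a list of Booleans is 3 times its length, so the
  bound is `esz (Z a)`; the step is a `bif` (`PolyTime.bif`).
* `next`: unfold `next`, `allZ`; `cand_comp` with the parameter `b = (X, E)`, `loc b = locB b.1 b.2`;
  then `flatMap`, `map`, `find?`, `Option.map` (`PolyTime.optMap`).
* `feasH`: `tup_pt`, `prs_pt`, `trunc_comp` with `b = (tup P n q, E)`.
-/

set_option autoImplicit false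

namespace Pool.Agent.Helper81.VCP

open Pool.Agent.Helper36.PT

variable {α : Type} [Enc α]

private theorem pt2b_len (n : ℕ) (E : List (List Bool)) (l : List ℕ) (Z : List Bool) :
    (l.foldl (minStep n E) Z).length = Z.length := by
  induction l generalizing Z with
  | nil => rfl
  | cons j l ih =>
    rw [List.foldl_cons, ih]
    unfold minStep
    cases hits n E (Z.set j false)
    · rfl
    · simp

@[fun_prop]
theorem minim_pt {n : α → ℕ} {E : α → List (List Bool)} {Z : α → List Bool} (hn : PolyTime n)
    (hE : PolyTime E) (hZ : PolyTime Z) : PolyTime (fun a => minim (n a) (E a) (Z a)) := by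
  have hstep : PolyTime (fun p : (α × List Bool) × ℕ =>
      minStep (n p.1.1) (E p.1.1) p.1.2 p.2) := by
    unfold minStep
    fun_prop
  refine PolyTime.foldl (l := fun a => List.range (n a)) (g := Z)
    (h := fun a => minStep (n a) (E a)) (by fun_prop) hZ hstep
    ⟨fun a => (Z a).length * (2 * 1 + 1), (bdd_nat (by fun_prop)).mul (Bdd.const _), ?_⟩
  intro a i
  have h1 := pt2b_len (n a) (E a) ((List.range (n a)).take i) (Z a)
  change _ ≤ (Z a).length * (2 * 1 + 1)
  rw [← h1]
  apply esz_list_le
  intro b _
  exact le_of_eq (esz_bool b)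

private def candB (X : List (List ℕ)) (E : List (List Bool)) (P i : ℕ) : List (List Bool) :=
  cand (locB X E) P i

@[fun_prop]
private theorem candB_pt {X : α → List (List ℕ)} {E : α → List (List Bool)} {P i : α → ℕ}
    (hX : PolyTime X) (hE : PolyTime E) (hP : PolyTime P) (hi : PolyTime i) :
    PolyTime (fun a => candB (X a) (E a) (P a) (i a)) := by
  have hloc : PolyTime (fun p : (((List (List ℕ)) × (List (List Bool))) × ℕ) × List Bool =>
      (fun b : (List (List ℕ)) × (List (List Bool)) => locB b.1 b.2) p.1.1 p.1.2 p.2) := by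
    fun_prop
  exact cand_comp (loc := fun b : (List (List ℕ)) × (List (List Bool)) => locB b.1 b.2)
    (b := fun a => (X a, E a)) hloc (by fun_prop) hP hi

@[fun_prop]
theorem next_pt {X : α → List (List ℕ)} {W : α → List (List (ℕ × List Bool))} {P n : α → ℕ}
    {E L : α → List (List Bool)} (hX : PolyTime X) (hW : PolyTime W) (hP : PolyTime P)
    (hn : PolyTime n) (hE : PolyTime E) (hL : PolyTime L) :
    PolyTime (fun a => next (X a) (W a) (P a) (n a) (E a) (L a)) := by
  have e : ∀ (X : List (List ℕ)) (W : List (List (ℕ × List Bool))) (P n : ℕ)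
      (E L : List (List Bool)), next X W P n E L =
      (((List.range (n + 1)).flatMap fun i =>
        (candB X E P i).flatMap fun T => W.map fun w => Zof n i T w).find? (good n E L)).map
          (minim n E) := fun _ _ _ _ _ _ => rfl
  simp only [e]
  fun_prop

@[fun_prop]
theorem feasH_pt {P n : α → ℕ} {E L : α → List (List Bool)} {q : α → ℕ} (hP : PolyTime P)
    (hn : PolyTime n) (hE : PolyTime E) (hL : PolyTime L) (hq : PolyTime q) :
    PolyTime (fun a => feasH (P a) (n a) (E a) (L a) (q a)) := by
  have hloc : PolyTime (fun p : (((List (List ℕ)) × (List (List Bool))) × ℕ) × List Bool =>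
      (fun b : (List (List ℕ)) × (List (List Bool)) => locB b.1 b.2) p.1.1 p.1.2 p.2) := by
    fun_prop
  have htr : PolyTime (fun a => trunc (locB (tup (P a) (n a) (q a)) (E a)) (P a) (n a)) :=
    trunc_comp (loc := fun b : (List (List ℕ)) × (List (List Bool)) => locB b.1 b.2)
      (b := fun a => (tup (P a) (n a) (q a), E a)) (P := P) (n := n) hloc
      (by fun_prop) hP hn
  unfold feasH
  fun_prop

end Pool.Agent.Helper81.VCP
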