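import Mathlib
import Pool.Agent.Helper68.PT.Ext2
import Pool.Agent.Helper81.VCP.Defs
import Pool.Agent.Helper81.VCP.PT1a
import Pool.Agent.Helper81.VCP.PT1b
import Pool.Agent.Helper81.VCP.PT1c
import Pool.Agent.Helper81.VCP.PT2a

/-!
# VCP-PT2c: polynomial time of the direct computation (PT library, PT1a-c, PT2a as black boxes;
60-100 lines)

The PT library (`Pool.Agent.Helper68.PT.Core`, `Ext`, `Ext2`; see the docs at the head of `Core.lean`)
proves `PolyTime f` by `fun_prop` for compositions of its functions; a local function of several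
variables is made available by `have h := @PolyTime.unc1 _ _ _ _ _ _ _ hf` (or `unc2`).
* `locG`, `extG`: compositions of `List.all`, `List.any`, `decide`, ... (`decide (w.map Prod.fst = t)`:
  `PolyTime.pEq`, `InjEnc (List ℕ)`).
* `feasG`, `direct`: `trunc_comp`, `cand_comp` with the parameter `b = ((X, W), (n, E))`,
  `loc b = locG b.1.1 b.1.2 b.2.1 b.2.2`, at `X = tup P n q`, `W = prs P n E q`.
-/

set_option autoImplicit false

namespace Pool.Agent.Helper81.VCP

open Pool.Agent.Helper36.PT

variable {α : Type} [Enc α]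

private theorem extG_pt {W : α → List (List (ℕ × List Bool))} {n i : α → ℕ}
    {E : α → List (List Bool)} {T : α → List Bool} {t : α → List ℕ} (hW : PolyTime W)
    (hn : PolyTime n) (hE : PolyTime E) (hi : PolyTime i) (hT : PolyTime T) (ht : PolyTime t) :
    PolyTime (fun a => extG (W a) (n a) (E a) (i a) (T a) (t a)) := by
  unfold extG
  fun_prop

@[fun_prop]
theorem locG_pt {X : α → List (List ℕ)} {W : α → List (List (ℕ × List Bool))} {n i : α → ℕ}
    {E : α → List (List Bool)} {T : α → List Bool} (hX : PolyTime X) (hW : PolyTime W)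
    (hn : PolyTime n) (hE : PolyTime E) (hi : PolyTime i) (hT : PolyTime T) :
    PolyTime (fun a => locG (X a) (W a) (n a) (E a) (i a) (T a)) := by
  unfold locG
  have h : PolyTime (fun p : α × List ℕ => extG (W p.1) (n p.1) (E p.1) (i p.1) (T p.1) p.2) :=
    extG_pt (hW.comp PolyTime.fst) (hn.comp PolyTime.fst) (hE.comp PolyTime.fst)
      (hi.comp PolyTime.fst) (hT.comp PolyTime.fst) PolyTime.snd
  fun_prop

private theorem locG_param : PolyTime (fun p : (((List (List ℕ) × List (List (ℕ × List Bool))) ×
    (ℕ × List (List Bool))) × ℕ) × List Bool =>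
      (fun b : (List (List ℕ) × List (List (ℕ × List Bool))) × (ℕ × List (List Bool)) =>
        locG b.1.1 b.1.2 b.2.1 b.2.2) p.1.1 p.1.2 p.2) := by
  fun_prop

@[fun_prop]
theorem feasG_pt {P n : α → ℕ} {E : α → List (List Bool)} {q : α → ℕ} (hP : PolyTime P)
    (hn : PolyTime n) (hE : PolyTime E) (hq : PolyTime q) :
    PolyTime (fun a => feasG (P a) (n a) (E a) (q a)) := by
  unfold feasG
  have h : PolyTime (fun a => trunc (locG (tup (P a) (n a) (q a)) (prs (P a) (n a) (E a) (q a))
      (n a) (E a)) (P a) (n a)) :=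
    trunc_comp (loc := fun b : (List (List ℕ) × List (List (ℕ × List Bool))) ×
      (ℕ × List (List Bool)) => locG b.1.1 b.1.2 b.2.1 b.2.2)
      (b := fun a => ((tup (P a) (n a) (q a), prs (P a) (n a) (E a) (q a)), (n a, E a)))
      locG_param (by fun_prop) hP hn
  fun_prop

@[fun_prop]
theorem direct_pt {P n : α → ℕ} {E : α → List (List Bool)} {q : α → ℕ} (hP : PolyTime P)
    (hn : PolyTime n) (hE : PolyTime E) (hq : PolyTime q) :
    PolyTime (fun a => direct (P a) (n a) (E a) (q a)) := by
  unfold direct
  have h : PolyTime (fun a => cand (locG (tup (P a) (n a) (q a)) (prs (P a) (n a) (E a) (q a))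
      (n a) (E a)) (P a) (n a)) :=
    cand_comp (loc := fun b : (List (List ℕ) × List (List (ℕ × List Bool))) ×
      (ℕ × List (List Bool)) => locG b.1.1 b.1.2 b.2.1 b.2.2)
      (b := fun a => ((tup (P a) (n a) (q a), prs (P a) (n a) (E a) (q a)), (n a, E a)))
      locG_param (by fun_prop) hP hn
  fun_prop

end Pool.Agent.Helper81.VCP
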