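import Mathlib
import Pool.Agent.Helper68.PT.Ext2
import Pool.Agent.Helper81.VCP.Defs
import Pool.Agent.Helper81.VCP.PT1a
import Pool.Agent.Helper81.VCP.PT1b
import Pool.Agent.Helper81.VCP.PT2a
import Pool.Agent.Helper81.VCP.PT2b
import Pool.Agent.Helper81.VCP.PT2c

/-!
# VCP-PT3: polynomial time of the loop body, of the input and of the output (PT library, PT1a - PT2c as
black boxes; 50-90 lines)

* `initS`: `parseN` is `PT.mu` (`PolyTime.mu'`), the rest by `fun_prop` (`div` is in the library).
* `stepS`: nested case distinctions on `Option`s: `PolyTime.optCases` (three times; the first on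
  `(List.range P).find? (feasG ..)`, `PolyTime.find`), with `fun_prop` for the parts; all the functions of
  the state `s : State = (ℕ × List (List Bool)) × (List (List Bool) × (ℕ × Bool))` are projections
  composed with functions of PT1a - PT2c.
* `outS`: `PolyTime.listToWord'`, `flatMap`, `append`.
-/

set_option autoImplicit false

namespace Pool.Agent.Helper81.VCP

open Pool.Agent.Helper36.PT

@[fun_prop]
private theorem parseN_pt {α : Type} [Enc α] {f : α → List Bool} (hf : PolyTime f) :
    PolyTime (fun a => parseN (f a)) := by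
  unfold parseN
  fun_prop

theorem initS_pt : PolyTime initS := by
  unfold initS parse
  fun_prop

private def stepN (s : State) (q : ℕ) : State :=
  match next (tup s.2.2.1 s.1.1 q) (prs s.2.2.1 s.1.1 s.2.1 q) s.2.2.1 s.1.1 s.1.2 s.2.1 with
  | none => (s.1, (s.2.1, (s.2.2.1, true)))
  | some v => (s.1, (s.2.1 ++ [v], (s.2.2.1, false)))

private theorem stepN_pt : PolyTime (fun p : State × ℕ => stepN p.1 p.2) := by
  have h := PolyTime.optCases (o := fun p : State × ℕ =>
      next (tup p.1.2.2.1 p.1.1.1 p.2) (prs p.1.2.2.1 p.1.1.1 p.1.2.1 p.2) p.1.2.2.1 p.1.1.1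
        p.1.1.2 p.1.2.1)
    (f := fun p : State × ℕ => ((p.1.1, (p.1.2.1, (p.1.2.2.1, true))) : State))
    (g := fun (p : State × ℕ) v => ((p.1.1, (p.1.2.1 ++ [v], (p.1.2.2.1, false))) : State))
    (by fun_prop) (by fun_prop) (by fun_prop)
  refine h.congr fun p => ?_
  unfold stepN
  generalize next (tup p.1.2.2.1 p.1.1.1 p.2) (prs p.1.2.2.1 p.1.1.1 p.1.2.1 p.2) p.1.2.2.1 p.1.1.1
        p.1.1.2 p.1.2.1 = o
  cases o with
  | none => rfl
  | some v => rfl

private def stepH (s : State) : State :=
  match (List.range s.2.2.1).find? (feasH s.2.2.1 s.1.1 s.1.2 s.2.1) with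
  | none => (s.1, (s.2.1, ((s.2.2.1 + 2) * (s.2.2.1 + 2), false)))
  | some q => stepN s q

private theorem stepH_pt : PolyTime stepH := by
  have h := PolyTime.optCases (o := fun s : State =>
      (List.range s.2.2.1).find? (feasH s.2.2.1 s.1.1 s.1.2 s.2.1))
    (f := fun s : State => ((s.1, (s.2.1, ((s.2.2.1 + 2) * (s.2.2.1 + 2), false))) : State))
    (g := fun (s : State) (q : ℕ) => stepN s q)
    (by fun_prop) (by fun_prop) stepN_pt
  refine h.congr fun s => ?_
  unfold stepH
  generalize (List.range s.2.2.1).find? (feasH s.2.2.1 s.1.1 s.1.2 s.2.1) = o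
  cases o with
  | none => rfl
  | some v => rfl

theorem stepS_pt : PolyTime stepS := by
  have h := PolyTime.optCases (o := fun s : State =>
      (List.range s.2.2.1).find? (feasG s.2.2.1 s.1.1 s.1.2))
    (f := stepH)
    (g := fun (s : State) (q : ℕ) =>
      ((s.1, (direct s.2.2.1 s.1.1 s.1.2 q, (s.2.2.1, true))) : State))
    (by fun_prop) stepH_pt (by fun_prop)
  refine h.congr fun s => ?_
  unfold stepS stepH stepN
  generalize (List.range s.2.2.1).find? (feasG s.2.2.1 s.1.1 s.1.2) = o
  cases o with
  | some q => rfl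
  | none =>
    generalize (List.range s.2.2.1).find? (feasH s.2.2.1 s.1.1 s.1.2 s.2.1) = o'
    cases o' with
    | none => rfl
    | some q =>
      simp only
      generalize next (tup s.2.2.1 s.1.1 q) (prs s.2.2.1 s.1.1 s.2.1 q) s.2.2.1 s.1.1 s.1.2 s.2.1
        = o''
      cases o'' with
      | none => rfl
      | some v => rfl

theorem doneS_pt : PolyTime doneS := by
  unfold doneS
  fun_prop

theorem outS_pt : PolyTime outS := by
  unfold outS
  fun_prop

end Pool.Agent.Helper81.VCP
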