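import Mathlib
import Pool.Agent.Helper81.VCP.Defs

/-!
# VCP-K4: the lists of tuples and of pairs (Mathlib only; 60-100 lines)

`tup P n (q+1) = (tup P n q ++ (tup P n q).flatMap ...).take (P+1)`, so `tup P n q` is a prefix of
`tup P n (q+1)` unless it has more than `P + 1` elements (it never has more), and if
`(tup P n (q+1)).length ≤ P` then nothing was cut (`List.take` of a list with more than `P` elements
has `P + 1` elements) and `(tup P n q).length ≤ P`. Induction on `q` gives `mem_tup`:
lists of length `≤ q + 1` with entries `< n` = lists of length `≤ q` and lists `j :: t`, `j < n`,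
`t` of length `≤ q`. The bounds on the lengths: without cut the length is multiplied by `1 + n`
(resp. `1 + n * |L|`) in each step: `List.length_flatMap`, `List.length_take`; note `P + 1 ≥ 1`.
The same for `prs`.
-/

set_option autoImplicit false

namespace Pool.Agent.Helper81.VCP

/-- If the truncated list has at most `P` elements then nothing was cut. -/
private theorem take_eq {α : Type} {P : ℕ} {M : List α} (h : (M.take (P + 1)).length ≤ P) :
    M.take (P + 1) = M := by
  rw [List.length_take] at h
  exact List.take_of_length_le (by omega)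

private theorem length_flatMap_const {α β : Type} (L : List α) (f : α → List β) (c : ℕ)
    (h : ∀ a, (f a).length = c) : (L.flatMap f).length = L.length * c := by
  induction L with
  | nil => simp
  | cons a L ih =>
    rw [List.flatMap_cons, List.length_append, ih, h, List.length_cons]
    ring

private theorem tup_succ (P n q : ℕ) : tup P n (q + 1) = (tup P n q ++
    (tup P n q).flatMap (fun t => (List.range n).map (fun j => j :: t))).take (P + 1) := rfl

private theorem prs_succ (P n : ℕ) (L : List (List Bool)) (q : ℕ) :
    prs P n L (q + 1) = (prs P n L q ++ (prs P n L q).flatMap (fun w =>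
      (List.range n).flatMap (fun j => L.map (fun B => (j, B) :: w)))).take (P + 1) := rfl

private theorem mem_tup_succ {P n q : ℕ} (h : (tup P n (q + 1)).length ≤ P) :
    (tup P n q).length ≤ P ∧ ∀ t : List ℕ, t ∈ tup P n (q + 1) ↔
      t ∈ tup P n q ∨ ∃ s ∈ tup P n q, ∃ j < n, t = j :: s := by
  have h1 : tup P n (q + 1) = tup P n q ++
      (tup P n q).flatMap (fun t => (List.range n).map (fun j => j :: t)) := by
    rw [tup_succ] at h ⊢
    exact take_eq h
  constructor
  · rw [h1, List.length_append] at h
    omega
  · intro t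
    rw [h1, List.mem_append, List.mem_flatMap]
    simp only [List.mem_map, List.mem_range]
    constructor
    · rintro (h2 | ⟨s, hs, j, hj, rfl⟩)
      · exact Or.inl h2
      · exact Or.inr ⟨s, hs, j, hj, rfl⟩
    · rintro (h2 | ⟨s, hs, j, hj, rfl⟩)
      · exact Or.inl h2
      · exact Or.inr ⟨s, hs, j, hj, rfl⟩

theorem mem_tup (P n q : ℕ) (h : (tup P n q).length ≤ P) (t : List ℕ) :
    t ∈ tup P n q ↔ t.length ≤ q ∧ ∀ j ∈ t, j < n := by
  induction q generalizing t with
  | zero =>
    unfold tup
    rw [List.mem_singleton]
    constructor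
    · rintro rfl
      exact ⟨le_refl _, fun j hj => absurd hj List.not_mem_nil⟩
    · rintro ⟨h1, -⟩
      exact List.length_eq_zero_iff.1 (Nat.le_zero.1 h1)
  | succ q ih =>
    obtain ⟨h1, h2⟩ := mem_tup_succ h
    rw [h2 t, ih h1]
    constructor
    · rintro (⟨h3, h4⟩ | ⟨s, hs, j, hj, rfl⟩)
      · exact ⟨by omega, h4⟩
      · obtain ⟨h3, h4⟩ := (ih h1 s).1 hs
        refine ⟨by rw [List.length_cons]; omega, fun i hi => ?_⟩
        rcases List.mem_cons.1 hi with rfl | hi
        · exact hj
        · exact h4 i hi
    · rintro ⟨h3, h4⟩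
      cases t with
      | nil => exact Or.inl ⟨Nat.zero_le _, h4⟩
      | cons j s =>
        right
        refine ⟨s, (ih h1 s).2 ⟨?_, fun i hi => h4 i (List.mem_cons_of_mem _ hi)⟩, j,
          h4 j List.mem_cons_self, rfl⟩
        rw [List.length_cons] at h3
        omega

theorem length_tup_le (P n q : ℕ) : (tup P n q).length ≤ (n + 1) ^ q := by
  induction q with
  | zero => simp [tup]
  | succ q ih =>
    have h1 : (tup P n (q + 1)).length ≤ (tup P n q).length * (n + 1) := by
      rw [tup_succ, List.length_take]
      refine (min_le_right _ _).trans ?_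
      rw [List.length_append, length_flatMap_const _ _ n (fun t => by simp)]
      exact le_of_eq (by ring)
    calc (tup P n (q + 1)).length ≤ (tup P n q).length * (n + 1) := h1
      _ ≤ (n + 1) ^ q * (n + 1) := Nat.mul_le_mul_right _ ih
      _ = (n + 1) ^ (q + 1) := (pow_succ _ _).symm

private theorem mem_prs_succ {P n q : ℕ} {L : List (List Bool)}
    (h : (prs P n L (q + 1)).length ≤ P) :
    (prs P n L q).length ≤ P ∧ ∀ w : List (ℕ × List Bool), w ∈ prs P n L (q + 1) ↔
      w ∈ prs P n L q ∨ ∃ s ∈ prs P n L q, ∃ j < n, ∃ B ∈ L, w = (j, B) :: s := by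
  have h1 : prs P n L (q + 1) = prs P n L q ++ (prs P n L q).flatMap (fun w =>
      (List.range n).flatMap (fun j => L.map (fun B => (j, B) :: w))) := by
    rw [prs_succ] at h ⊢
    exact take_eq h
  constructor
  · rw [h1, List.length_append] at h
    omega
  · intro w
    rw [h1, List.mem_append, List.mem_flatMap]
    simp only [List.mem_flatMap, List.mem_map, List.mem_range]
    constructor
    · rintro (h2 | ⟨s, hs, j, hj, B, hB, rfl⟩)
      · exact Or.inl h2
      · exact Or.inr ⟨s, hs, j, hj, B, hB, rfl⟩
    · rintro (h2 | ⟨s, hs, j, hj, B, hB, rfl⟩)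
      · exact Or.inl h2
      · exact Or.inr ⟨s, hs, j, hj, B, hB, rfl⟩

theorem mem_prs (P n : ℕ) (L : List (List Bool)) (q : ℕ) (h : (prs P n L q).length ≤ P)
    (w : List (ℕ × List Bool)) :
    w ∈ prs P n L q ↔ w.length ≤ q ∧ ∀ p ∈ w, p.1 < n ∧ p.2 ∈ L := by
  induction q generalizing w with
  | zero =>
    unfold prs
    rw [List.mem_singleton]
    constructor
    · rintro rfl
      exact ⟨le_refl _, fun j hj => absurd hj List.not_mem_nil⟩
    · rintro ⟨h1, -⟩
      exact List.length_eq_zero_iff.1 (Nat.le_zero.1 h1)
  | succ q ih =>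
    obtain ⟨h1, h2⟩ := mem_prs_succ h
    rw [h2 w, ih h1]
    constructor
    · rintro (⟨h3, h4⟩ | ⟨s, hs, j, hj, B, hB, rfl⟩)
      · exact ⟨by omega, h4⟩
      · obtain ⟨h3, h4⟩ := (ih h1 s).1 hs
        refine ⟨by rw [List.length_cons]; omega, fun i hi => ?_⟩
        rcases List.mem_cons.1 hi with rfl | hi
        · exact ⟨hj, hB⟩
        · exact h4 i hi
    · rintro ⟨h3, h4⟩
      cases w with
      | nil => exact Or.inl ⟨Nat.zero_le _, h4⟩
      | cons a s =>
        right
        obtain ⟨h5, h6⟩ := h4 a List.mem_cons_self
        refine ⟨s, (ih h1 s).2 ⟨?_, fun i hi => h4 i (List.mem_cons_of_mem _ hi)⟩, a.1, h5, a.2,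
          h6, rfl⟩
        rw [List.length_cons] at h3
        omega

theorem length_prs_le (P n : ℕ) (L : List (List Bool)) (q : ℕ) :
    (prs P n L q).length ≤ (n * L.length + 1) ^ q := by
  induction q with
  | zero => simp [prs]
  | succ q ih =>
    have h1 : (prs P n L (q + 1)).length ≤ (prs P n L q).length * (n * L.length + 1) := by
      rw [prs_succ, List.length_take]
      refine (min_le_right _ _).trans ?_
      rw [List.length_append, length_flatMap_const _ _ (n * L.length) (fun w => by
        rw [length_flatMap_const _ _ L.length (fun j => by rw [List.length_map]),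
          List.length_range])]
      exact le_of_eq (by ring)
    calc (prs P n L (q + 1)).length ≤ (prs P n L q).length * (n * L.length + 1) := h1
      _ ≤ (n * L.length + 1) ^ q * (n * L.length + 1) := Nat.mul_le_mul_right _ ih
      _ = (n * L.length + 1) ^ (q + 1) := (pow_succ _ _).symm

end Pool.Agent.Helper81.VCP
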