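import Mathlib
import Pool.Agent.Helper81.VCP.Defs

/-!
# VCP-K2: the completeness argument (Mathlib only; 60-100 lines)

`H`, `L` are cross-intersecting. A set `Z` is good if it meets all `A ∈ H` and contains no `B ∈ L`. If
none of the candidates `(V_i - T) ∪ ⋃_{x ∈ T₀} (b x - x)` is good, there is no good set.

PROOF. Let `Z'` be good. `univ \ Z'` meets all `B ∈ L`. Let `A' ⊆ univ \ Z'` be minimal (for inclusion)
among the sets meeting all `B ∈ L` (finite; e.g. `Finset.exists_le_minimal` or well-foundedness). For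
every `x ∈ A'` there is a private `B ∈ L` with `B ∩ A' = {x}` (otherwise `A' - x` meets all of `L`).
CLAIM: `Loc q H i (A' ∩ V_i)` for all `i ≤ n`, by induction on `i`. Let `T = A' ∩ V_i`; for `i ≥ 1`,
`T ∩ V_(i-1) = A' ∩ V_(i-1)` satisfies `Loc q H (i-1)` by induction. Suppose `Loc q H i T` fails:
`T₀ ⊆ T`, `T₀.card ≤ q`, such that no `A ∈ H` has `T₀ ⊆ A` and `A ∩ V_i ⊆ T`. Choose `b x ∈ L` private for
`x ∈ T₀` (arbitrary, e.g. `∅`, for other `x`), and `Z = (V_i \ T) ∪ ⋃_{x ∈ T₀} (b x).erase x`. `Z` is disjoint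
from `A'`: `V_i \ T` is, and `(b x).erase x` is, as `b x ∩ A' = {x}`. `Z` is good: no `B ∈ L` is contained
in `Z`, since `B ∩ A' ≠ ∅`; if `A ∈ H` and `A ∩ Z = ∅`, then for `x ∈ T₀` the nonempty set `A ∩ b x` is
contained in `{x}`, so `x ∈ A`; so `T₀ ⊆ A`, and `A ∩ V_i ⊆ T`, contradicting the choice of `T₀`. This
contradicts `hnone`.
For `i = n` (`V_n = univ`, `T = A'`): the candidate with `T₀ = ∅` is `Z = univ \ A'`. It is good: `B ∈ L`
meets `A'`; if `A ∈ H` had `A ∩ Z = ∅` then `A ⊆ A'`, so `A ∩ Z' = ∅`, contradicting that `Z'` is good.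
This contradicts `hnone n`, whose premise holds by the claim for `n - 1` (or `n = 0`).
-/

set_option autoImplicit false

namespace Pool.Agent.Helper81.VCP

/-- `Z` meets all members of `H` and contains no member of `L`. -/
def GoodS {n : ℕ} (H L : Finset (Finset (Fin n))) (Z : Finset (Fin n)) : Prop :=
  (∀ A ∈ H, (A ∩ Z).Nonempty) ∧ ∀ B ∈ L, ¬ B ⊆ Z

theorem core {n : ℕ} (q : ℕ) (H L : Finset (Finset (Fin n)))
    (hcross : ∀ A ∈ H, ∀ B ∈ L, (A ∩ B).Nonempty)
    (hnone : ∀ i ≤ n, ∀ T ⊆ VI n i, (i = 0 ∨ Loc q H (i - 1) (T ∩ VI n (i - 1))) →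
      ∀ T₀ ⊆ T, T₀.card ≤ q → ∀ b : Fin n → Finset (Fin n), (∀ x ∈ T₀, b x ∈ L) →
        ¬ GoodS H L ((VI n i \ T) ∪ T₀.biUnion (fun x => (b x).erase x))) :
    ∀ Z, ¬ GoodS H L Z := by
  classical
  intro Z' hZ'
  obtain ⟨hZ1, hZ2⟩ := hZ'
  -- a minimal transversal of `L` disjoint from `Z'`
  obtain ⟨A', hA'le, hA'min⟩ := exists_minimal_le_of_wellFoundedLT
    (fun S : Finset (Fin n) => ∀ B ∈ L, (B ∩ S).Nonempty) (Finset.univ \ Z') (by
      intro B hB
      have h1 := hZ2 B hB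
      rw [Finset.not_subset] at h1
      obtain ⟨x, hx, hx'⟩ := h1
      exact ⟨x, Finset.mem_inter.2 ⟨hx, Finset.mem_sdiff.2 ⟨Finset.mem_univ x, hx'⟩⟩⟩)
  have hhit : ∀ B ∈ L, (B ∩ A').Nonempty := hA'min.prop
  have hpriv : ∀ x ∈ A', ∃ B ∈ L, B ∩ A' = {x} := by
    intro x hx
    by_contra hcon
    have h1 : ∀ B ∈ L, (B ∩ A'.erase x).Nonempty := by
      intro B hB
      by_contra hne
      rw [Finset.not_nonempty_iff_eq_empty] at hne
      apply hcon
      refine ⟨B, hB, ?_⟩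
      obtain ⟨y, hy⟩ := hhit B hB
      have hsub : ∀ z ∈ B ∩ A', z = x := by
        intro z hz
        by_contra hzx
        have : z ∈ B ∩ A'.erase x := by
          rw [Finset.mem_inter] at hz ⊢
          exact ⟨hz.1, Finset.mem_erase.2 ⟨hzx, hz.2⟩⟩
        rw [hne] at this
        exact absurd this (Finset.notMem_empty z)
      ext z
      rw [Finset.mem_singleton]
      constructor
      · exact hsub z
      · intro hzx
        rw [hzx, ← hsub y hy]
        exact hy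
    have h2 := hA'min.le_of_le h1 (Finset.erase_subset x A')
    exact absurd (h2 hx) (Finset.notMem_erase x A')
  choose! b hbL hbx using hpriv
  have hdis : ∀ i, ∀ T₀ ⊆ A' ∩ VI n i, ∀ y ∈ A',
      y ∉ (VI n i \ (A' ∩ VI n i)) ∪ T₀.biUnion (fun x => (b x).erase x) := by
    intro i T₀ hT₀ y hy hmem
    rw [Finset.mem_union] at hmem
    rcases hmem with h1 | h1
    · rw [Finset.mem_sdiff, Finset.mem_inter] at h1
      exact h1.2 ⟨hy, h1.1⟩
    · rw [Finset.mem_biUnion] at h1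
      obtain ⟨x, hx, hyx⟩ := h1
      rw [Finset.mem_erase] at hyx
      have hxA : x ∈ A' := (Finset.mem_inter.1 (hT₀ hx)).1
      have h2 : y ∈ b x ∩ A' := Finset.mem_inter.2 ⟨hyx.2, hy⟩
      rw [hbx x hxA, Finset.mem_singleton] at h2
      exact hyx.1 h2
  have hLpart : ∀ i, ∀ T₀ ⊆ A' ∩ VI n i, ∀ B ∈ L,
      ¬ B ⊆ (VI n i \ (A' ∩ VI n i)) ∪ T₀.biUnion (fun x => (b x).erase x) := by
    intro i T₀ hT₀ B hB hsub
    obtain ⟨y, hy⟩ := hhit B hB
    rw [Finset.mem_inter] at hy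
    exact hdis i T₀ hT₀ y hy.2 (hsub hy.1)
  have hstep : ∀ i ≤ n, (i = 0 ∨ Loc q H (i - 1) ((A' ∩ VI n i) ∩ VI n (i - 1))) →
      Loc q H i (A' ∩ VI n i) := by
    intro i hi hprev T₀ hT₀ hcard
    have h1 := hnone i hi (A' ∩ VI n i) Finset.inter_subset_right hprev T₀ hT₀ hcard b
      (fun x hx => hbL x (Finset.mem_inter.1 (hT₀ hx)).1)
    have h2 : ¬ ∀ A ∈ H, (A ∩ ((VI n i \ (A' ∩ VI n i)) ∪
        T₀.biUnion (fun x => (b x).erase x))).Nonempty :=
      fun h => h1 ⟨h, hLpart i T₀ hT₀⟩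
    push Not at h2
    obtain ⟨A, hA, hAe⟩ := h2
    have hnot : ∀ y ∈ A, y ∉ (VI n i \ (A' ∩ VI n i)) ∪
        T₀.biUnion (fun x => (b x).erase x) := by
      intro y hy hy'
      have : y ∈ A ∩ ((VI n i \ (A' ∩ VI n i)) ∪ T₀.biUnion (fun x => (b x).erase x)) :=
        Finset.mem_inter.2 ⟨hy, hy'⟩
      rw [hAe] at this
      exact absurd this (Finset.notMem_empty y)
    refine ⟨A, hA, ?_, ?_⟩
    · intro x hx
      have hxA : x ∈ A' := (Finset.mem_inter.1 (hT₀ hx)).1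
      obtain ⟨y, hy⟩ := hcross A hA (b x) (hbL x hxA)
      rw [Finset.mem_inter] at hy
      by_cases hyx : y = x
      · rw [← hyx]
        exact hy.1
      · exfalso
        apply hnot y hy.1
        rw [Finset.mem_union]
        right
        rw [Finset.mem_biUnion]
        exact ⟨x, hx, Finset.mem_erase.2 ⟨hyx, hy.2⟩⟩
    · intro j hj
      rw [Finset.mem_inter] at hj
      by_contra hjT
      apply hnot j hj.1
      rw [Finset.mem_union]
      left
      exact Finset.mem_sdiff.2 ⟨hj.2, hjT⟩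
  have hVmono : ∀ i, VI n i ⊆ VI n (i + 1) := by
    intro i j hj
    unfold VI at hj ⊢
    rw [Finset.mem_filter] at hj ⊢
    exact ⟨hj.1, by omega⟩
  have hinter : ∀ i, (A' ∩ VI n (i + 1)) ∩ VI n i = A' ∩ VI n i := by
    intro i
    rw [Finset.inter_assoc, Finset.inter_eq_right.2 (hVmono i)]
  have hclaim : ∀ i, i ≤ n → Loc q H i (A' ∩ VI n i) := by
    intro i
    induction i with
    | zero =>
      intro hi
      exact hstep 0 hi (Or.inl rfl)
    | succ i ih =>
      intro hi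
      apply hstep (i + 1) hi
      right
      rw [Nat.add_sub_cancel, hinter]
      exact ih (by omega)
  have hprem : n = 0 ∨ Loc q H (n - 1) ((A' ∩ VI n n) ∩ VI n (n - 1)) := by
    rcases Nat.eq_zero_or_pos n with h0 | h0
    · exact Or.inl h0
    · right
      have h1 := hclaim (n - 1) (by omega)
      have h2 := hinter (n - 1)
      rw [show n - 1 + 1 = n by omega] at h2
      rw [h2]
      exact h1
  have hfin := hnone n le_rfl (A' ∩ VI n n) Finset.inter_subset_right hprem ∅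
    (Finset.empty_subset _) (by simp) b (by simp)
  apply hfin
  refine ⟨?_, hLpart n ∅ (Finset.empty_subset _)⟩
  intro A hA
  obtain ⟨y, hy⟩ := hZ1 A hA
  rw [Finset.mem_inter] at hy
  refine ⟨y, Finset.mem_inter.2 ⟨hy.1, ?_⟩⟩
  rw [Finset.mem_union]
  left
  rw [Finset.mem_sdiff, Finset.mem_inter]
  refine ⟨?_, ?_⟩
  · unfold VI
    rw [Finset.mem_filter]
    exact ⟨Finset.mem_univ y, y.2⟩
  · intro h
    have h1 := hA'le h.1
    exact (Finset.mem_sdiff.1 h1).2 hy.2

end Pool.Agent.Helper81.VCP
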