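import Mathlib
import Pool.Agent.Helper81.VCD.Sauer
import Pool.Agent.Helper81.VCP.Defs

/-!
# VCP-K1: local closure keeps the VC-dimension (Mathlib + VCD.Sauer; 30-50 lines)

`vcDim_loc`. PROOF: suppose `𝒯` shatters `S`; we show `S.card ≤ d`. Otherwise take `S' ⊆ S` with
`d + 1` elements; `𝒯` shatters `S'` (`Shatters.mono_right`), and we show that `H` shatters `S'`, a
contradiction (`Shatters.card_le_vcDim`). Let `P ⊆ S'`. Some `T ∈ 𝒯` has `S' ∩ T = P`. Apply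
`Loc q H i T` to `T₀ = P ⊆ T`, `P.card ≤ d + 1 ≤ q`: some `A ∈ H` has `P ⊆ A` and `A ∩ V_i ⊆ T`.
`S' ⊆ V_i` (`S'` is contained in a member of `𝒯`, `Shatters.exists_superset`), so
`S' ∩ A = P`: `⊇` clear; if `x ∈ S' ∩ A` then `x ∈ A ∩ V_i ⊆ T`, so `x ∈ S' ∩ T = P`.
(`Finset.vcDim` is a `sup` of cards over `shatterer`: `Finset.sup_le`, `mem_shatterer`.)

`card_loc_le`: `card_trace_le 𝒯 Finset.univ d` of `Pool.Agent.Helper81.VCD.Sauer`
(`𝒯.image (· ∩ univ) = 𝒯`, `Finset.card_fin`).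
-/

set_option autoImplicit false

namespace Pool.Agent.Helper81.VCP

theorem vcDim_loc {n : ℕ} (q d i : ℕ) (H : Finset (Finset (Fin n))) (hH : H.vcDim ≤ d) (hq : d < q)
    (𝒯 : Finset (Finset (Fin n))) (h𝒯 : ∀ T ∈ 𝒯, T ⊆ VI n i ∧ Loc q H i T) : 𝒯.vcDim ≤ d := by
  unfold Finset.vcDim
  refine Finset.sup_le fun S hS => ?_
  rw [Finset.mem_shatterer] at hS
  by_contra hcon
  rw [not_le] at hcon
  obtain ⟨S', hS'S, hS'c⟩ := Finset.exists_subset_card_eq (s := S) (n := d + 1) hcon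
  have hsh : 𝒯.Shatters S' := hS.mono_right hS'S
  obtain ⟨T1, hT1, hST1⟩ := hsh.exists_superset
  have hSV : S' ⊆ VI n i := hST1.trans (h𝒯 T1 hT1).1
  have hH' : H.Shatters S' := by
    intro P hP
    obtain ⟨T, hT, hTP⟩ := hsh hP
    have hPT : P ⊆ T := by
      rw [← hTP]
      exact Finset.inter_subset_right
    have hPc : P.card ≤ q := by
      have h1 := Finset.card_le_card hP
      omega
    obtain ⟨A, hA, hPA, hAT⟩ := (h𝒯 T hT).2 P hPT hPc
    refine ⟨A, hA, ?_⟩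
    apply Finset.Subset.antisymm
    · intro x hx
      obtain ⟨hx1, hx2⟩ := Finset.mem_inter.1 hx
      rw [← hTP]
      exact Finset.mem_inter.2 ⟨hx1, hAT (Finset.mem_inter.2 ⟨hx2, hSV hx1⟩)⟩
    · exact Finset.subset_inter hP hPA
  have h2 := hH'.card_le_vcDim
  omega

theorem card_loc_le {n : ℕ} (q d i : ℕ) (H : Finset (Finset (Fin n))) (hH : H.vcDim ≤ d)
    (hq : d < q) (𝒯 : Finset (Finset (Fin n))) (h𝒯 : ∀ T ∈ 𝒯, T ⊆ VI n i ∧ Loc q H i T) :
    𝒯.card ≤ (n + 1) ^ d := by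
  have h1 := Pool.Agent.Helper81.VCD.card_trace_le 𝒯 Finset.univ d (vcDim_loc q d i H hH hq 𝒯 h𝒯)
  have h2 : 𝒯.image (fun A => A ∩ Finset.univ) = 𝒯 := by
    have h3 : (fun A : Finset (Fin n) => A ∩ Finset.univ) = id := by
      funext A
      exact Finset.inter_univ A
    rw [h3, Finset.image_id]
  rw [h2, Finset.card_univ, Fintype.card_fin] at h1
  exact h1

end Pool.Agent.Helper81.VCP
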