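import Mathlib
import Pool.Agent.Helper81.VCP.Defs
import Pool.Agent.Helper81.VCP.K1
import Pool.Agent.Helper81.VCP.K3
import Pool.Agent.Helper81.VCP.K4
import Pool.Agent.Helper81.VCP.K5

/-!
# VCP-K6: the local test with respect to `E`, and its feasibility (uses K1, K3, K4, K5; 80-120 lines)

* `locB_iff`: `t ∈ tup P n q` are exactly the lists of length `≤ q` with entries `< n` (`mem_tup`);
  the sets of their elements are exactly the subsets of `Fin n` with at most `q` elements (given `T₀`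
  use `t = T₀.toList.map Fin.val`; given `t` use `T₀ = univ.filter (fun j => (j : ℕ) ∈ t)`, card
  `≤ t.length`). `mem (pre i T) j` iff `j < i` and `j ∈ T` (`mem_pre`), so `t` passes
  `t.all (mem (pre i T))` iff `T₀ ⊆ T ∩ V_i`; and the inner condition for `A = vec A'` says
  `T₀ ⊆ A'` and `A' ∩ V_i ⊆ T ∩ V_i`.
* `loc_mono`: from `T₀ ⊆ T ∩ V_j ⊆ T ∩ V_i` get `A` with `A ∩ V_i ⊆ T ∩ V_i`, so `A ∩ V_j ⊆ T ∩ V_j`.
* `feasH_of_vc`: lengths by `length_tup_le`, `length_prs_le` (`(L.map vec).length = L.length`), and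
  `not_trunc`: a family `𝒯` of sets `T ⊆ V_i` with `locB .. i (pre i T)` satisfies
  `Loc (v+1) E.toFinset i T` (`locB_iff`, `T ∩ V_i = T`), so `card_loc_le` gives
  `𝒯.card ≤ (n+1)^v ≤ (n+1)^(v+1) ≤ P`.
-/

set_option autoImplicit false

namespace Pool.Agent.Helper81.VCP

variable {n : ℕ}

private lemma mem_VI (i : ℕ) (x : Fin n) : x ∈ VI n i ↔ (x : ℕ) < i := by
  simp [VI]

theorem locB_iff (P q : ℕ) (h : (tup P n q).length ≤ P) (E : List (Finset (Fin n))) (i : ℕ)
    (T : Finset (Fin n)) :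
    locB (tup P n q) (E.map vec) i (pre i T) = true ↔ Loc q E.toFinset i (T ∩ VI n i) := by
  classical
  have h1 : locB (tup P n q) (E.map vec) i (pre i T) = true ↔
      ∀ t ∈ tup P n q, (∀ j ∈ t, mem (pre i T) j = true) →
        ∃ A ∈ E, (∀ j ∈ t, mem (vec A) j = true) ∧
          ∀ j < i, mem (vec A) j = true → mem (pre i T) j = true := by
    unfold locB
    rw [List.all_eq_true]
    refine forall₂_congr fun t _ => ?_
    rw [Bool.or_eq_true, Bool.not_eq_true', ← Bool.not_eq_true, List.all_eq_true, List.any_eq_true]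
    rw [← imp_iff_not_or]
    refine imp_congr Iff.rfl ?_
    constructor
    · rintro ⟨A', hA', hc⟩
      obtain ⟨A, hA, rfl⟩ := List.mem_map.1 hA'
      rw [Bool.and_eq_true, List.all_eq_true, List.all_eq_true] at hc
      refine ⟨A, hA, hc.1, fun j hj hm => ?_⟩
      have h2 := hc.2 j (List.mem_range.2 hj)
      rw [hm] at h2
      simpa using h2
    · rintro ⟨A, hA, hc1, hc2⟩
      refine ⟨vec A, List.mem_map.2 ⟨A, hA, rfl⟩, ?_⟩
      rw [Bool.and_eq_true, List.all_eq_true, List.all_eq_true]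
      refine ⟨hc1, fun j hj => ?_⟩
      rcases hm : mem (vec A) j with _ | _
      · simp
      · rw [hc2 j (List.mem_range.1 hj) hm]
        simp
  rw [h1]
  constructor
  · intro H T₀ hT₀ hcard
    have ht : (T₀.toList.map (fun x : Fin n => (x : ℕ))) ∈ tup P n q := by
      rw [mem_tup P n q h]
      refine ⟨by rw [List.length_map, Finset.length_toList]; exact hcard, ?_⟩
      intro j hj
      obtain ⟨x, _, rfl⟩ := List.mem_map.1 hj
      exact x.2
    have hmem : ∀ j ∈ T₀.toList.map (fun x : Fin n => (x : ℕ)), mem (pre i T) j = true := by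
      intro j hj
      obtain ⟨x, hx, rfl⟩ := List.mem_map.1 hj
      have hx' := hT₀ (Finset.mem_toList.1 hx)
      rw [Finset.mem_inter, mem_VI] at hx'
      rw [mem_pre]
      exact ⟨hx'.2, x.2, hx'.1⟩
    obtain ⟨A, hA, hA1, hA2⟩ := H _ ht hmem
    refine ⟨A, List.mem_toFinset.2 hA, ?_, ?_⟩
    · intro x hx
      have h2 := hA1 (x : ℕ) (List.mem_map.2 ⟨x, Finset.mem_toList.2 hx, rfl⟩)
      exact (mem_vec_fin A x).1 h2
    · intro x hx
      rw [Finset.mem_inter, mem_VI] at hx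
      have h2 := hA2 (x : ℕ) hx.2 ((mem_vec_fin A x).2 hx.1)
      rw [mem_pre] at h2
      obtain ⟨_, _, h3⟩ := h2
      rw [Finset.mem_inter, mem_VI]
      exact ⟨h3, hx.2⟩
  · intro H t ht htm
    rw [mem_tup P n q h] at ht
    have hsub : Finset.univ.filter (fun j : Fin n => (j : ℕ) ∈ t) ⊆ T ∩ VI n i := by
      intro x hx
      have h2 := htm (x : ℕ) (Finset.mem_filter.1 hx).2
      rw [mem_pre] at h2
      obtain ⟨h4, _, h3⟩ := h2
      rw [Finset.mem_inter, mem_VI]
      exact ⟨h3, h4⟩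
    have hcard : (Finset.univ.filter (fun j : Fin n => (j : ℕ) ∈ t)).card ≤ q := by
      refine le_trans ?_ ht.1
      refine le_trans ?_ (List.toFinset_card_le t)
      rw [← Finset.card_map Fin.valEmbedding]
      refine Finset.card_le_card fun j hj => ?_
      obtain ⟨x, hx, rfl⟩ := Finset.mem_map.1 hj
      exact List.mem_toFinset.2 (Finset.mem_filter.1 hx).2
    obtain ⟨A, hA, hA1, hA2⟩ := H _ hsub hcard
    refine ⟨A, List.mem_toFinset.1 hA, ?_, ?_⟩
    · intro j hj
      have h2 := htm j hj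
      rw [mem_pre] at h2
      obtain ⟨_, hjn, _⟩ := h2
      rw [mem_vec]
      exact ⟨hjn, hA1 (Finset.mem_filter.2 ⟨Finset.mem_univ _, hj⟩)⟩
    · intro j hj hm
      rw [mem_vec] at hm
      obtain ⟨hjn, hm⟩ := hm
      have h2 : (⟨j, hjn⟩ : Fin n) ∈ T ∩ VI n i := hA2 (by
        rw [Finset.mem_inter, mem_VI]
        exact ⟨hm, hj⟩)
      rw [mem_pre]
      exact ⟨hj, hjn, (Finset.mem_inter.1 h2).1⟩

theorem loc_mono (q : ℕ) (H : Finset (Finset (Fin n))) (i j : ℕ) (hj : j ≤ i) (T : Finset (Fin n))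
    (h : Loc q H i (T ∩ VI n i)) : Loc q H j (T ∩ VI n j) := by
  intro T₀ hT₀ hc
  have hsub : T₀ ⊆ T ∩ VI n i := by
    intro x hx
    have h1 := hT₀ hx
    rw [Finset.mem_inter, mem_VI] at h1 ⊢
    exact ⟨h1.1, by omega⟩
  obtain ⟨A, hA, h1, h2⟩ := h T₀ hsub hc
  refine ⟨A, hA, h1, fun x hx => ?_⟩
  rw [Finset.mem_inter, mem_VI] at hx
  have h3 := h2 (by
    rw [Finset.mem_inter, mem_VI]
    exact ⟨hx.1, by omega⟩)
  rw [Finset.mem_inter] at h3
  rw [Finset.mem_inter, mem_VI]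
  exact ⟨h3.1, hx.2⟩

theorem feasH_of_vc (P v : ℕ) (E L : List (Finset (Fin n))) (hv : E.toFinset.vcDim ≤ v)
    (h1 : (n + 1) ^ (v + 1) ≤ P) (h2 : (n * L.length + 1) ^ (v + 1) ≤ P) :
    feasH P n (E.map vec) (L.map vec) (v + 1) = true := by
  have ht : (tup P n (v + 1)).length ≤ P := (length_tup_le P n (v + 1)).trans h1
  have hp : (prs P n (L.map vec) (v + 1)).length ≤ P := by
    refine (length_prs_le P n (L.map vec) (v + 1)).trans ?_
    rw [List.length_map]
    exact h2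
  have htr : trunc (locB (tup P n (v + 1)) (E.map vec)) P n = false := by
    refine not_trunc _ P fun i _ 𝒯 h𝒯 => ?_
    refine (card_loc_le (v + 1) v i E.toFinset hv (Nat.lt_succ_self v) 𝒯 fun T hT => ?_).trans
      (le_trans (Nat.pow_le_pow_right (Nat.succ_pos n) (Nat.le_succ v)) h1)
    obtain ⟨hsub, hloc⟩ := h𝒯 T hT
    refine ⟨hsub, ?_⟩
    rw [locB_iff P (v + 1) ht, Finset.inter_eq_left.2 hsub] at hloc
    exact hloc
  unfold feasH
  rw [htr]
  simp [ht, hp]

end Pool.Agent.Helper81.VCP
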