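import Mathlib
import Pool.Agent.Helper81.VCP.Defs
import Pool.Agent.Helper81.VCP.K2
import Pool.Agent.Helper81.VCP.K3
import Pool.Agent.Helper81.VCP.K4
import Pool.Agent.Helper81.VCP.K5
import Pool.Agent.Helper81.VCP.K6

/-!
# VCP-K7: correctness of the search (uses K2 - K6 as black boxes; 120-180 lines)

* `minim_spec`. `minStep n E Z j = if Z - j meets all of E then Z - j else Z`. By induction on `k ≤ n`
  the fold over `List.range k` applied to `vec Z` is `vec T` with `T ⊆ Z`, `T` a transversal, and no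
  `T.erase j`, `j < k`, `j ∈ T`, is a transversal (this property passes to smaller `T`: if `T' ⊆ T` and
  `T'.erase j` is a transversal then so is `T.erase j`). At `k = n`: minimal transversal. Use
  `vec_set`, `hits_vec`, `List.range_succ`, `List.foldl_append`.
* `next_some`. `List.find?_some`, `List.mem_of_find?_eq_some`: `v = minim n E Z` with `good Z` and
  `Z ∈ allZ`, so `Z` is some `Zof ..`, of length `n` (`length_Zof`), `Z = vec Z'` (`vec_surj`). By
  `minim_spec`, `v = vec T`, `T ⊆ Z'` a minimal transversal; `B ⊆ T ⊆ Z'` is impossible for `B ∈ L` by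
  `avoids_vec`.
* `next_none`. All the candidates are not good (`List.find?_eq_none`). We verify `hnone` of `core` for
  `H = E.toFinset`, `L.toFinset`: let `i ≤ n`, `T ⊆ V_i`, `i = 0` or `Loc q H (i-1) (T ∩ V_(i-1))`. Then
  `pre i T ∈ cand (locB ..) P i` by `mem_cand` (`trunc = false` from `feasH`): for `j < i`,
  `Loc q H j (T ∩ V_j)` by `loc_mono` (`(T ∩ V_(i-1)) ∩ V_j = T ∩ V_j`), so `locB .. j (pre j T)` by
  `locB_iff`. Given `T₀ ⊆ T`, `T₀.card ≤ q`, `b x ∈ L` for `x ∈ T₀`, the list
  `w = T₀.toList.map (fun x => (x, vec (b x)))` is in `prs P n (L.map vec) q` (`mem_prs`). So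
  `Zof n i (pre i T) w ∈ allZ` is not good, and by `Zof_vec`, `hits_vec`, `avoids_vec` the set in `core` is
  not `GoodS`. So there is no good set at all. If `T` is a minimal transversal of `E` not in `L`, then
  `T` is good: it meets all `A ∈ E`, and `B ⊆ T`, `B ∈ L` minimal transversals, gives `B = T`.
-/

set_option autoImplicit false

namespace Pool.Agent.Helper81.VCP

variable {n : ℕ}

theorem minim_aux (E : List (Finset (Fin n))) (Z : Finset (Fin n))
    (hZ : ∀ A ∈ E, (A ∩ Z).Nonempty) (k : ℕ) (hk : k ≤ n) :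
    ∃ T : Finset (Fin n), (List.range k).foldl (minStep n (E.map vec)) (vec Z) = vec T ∧ T ⊆ Z ∧
      (∀ A ∈ E, (A ∩ T).Nonempty) ∧
      ∀ j : Fin n, (j : ℕ) < k → j ∈ T → ¬ ∀ A ∈ E, (A ∩ T.erase j).Nonempty := by
  induction k with
  | zero => exact ⟨Z, rfl, subset_rfl, hZ, fun j hj => absurd hj (Nat.not_lt_zero _)⟩
  | succ k ih =>
    obtain ⟨T, h1, h2, h3, h4⟩ := ih (by omega)
    have hkn : k < n := by omega
    have hstep : (List.range (k + 1)).foldl (minStep n (E.map vec)) (vec Z) =
        minStep n (E.map vec) (vec T) k := by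
      rw [List.range_succ, List.foldl_append, h1]
      rfl
    have hset : (vec T).set k false = vec (T.erase ⟨k, hkn⟩) := vec_set T ⟨k, hkn⟩
    rw [hstep, minStep, hset]
    by_cases hh : ∀ A ∈ E, (A ∩ T.erase ⟨k, hkn⟩).Nonempty
    · have hb : hits n (E.map vec) (vec (T.erase ⟨k, hkn⟩)) = true := (hits_vec E _).2 hh
      refine ⟨T.erase ⟨k, hkn⟩, by rw [hb, cond_true], (Finset.erase_subset _ _).trans h2, hh, ?_⟩
      intro j hj hjT hall
      rw [Finset.mem_erase] at hjT
      have hjk : (j : ℕ) < k := by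
        have : (j : ℕ) ≠ k := fun h => hjT.1 (Fin.ext h)
        omega
      apply h4 j hjk hjT.2
      intro A hA
      obtain ⟨x, hx⟩ := hall A hA
      refine ⟨x, ?_⟩
      simp only [Finset.mem_inter, Finset.mem_erase] at hx ⊢
      exact ⟨hx.1, hx.2.1, hx.2.2.2⟩
    · have hb : hits n (E.map vec) (vec (T.erase ⟨k, hkn⟩)) = false := by
        rw [← Bool.not_eq_true, hits_vec]
        exact hh
      refine ⟨T, by rw [hb, cond_false], h2, h3, ?_⟩
      intro j hj hjT
      rcases Nat.lt_succ_iff_lt_or_eq.1 hj with hj' | hj'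
      · exact h4 j hj' hjT
      · have : j = ⟨k, hkn⟩ := Fin.ext hj'
        rw [this]
        exact hh

theorem minim_spec (E : List (Finset (Fin n))) (Z : Finset (Fin n))
    (hZ : ∀ A ∈ E, (A ∩ Z).Nonempty) :
    ∃ T : Finset (Fin n), minim n (E.map vec) (vec Z) = vec T ∧ MinTr E T ∧ T ⊆ Z := by
  obtain ⟨T, h1, h2, h3, h4⟩ := minim_aux E Z hZ n le_rfl
  refine ⟨T, h1, ⟨?_, ?_⟩, h2⟩
  · intro A hA
    rw [Finset.inter_comm]
    exact h3 A hA
  · intro S hS hST x hx
    by_contra hxS
    apply h4 x x.2 hx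
    intro A hA
    obtain ⟨y, hy⟩ := hS A hA
    rw [Finset.mem_inter] at hy
    refine ⟨y, Finset.mem_inter.2 ⟨hy.2, Finset.mem_erase.2 ⟨?_, hST hy.1⟩⟩⟩
    rintro rfl
    exact hxS hy.1

theorem next_some (X : List (List ℕ)) (W : List (List (ℕ × List Bool))) (P : ℕ)
    (E L : List (Finset (Fin n))) (v : List Bool)
    (h : next X W P n (E.map vec) (L.map vec) = some v) :
    ∃ T : Finset (Fin n), v = vec T ∧ MinTr E T ∧ ∀ B ∈ L, ¬ B ⊆ T := by
  unfold next at h
  obtain ⟨Z, hfind, hv⟩ := Option.map_eq_some_iff.1 h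
  have hgood := List.find?_some hfind
  have hmem := List.mem_of_find?_eq_some hfind
  have hlen : Z.length = n := by
    unfold allZ at hmem
    rw [List.mem_flatMap] at hmem
    obtain ⟨i, _, hmem⟩ := hmem
    rw [List.mem_flatMap] at hmem
    obtain ⟨T, _, hmem⟩ := hmem
    rw [List.mem_map] at hmem
    obtain ⟨w, _, rfl⟩ := hmem
    exact length_Zof i T w
  obtain ⟨Z', rfl⟩ := vec_surj Z hlen
  unfold good at hgood
  rw [Bool.and_eq_true] at hgood
  obtain ⟨T, h1, h2, h3⟩ := minim_spec E Z' ((hits_vec E Z').1 hgood.1)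
  refine ⟨T, by rw [← hv, h1], h2, fun B hB hBT => ?_⟩
  exact (avoids_vec L Z').1 hgood.2 B hB (hBT.trans h3)

theorem next_none (P q : ℕ) (E L : List (Finset (Fin n))) (hL : ∀ B ∈ L, MinTr E B)
    (hf : feasH P n (E.map vec) (L.map vec) q = true)
    (h : next (tup P n q) (prs P n (L.map vec) q) P n (E.map vec) (L.map vec) = none) :
    ∀ T : Finset (Fin n), MinTr E T → T ∈ L := by
  unfold feasH at hf
  rw [Bool.and_eq_true, Bool.and_eq_true, decide_eq_true_eq, decide_eq_true_eq,
    Bool.not_eq_true'] at hf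
  obtain ⟨⟨hf1, hf2⟩, hf3⟩ := hf
  unfold next at h
  rw [Option.map_eq_none_iff, List.find?_eq_none] at h
  have hcore : ∀ Z, ¬ GoodS E.toFinset L.toFinset Z := by
    apply core q
    · intro A hA B hB
      rw [Finset.inter_comm]
      exact (hL B (List.mem_toFinset.1 hB)).prop A (List.mem_toFinset.1 hA)
    · intro i hi T hT hloc T₀ hT₀ hcard b hb hgood
      have hmem : Zof n i (pre i T) (T₀.toList.map (fun x : Fin n => ((x : ℕ), vec (b x)))) ∈
          allZ (tup P n q) (prs P n (L.map vec) q) P n (E.map vec) := by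
        unfold allZ
        rw [List.mem_flatMap]
        refine ⟨i, List.mem_range.2 (by omega), ?_⟩
        rw [List.mem_flatMap]
        refine ⟨pre i T, ?_, ?_⟩
        · rw [mem_cand _ P hf3 i hi T]
          intro j hj
          rw [locB_iff P q hf1]
          rcases hloc with hloc | hloc
          · omega
          · exact loc_mono q E.toFinset (i - 1) j (by omega) T hloc
        · rw [List.mem_map]
          refine ⟨_, ?_, rfl⟩
          rw [mem_prs P n (L.map vec) q hf2]
          refine ⟨by rw [List.length_map, Finset.length_toList]; exact hcard, ?_⟩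
          intro p hp
          rw [List.mem_map] at hp
          obtain ⟨x, hx, rfl⟩ := hp
          rw [Finset.mem_toList] at hx
          exact ⟨x.2, List.mem_map.2 ⟨b x, List.mem_toFinset.1 (hb x hx), rfl⟩⟩
      apply h _ hmem
      rw [Zof_vec]
      unfold good
      rw [Bool.and_eq_true, hits_vec, avoids_vec]
      exact ⟨fun A hA => hgood.1 A (List.mem_toFinset.2 hA),
        fun B hB => hgood.2 B (List.mem_toFinset.2 hB)⟩
  intro T hT
  by_contra hTL
  apply hcore T
  constructor
  · intro A hA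
    rw [Finset.inter_comm]
    exact hT.prop A (List.mem_toFinset.1 hA)
  · intro B hB hBT
    have hB' := List.mem_toFinset.1 hB
    have h1 : T ⊆ B := hT.le_of_le (hL B hB').prop hBT
    rw [Finset.Subset.antisymm h1 hBT] at hTL
    exact hTL hB'

end Pool.Agent.Helper81.VCP
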