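import Mathlib
import Pool.Agent.Helper81.VCP.Defs

/-!
# VCP-G1: extension of a set to a minimal transversal (Mathlib only; 50-80 lines)

`T₀ ⊆ T ⊆ V_i`. There is a minimal transversal `B` of `E` with `T₀ ⊆ B` and `B ∩ V_i ⊆ T` iff there are
`b x ∈ E`, `x ∈ T₀`, with `b x ∩ T₀ = {x}`, such that no `A ∈ E` is contained in
`Z = (V_i \ T) ∪ ⋃_{x ∈ T₀} (b x - x)`.
PROOF. `→`: `B` minimal: for `x ∈ B` some `b x ∈ E` has `b x ∩ B = {x}` (else `B - x` is a
transversal); so `b x ∩ T₀ = {x}` for `x ∈ T₀`, and `Z ∩ B = ∅` (`B ∩ V_i ⊆ T`), so `A ⊆ Z` is impossible.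
`←`: `univ \ Z` is a transversal; let `B ⊆ univ \ Z` be a minimal one. For `x ∈ T₀`: `b x ∩ B ≠ ∅` and
`(b x - x) ⊆ Z`, so `x ∈ B`. `B ∩ (V_i \ T) = ∅`.
-/

set_option autoImplicit false

namespace Pool.Agent.Helper81.VCP

variable {n : ℕ}

private theorem g1_priv (E : List (Finset (Fin n))) (B : Finset (Fin n)) (hB : MinTr E B)
    (x : Fin n) (hx : x ∈ B) : ∃ e ∈ E, e ∩ B = {x} := by
  by_contra hcon
  push Not at hcon
  have h1 : ∀ e ∈ E, ((B.erase x) ∩ e).Nonempty := by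
    intro e he
    obtain ⟨y, hy⟩ := hB.prop e he
    rw [Finset.mem_inter] at hy
    by_cases hyx : y = x
    · by_contra hne
      rw [Finset.not_nonempty_iff_eq_empty] at hne
      apply hcon e he
      ext z
      rw [Finset.mem_inter, Finset.mem_singleton]
      constructor
      · rintro ⟨hz1, hz2⟩
        by_contra hzx
        have : z ∈ (B.erase x) ∩ e :=
          Finset.mem_inter.2 ⟨Finset.mem_erase.2 ⟨hzx, hz2⟩, hz1⟩
        rw [hne] at this
        simp at this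
      · intro hz
        rw [hz, ← hyx]
        exact ⟨hy.2, hy.1⟩
    · exact ⟨y, Finset.mem_inter.2 ⟨Finset.mem_erase.2 ⟨hyx, hy.1⟩, hy.2⟩⟩
  have h2 : B ⊆ B.erase x := hB.le_of_le h1 (Finset.erase_subset x B)
  exact (Finset.notMem_erase x B) (h2 hx)

theorem ext_iff (E : List (Finset (Fin n))) (i : ℕ) (T T₀ : Finset (Fin n)) (hT₀ : T₀ ⊆ T) :
    (∃ B, MinTr E B ∧ T₀ ⊆ B ∧ B ∩ VI n i ⊆ T) ↔
      ∃ b : Fin n → Finset (Fin n), (∀ x ∈ T₀, b x ∈ E ∧ b x ∩ T₀ = {x}) ∧
        ∀ A ∈ E, ¬ A ⊆ (VI n i \ T) ∪ T₀.biUnion (fun x => (b x).erase x) := by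
  constructor
  · rintro ⟨B, hB, hTB, hBT⟩
    have hp : ∀ x : Fin n, ∃ e : Finset (Fin n), x ∈ B → (e ∈ E ∧ e ∩ B = {x}) := by
      intro x
      by_cases hx : x ∈ B
      · obtain ⟨e, he, h⟩ := g1_priv E B hB x hx
        exact ⟨e, fun _ => ⟨he, h⟩⟩
      · exact ⟨∅, fun h => absurd h hx⟩
    choose b hb using hp
    refine ⟨b, ?_, ?_⟩
    · intro x hx
      obtain ⟨h1, h2⟩ := hb x (hTB hx)
      refine ⟨h1, ?_⟩
      ext z
      rw [Finset.mem_inter, Finset.mem_singleton]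
      constructor
      · rintro ⟨hz1, hz2⟩
        have : z ∈ b x ∩ B := Finset.mem_inter.2 ⟨hz1, hTB hz2⟩
        rw [h2, Finset.mem_singleton] at this
        exact this
      · intro hz
        have : x ∈ b x ∩ B := by rw [h2]; exact Finset.mem_singleton_self x
        rw [hz]
        exact ⟨(Finset.mem_inter.1 this).1, hx⟩
    · intro A hA hsub
      obtain ⟨y, hy⟩ := hB.prop A hA
      rw [Finset.mem_inter] at hy
      have hyZ := hsub hy.2
      rw [Finset.mem_union] at hyZ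
      rcases hyZ with h | h
      · rw [Finset.mem_sdiff] at h
        exact h.2 (hBT (Finset.mem_inter.2 ⟨hy.1, h.1⟩))
      · rw [Finset.mem_biUnion] at h
        obtain ⟨x, hx, hyx⟩ := h
        rw [Finset.mem_erase] at hyx
        have : y ∈ b x ∩ B := Finset.mem_inter.2 ⟨hyx.2, hy.1⟩
        rw [(hb x (hTB hx)).2, Finset.mem_singleton] at this
        exact hyx.1 this
  · rintro ⟨b, hb, hA⟩
    set Z := (VI n i \ T) ∪ T₀.biUnion (fun x => (b x).erase x) with hZ
    have h1 : ∀ e ∈ E, ((Finset.univ \ Z) ∩ e).Nonempty := by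
      intro e he
      have := hA e he
      rw [Finset.not_subset] at this
      obtain ⟨y, hy1, hy2⟩ := this
      exact ⟨y, Finset.mem_inter.2 ⟨Finset.mem_sdiff.2 ⟨Finset.mem_univ y, hy2⟩, hy1⟩⟩
    obtain ⟨B, hBsub, hBmin⟩ :=
      exists_minimal_le_of_wellFoundedLT
        (fun S : Finset (Fin n) => ∀ e ∈ E, (S ∩ e).Nonempty) (Finset.univ \ Z) h1
    refine ⟨B, hBmin, ?_, ?_⟩
    · intro x hx
      obtain ⟨y, hy⟩ := hBmin.prop (b x) (hb x hx).1
      rw [Finset.mem_inter] at hy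
      by_cases hyx : y = x
      · rw [← hyx]; exact hy.1
      · exfalso
        have hyZ : y ∈ Z := by
          rw [hZ, Finset.mem_union]
          right
          rw [Finset.mem_biUnion]
          exact ⟨x, hx, Finset.mem_erase.2 ⟨hyx, hy.2⟩⟩
        exact (Finset.mem_sdiff.1 (hBsub hy.1)).2 hyZ
    · intro y hy
      rw [Finset.mem_inter] at hy
      by_contra hyT
      have hyZ : y ∈ Z := by
        rw [hZ, Finset.mem_union]
        left
        exact Finset.mem_sdiff.2 ⟨hy.2, hyT⟩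
      exact (Finset.mem_sdiff.1 (hBsub hy.1)).2 hyZ

end Pool.Agent.Helper81.VCP
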