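import Mathlib
import Pool.Agent.Helper81.VCP.Defs
import Pool.Agent.Helper81.VCP.K1
import Pool.Agent.Helper81.VCP.K3
import Pool.Agent.Helper81.VCP.K4
import Pool.Agent.Helper81.VCP.K5
import Pool.Agent.Helper81.VCP.K6
import Pool.Agent.Helper81.VCP.G1

/-!
# VCP-G2: the direct computation (uses K1, K3 - K6, G1 as black boxes; 120-200 lines)

* `locG_iff`: as `locB_iff`, with the inner condition `extG`. For `t ∈ tup P n q` with
  `t.all (mem (pre i T))` (so the set `T₀` of the elements of `t` is contained in `T ∩ V_i`), `extG` holds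
  iff some `B ∈ TrF E` has `T₀ ⊆ B`, `B ∩ V_i ⊆ T ∩ V_i`, i.e. iff the right-hand side of `ext_iff` (for
  `T ∩ V_i`) holds. `←` (from `b`): `w = t.map (fun x => (x, vec (b x)))` (entries of `t` are `< n`), in
  `prs P n (E.map vec) q`, `w.map Prod.fst = t`. `→` (from `w`): `w.map fst = t`, all `p ∈ w` have
  `p.2 = vec A`, `A ∈ E`, `p.1 ∈ A`, and no other element of `t` in `A`; for `x ∈ T₀` choose one `p ∈ w`
  with `p.1 = x` and `b x = A`; then the set in `ext_iff` is contained in the set of `Zof n i (pre i T) w`,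
  which contains no member of `E`. (`Zof n i (pre i T) w`: entry `j` is true iff (`j < i`, `j ∉ T`) or some
  `p ∈ w` has `j ∈ p.2`, `j ≠ p.1`: unfold `Zof`, do not use `Zof_vec`, as `t` may have repetitions.)
  `TrF E` is the finset of all `B` with `MinTr E B` (`Finset.mem_filter`).
* `direct_spec`: with `trunc = false` and `mem_cand` (for `i = n`, `pre n T = vec T`):
  `vec T ∈ cand (locG ..) P n` iff `Loc q (TrF E) j (T ∩ V_j)` for all `j < n`. This holds for every
  minimal transversal `T` (take `A = T` in `Loc`). So filtering with `isMinTr` (`isMinTr_vec`) gives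
  exactly the vectors of the minimal transversals; no repetitions by `nodup_cand`; all elements have
  length `n` (`length_of_mem_cand`), so the list is `L.map vec` for a list `L`
  (`vec_surj`; e.g. map the inverse of `vec` over the list), `L.Nodup` by `vec_injective`
  (`List.Nodup.of_map`).
* `feasG_of_vc`: as `feasH_of_vc`, with `locG_iff` and `card_loc_le` for `TrF E`.
-/

set_option autoImplicit false

namespace Pool.Agent.Helper81.VCP

variable {n : ℕ}

private theorem g2_mem_Zof (i : ℕ) (T : List Bool) (w : List (ℕ × List Bool)) (j : ℕ)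
    (hj : j < n) : mem (Zof n i T w) j = true ↔
      (j < i ∧ mem T j = false) ∨ ∃ p ∈ w, mem p.2 j = true ∧ j ≠ p.1 := by
  unfold mem Zof
  rw [List.getD_eq_getElem _ _ (by simpa using hj), List.getElem_map, List.getElem_range]
  simp only [Bool.or_eq_true, Bool.and_eq_true, decide_eq_true_eq, Bool.not_eq_true',
    List.any_eq_true, decide_eq_false_iff_not]
  rfl

private theorem g2_avoids (E : List (Finset (Fin n))) (Z : List Bool) :
    avoids n (E.map vec) Z = true ↔ ∀ A ∈ E, ∃ j : Fin n, j ∈ A ∧ ¬ mem Z j = true := by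
  unfold avoids
  simp only [List.all_eq_true, List.any_eq_true, List.mem_map, List.mem_range,
    Bool.and_eq_true, Bool.not_eq_true', forall_exists_index, and_imp,
    forall_apply_eq_imp_iff₂]
  constructor
  · intro h A hA
    obtain ⟨j, hj, h1, h2⟩ := h A hA
    obtain ⟨hj', h3⟩ := (mem_vec A j).mp h1
    exact ⟨⟨j, hj'⟩, h3, by simp [h2]⟩
  · intro h A hA
    obtain ⟨j, h1, h2⟩ := h A hA
    exact ⟨j, j.2, (mem_vec_fin A j).mpr h1, by simpa using h2⟩

private theorem g2_ext (P q : ℕ) (E : List (Finset (Fin n)))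
    (h' : (prs P n (E.map vec) q).length ≤ P) (i : ℕ) (T : Finset (Fin n)) (t : List ℕ)
    (ht : t.length ≤ q) (ht' : ∀ j ∈ t, j < n) (hT : ∀ j ∈ t, mem (pre i T) j = true) :
    extG (prs P n (E.map vec) q) n (E.map vec) i (pre i T) t = true ↔
      ∃ B, MinTr E B ∧ (Finset.univ.filter fun j : Fin n => (j : ℕ) ∈ t) ⊆ B ∧
        B ∩ VI n i ⊆ T ∩ VI n i := by
  classical
  have hsub : (Finset.univ.filter fun j : Fin n => (j : ℕ) ∈ t) ⊆ T ∩ VI n i := by
    intro j hj
    rw [Finset.mem_filter] at hj
    obtain ⟨h1, h2, h3⟩ := (mem_pre i T j).mp (hT j hj.2)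
    rw [Finset.mem_inter]
    exact ⟨h3, by simp [VI, h1]⟩
  rw [ext_iff E i (T ∩ VI n i) _ hsub]
  have hpre : ∀ j : Fin n, (j : ℕ) < i → (mem (pre i T) j = false ↔ j ∉ T) := by
    intro j hj
    rw [← Bool.not_eq_true, mem_pre]
    constructor
    · intro h1 h2
      exact h1 ⟨hj, j.2, h2⟩
    · rintro h1 ⟨_, _, h3⟩
      exact h1 h3
  unfold extG
  simp only [List.any_eq_true, Bool.and_eq_true, decide_eq_true_eq, List.all_eq_true,
    Bool.or_eq_true, Bool.not_eq_true', g2_avoids]
  constructor
  · rintro ⟨w, hw, hwt, hp, hav⟩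
    rw [mem_prs P n _ q h'] at hw
    have hex : ∀ x : Fin n, (x : ℕ) ∈ t → ∃ p ∈ w, p.1 = (x : ℕ) ∧ ∃ A ∈ E, p.2 = vec A := by
      intro x hx
      rw [← hwt, List.mem_map] at hx
      obtain ⟨p, hpw, hpx⟩ := hx
      obtain ⟨A, hA, hA'⟩ := List.mem_map.mp (hw.2 p hpw).2
      exact ⟨p, hpw, hpx, A, hA, hA'.symm⟩
    choose! pf hpf1 hpf2 b hb1 hb2 using hex
    refine ⟨b, fun x hx => ?_, fun A hA hAZ => ?_⟩
    · rw [Finset.mem_filter] at hx
      refine ⟨hb1 x hx.2, ?_⟩
      ext y
      rw [Finset.mem_inter, Finset.mem_singleton, Finset.mem_filter]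
      constructor
      · rintro ⟨hy1, -, hy2⟩
        rcases (hp _ (hpf1 x hx.2)).2 y hy2 with h1 | h1
        · rw [hpf2 x hx.2] at h1
          exact Fin.ext h1
        · rw [hb2 x hx.2] at h1
          have h2 := (mem_vec_fin (b x) y).mpr hy1
          rw [h1] at h2
          exact absurd h2 (by simp)
      · rintro rfl
        refine ⟨?_, Finset.mem_univ _, hx.2⟩
        have h1 := (hp _ (hpf1 y hx.2)).1
        rw [hb2 y hx.2, hpf2 y hx.2] at h1
        exact (mem_vec_fin (b y) y).mp h1
    · obtain ⟨j, hjA, hjZ⟩ := hav A hA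
      apply hjZ
      rw [g2_mem_Zof i _ _ _ j.2]
      rcases Finset.mem_union.mp (hAZ hjA) with h1 | h1
      · left
        rw [Finset.mem_sdiff, Finset.mem_inter] at h1
        have hji : (j : ℕ) < i := by
          have := h1.1
          simp only [VI, Finset.mem_filter, Finset.mem_univ, true_and] at this
          exact this
        refine ⟨hji, (hpre j hji).mpr fun h2 => h1.2 ⟨h2, h1.1⟩⟩
      · right
        rw [Finset.mem_biUnion] at h1
        obtain ⟨x, hx, hjx⟩ := h1
        rw [Finset.mem_filter] at hx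
        rw [Finset.mem_erase] at hjx
        refine ⟨pf x, hpf1 x hx.2, ?_, ?_⟩
        · rw [hb2 x hx.2]
          exact (mem_vec_fin (b x) j).mpr hjx.2
        · rw [hpf2 x hx.2]
          intro h2
          exact hjx.1 (Fin.ext h2)
  · rintro ⟨b, hb, hZ⟩
    have hbt : ∀ x (hx : x ∈ t), (⟨x, ht' x hx⟩ : Fin n) ∈
        (Finset.univ.filter fun j : Fin n => (j : ℕ) ∈ t) := by
      intro x hx
      rw [Finset.mem_filter]
      exact ⟨Finset.mem_univ _, hx⟩
    let b' : ℕ → Finset (Fin n) := fun x => if hx : x < n then b ⟨x, hx⟩ else ∅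
    have hb' : ∀ x (hx : x < n), b' x = b ⟨x, hx⟩ := fun x hx => dif_pos hx
    refine ⟨t.map fun x => (x, vec (b' x)), ?_, ?_, ?_, ?_⟩
    · rw [mem_prs P n _ q h']
      refine ⟨by simpa using ht, ?_⟩
      intro p hp
      obtain ⟨x, hx, rfl⟩ := List.mem_map.mp hp
      refine ⟨ht' x hx, List.mem_map.mpr ⟨b' x, ?_, rfl⟩⟩
      rw [hb' x (ht' x hx)]
      exact (hb _ (hbt x hx)).1
    · rw [List.map_map]
      exact List.map_id' _
    · intro p hp
      obtain ⟨x, hx, rfl⟩ := List.mem_map.mp hp
      have hxb := (hb _ (hbt x hx)).2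
      constructor
      · simp only
        rw [mem_vec]
        refine ⟨ht' x hx, ?_⟩
        rw [hb' x (ht' x hx)]
        have h1 : (⟨x, ht' x hx⟩ : Fin n) ∈ b ⟨x, ht' x hx⟩ ∩
            (Finset.univ.filter fun j : Fin n => (j : ℕ) ∈ t) := by
          rw [hxb]
          exact Finset.mem_singleton_self _
        exact (Finset.mem_inter.mp h1).1
      · intro j hj
        simp only
        by_cases hjb : mem (vec (b' x)) j = true
        · left
          obtain ⟨hjn, hjb2⟩ := (mem_vec _ j).mp hjb
          rw [hb' x (ht' x hx)] at hjb2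
          have h1 : (⟨j, hjn⟩ : Fin n) ∈ b ⟨x, ht' x hx⟩ ∩
              (Finset.univ.filter fun j : Fin n => (j : ℕ) ∈ t) :=
            Finset.mem_inter.mpr ⟨hjb2, hbt j hj⟩
          rw [hxb, Finset.mem_singleton] at h1
          exact congrArg Fin.val h1
        · right
          simpa using hjb
    · intro A hA
      obtain ⟨j, hjA, hjZ⟩ := Finset.not_subset.mp (hZ A hA)
      refine ⟨j, hjA, fun h1 => hjZ ?_⟩
      rw [g2_mem_Zof i _ _ _ j.2] at h1
      rw [Finset.mem_union]
      rcases h1 with ⟨h1, h2⟩ | ⟨p, hp, h1, h2⟩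
      · left
        rw [Finset.mem_sdiff, Finset.mem_inter]
        refine ⟨by simp [VI, h1], fun h3 => ((hpre j h1).mp h2) h3.1⟩
      · right
        obtain ⟨x, hx, rfl⟩ := List.mem_map.mp hp
        simp only at h1 h2
        rw [Finset.mem_biUnion]
        refine ⟨⟨x, ht' x hx⟩, hbt x hx, ?_⟩
        rw [Finset.mem_erase]
        refine ⟨fun h3 => h2 (congrArg Fin.val h3), ?_⟩
        rw [hb' x (ht' x hx)] at h1
        exact (mem_vec_fin _ j).mp h1

theorem locG_iff (P q : ℕ) (E : List (Finset (Fin n))) (h : (tup P n q).length ≤ P)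
    (h' : (prs P n (E.map vec) q).length ≤ P) (i : ℕ) (T : Finset (Fin n)) :
    locG (tup P n q) (prs P n (E.map vec) q) n (E.map vec) i (pre i T) = true ↔
      Loc q (TrF E) i (T ∩ VI n i) := by
  classical
  unfold locG
  simp only [List.all_eq_true, Bool.or_eq_true, Bool.not_eq_true', List.all_eq_false]
  constructor
  · intro hall T₀ hT₀ hc
    set t : List ℕ := T₀.toList.map Fin.val with ht
    have hmem : ∀ j : Fin n, (j : ℕ) ∈ t ↔ j ∈ T₀ := by
      intro j
      rw [ht, List.mem_map]
      constructor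
      · rintro ⟨x, hx, hxj⟩
        rw [← Fin.ext hxj]
        exact Finset.mem_toList.mp hx
      · intro hj
        exact ⟨j, Finset.mem_toList.mpr hj, rfl⟩
    have htl : t.length ≤ q := by
      rw [ht, List.length_map, Finset.length_toList]
      exact hc
    have htn : ∀ j ∈ t, j < n := by
      intro j hj
      obtain ⟨x, -, rfl⟩ := List.mem_map.mp hj
      exact x.2
    have htm : ∀ j ∈ t, mem (pre i T) j = true := by
      intro j hj
      obtain ⟨x, hx, rfl⟩ := List.mem_map.mp hj
      have h1 := Finset.mem_inter.mp (hT₀ (Finset.mem_toList.mp hx))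
      rw [mem_pre]
      refine ⟨?_, x.2, h1.1⟩
      have h2 := h1.2
      simp only [VI, Finset.mem_filter, Finset.mem_univ, true_and] at h2
      exact h2
    rcases hall t ((mem_tup P n q h t).mpr ⟨htl, htn⟩) with h1 | h1
    · obtain ⟨j, hj, h2⟩ := h1
      exact absurd (htm j hj) h2
    · obtain ⟨B, hB, hB1, hB2⟩ := (g2_ext P q E h' i T t htl htn htm).mp h1
      refine ⟨B, ?_, ?_, hB2⟩
      · unfold TrF
        rw [Finset.mem_filter]
        exact ⟨Finset.mem_univ _, hB⟩
      · intro x hx
        apply hB1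
        rw [Finset.mem_filter]
        exact ⟨Finset.mem_univ _, (hmem x).mpr hx⟩
  · intro hloc t ht
    obtain ⟨htl, htn⟩ := (mem_tup P n q h t).mp ht
    by_cases hm : ∀ j ∈ t, mem (pre i T) j = true
    · right
      rw [g2_ext P q E h' i T t htl htn hm]
      have hsub : (Finset.univ.filter fun j : Fin n => (j : ℕ) ∈ t) ⊆ T ∩ VI n i := by
        intro j hj
        rw [Finset.mem_filter] at hj
        obtain ⟨h1, h2, h3⟩ := (mem_pre i T j).mp (hm j hj.2)
        rw [Finset.mem_inter]
        exact ⟨h3, by simp [VI, h1]⟩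
      have hcard : (Finset.univ.filter fun j : Fin n => (j : ℕ) ∈ t).card ≤ q := by
        calc (Finset.univ.filter fun j : Fin n => (j : ℕ) ∈ t).card
            = ((Finset.univ.filter fun j : Fin n => (j : ℕ) ∈ t).image Fin.val).card :=
              (Finset.card_image_of_injective _ Fin.val_injective).symm
          _ ≤ t.toFinset.card := by
              apply Finset.card_le_card
              intro j hj
              obtain ⟨x, hx, rfl⟩ := Finset.mem_image.mp hj
              rw [List.mem_toFinset]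
              exact (Finset.mem_filter.mp hx).2
          _ ≤ t.length := List.toFinset_card_le t
          _ ≤ q := htl
      obtain ⟨A, hA, hA1, hA2⟩ := hloc _ hsub hcard
      unfold TrF at hA
      rw [Finset.mem_filter] at hA
      exact ⟨A, hA.2, hA1, hA2⟩
    · left
      push Not at hm
      obtain ⟨j, hj, hj2⟩ := hm
      exact ⟨j, hj, by simpa using hj2⟩

theorem direct_spec (P q : ℕ) (E : List (Finset (Fin n)))
    (hf : feasG P n (E.map vec) q = true) :
    ∃ L : List (Finset (Fin n)), direct P n (E.map vec) q = L.map vec ∧ L.Nodup ∧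
      ∀ T, T ∈ L ↔ MinTr E T := by
  classical
  unfold feasG at hf
  simp only [Bool.and_eq_true, decide_eq_true_eq, Bool.not_eq_true'] at hf
  obtain ⟨⟨h1, h2⟩, h3⟩ := hf
  have hlen : ∀ v ∈ direct P n (E.map vec) q, v.length = n := by
    intro v hv
    unfold direct at hv
    rw [List.mem_filter] at hv
    exact length_of_mem_cand _ _ _ _ hv.1
  have hinv : ∀ v ∈ direct P n (E.map vec) q,
      vec (Function.invFun (vec : Finset (Fin n) → List Bool) v) = v := by
    intro v hv
    apply Function.invFun_eq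
    obtain ⟨T, hT⟩ := vec_surj v (hlen v hv)
    exact ⟨T, hT.symm⟩
  have hL : ((direct P n (E.map vec) q).map
      (Function.invFun (vec : Finset (Fin n) → List Bool))).map vec =
      direct P n (E.map vec) q := by
    rw [List.map_map]
    conv_rhs => rw [← List.map_id' (direct P n (E.map vec) q)]
    apply List.map_congr_left
    intro v hv
    exact hinv v hv
  have hnd : (direct P n (E.map vec) q).Nodup := by
    unfold direct
    exact (nodup_cand _ _ _).filter _
  refine ⟨(direct P n (E.map vec) q).map (Function.invFun (vec : Finset (Fin n) → List Bool)),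
    hL.symm, ?_, ?_⟩
  · apply List.Nodup.of_map (vec : Finset (Fin n) → List Bool)
    rw [hL]
    exact hnd
  · intro T
    rw [← List.mem_map_of_injective vec_injective, hL]
    unfold direct
    rw [List.mem_filter, isMinTr_vec]
    constructor
    · exact fun h => h.2
    · intro hT
      refine ⟨?_, hT⟩
      rw [← pre_self, mem_cand _ P h3 n le_rfl]
      intro j _
      rw [locG_iff P q E h1 h2]
      intro T₀ hT₀ _
      refine ⟨T, ?_, fun x hx => (Finset.mem_inter.mp (hT₀ hx)).1, Finset.Subset.refl _⟩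
      unfold TrF
      rw [Finset.mem_filter]
      exact ⟨Finset.mem_univ _, hT⟩

theorem feasG_of_vc (P v : ℕ) (E : List (Finset (Fin n))) (hv : (TrF E).vcDim ≤ v)
    (h1 : (n + 1) ^ (v + 1) ≤ P) (h2 : (n * E.length + 1) ^ (v + 1) ≤ P) :
    feasG P n (E.map vec) (v + 1) = true := by
  classical
  have hl1 : (tup P n (v + 1)).length ≤ P := (length_tup_le P n (v + 1)).trans h1
  have hl2 : (prs P n (E.map vec) (v + 1)).length ≤ P := by
    refine (length_prs_le P n _ (v + 1)).trans ?_
    rw [List.length_map]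
    exact h2
  unfold feasG
  simp only [Bool.and_eq_true, decide_eq_true_eq, Bool.not_eq_true']
  refine ⟨⟨hl1, hl2⟩, not_trunc _ P ?_⟩
  intro i _ 𝒯 h𝒯
  have hc := card_loc_le (v + 1) v i (TrF E) hv (Nat.lt_succ_self v) 𝒯 (by
    intro T hT
    refine ⟨(h𝒯 T hT).1, ?_⟩
    have h3 := (locG_iff P (v + 1) E hl1 hl2 i T).mp (h𝒯 T hT).2
    rwa [Finset.inter_eq_left.mpr (h𝒯 T hT).1] at h3)
  exact hc.trans ((Nat.pow_le_pow_right (Nat.succ_pos n) (Nat.le_succ v)).trans h1)

end Pool.Agent.Helper81.VCP
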