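import Mathlib
import Pool.Agent.Helper81.VCP.Defs
import Pool.Agent.Helper81.VCP.K3
import Pool.Agent.Helper81.VCP.K6
import Pool.Agent.Helper81.VCP.K7
import Pool.Agent.Helper81.VCP.G2

/-!
# VCP-F1: one round of the main loop (uses K3, K6, K7, G2 as black boxes; 60-100 lines)

PROOF. Case 1: `(List.range P).find? (feasG ..) = some q`: then `feasG .. q = true`
(`List.find?_some`), `direct_spec`. Case 2: it is `none` and `find? (feasH ..) = some q`: if `next = some v`
use `next_some` (`L' = L ++ [T]`; `T ∉ L`, since `B ⊆ T` fails for all `B ∈ L`); if `next = none` use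
`next_none` (`L' = L`). Case 3: both are `none`: for all `q < P`, `feasG .. q` and `feasH .. q` are `false`
(`List.find?_eq_none`). Let `b = n * (E.length + (TrF E).card) + n + 2 ≥ 2` and suppose `b ^ (v+2) ≤ P`.
Then `v + 1 < 2 ^ (v+2) ≤ P`, `(n+1)^(v+1) ≤ b^(v+1) ≤ P`, `(n * E.length + 1)^(v+1) ≤ P`, and
`L.length ≤ (TrF E).card` (`L` has no repetitions and consists of minimal transversals), so
`(n * L.length + 1)^(v+1) ≤ P`. By `feasH_of_vc` or `feasG_of_vc` one of the two is feasible for
`q = v + 1 < P`, a contradiction. So `P < b ^ (v+2)`.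
-/

set_option autoImplicit false

namespace Pool.Agent.Helper81.VCP

variable {n : ℕ}

theorem step_spec (E L : List (Finset (Fin n))) (P v : ℕ) (hnd : L.Nodup)
    (hL : ∀ B ∈ L, MinTr E B) (hv : E.toFinset.vcDim ≤ v ∨ (TrF E).vcDim ≤ v) :
    ∃ (L' : List (Finset (Fin n))) (P' : ℕ) (f : Bool),
      stepS ((n, E.map vec), (L.map vec, (P, false))) = ((n, E.map vec), (L'.map vec, (P', f))) ∧
      L'.Nodup ∧ (∀ B ∈ L', MinTr E B) ∧ (f = true → ∀ T, MinTr E T → T ∈ L') ∧
      ((f = true ∧ P' = P) ∨ (f = false ∧ P' = P ∧ L'.length = L.length + 1) ∨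
        (f = false ∧ L' = L ∧ P' = (P + 2) * (P + 2) ∧
          P < (n * (E.length + (TrF E).card) + n + 2) ^ (v + 2))) := by
  rcases hG : (List.range P).find? (feasG P n (E.map vec)) with _ | q
  · rcases hH : (List.range P).find? (feasH P n (E.map vec) (L.map vec)) with _ | q
    · -- the budget is increased
      refine ⟨L, (P + 2) * (P + 2), false, ?_, hnd, hL, fun h => absurd h (by simp),
        Or.inr (Or.inr ⟨rfl, rfl, rfl, ?_⟩)⟩
      · unfold stepS
        simp only [hG, hH]
      · by_contra hcon
        have hP : (n * (E.length + (TrF E).card) + n + 2) ^ (v + 2) ≤ P := not_lt.1 hcon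
        have hLc : L.length ≤ (TrF E).card := by
          rw [← List.toFinset_card_of_nodup hnd]
          apply Finset.card_le_card
          intro B hB
          classical
          unfold TrF
          rw [Finset.mem_filter]
          exact ⟨Finset.mem_univ B, hL B (List.mem_toFinset.1 hB)⟩
        have hvP : v + 1 < P := by
          have h1 : v + 1 < 2 ^ (v + 2) := by
            have := Nat.lt_two_pow_self (n := v + 2)
            omega
          have h2 : 2 ^ (v + 2) ≤ (n * (E.length + (TrF E).card) + n + 2) ^ (v + 2) :=
            Nat.pow_le_pow_left (by omega) _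
          omega
        have key : ∀ c : ℕ, c ≤ n * (E.length + (TrF E).card) + n + 2 → c ^ (v + 1) ≤ P := by
          intro c hc
          refine ((Nat.pow_le_pow_left hc (v + 1)).trans ?_).trans hP
          exact Nat.pow_le_pow_right (by omega) (by omega)
        have h1 : (n + 1) ^ (v + 1) ≤ P := by
          apply key
          have : 0 ≤ n * (E.length + (TrF E).card) := Nat.zero_le _
          omega
        rcases hv with hv | hv
        · have h2 : (n * L.length + 1) ^ (v + 1) ≤ P := by
            apply key
            have h3 : n * L.length ≤ n * (E.length + (TrF E).card) :=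
              Nat.mul_le_mul_left n (by omega)
            omega
          have h4 := feasH_of_vc P v E L hv h1 h2
          rw [List.find?_eq_none] at hH
          exact hH (v + 1) (List.mem_range.2 hvP) h4
        · have h2 : (n * E.length + 1) ^ (v + 1) ≤ P := by
            apply key
            have h3 : n * E.length ≤ n * (E.length + (TrF E).card) :=
              Nat.mul_le_mul_left n (by omega)
            omega
          have h4 := feasG_of_vc P v E hv h1 h2
          rw [List.find?_eq_none] at hG
          exact hG (v + 1) (List.mem_range.2 hvP) h4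
    · have hfeas := List.find?_some hH
      rcases hN : next (tup P n q) (prs P n (L.map vec) q) P n (E.map vec) (L.map vec) with _ | w
      · refine ⟨L, P, true, ?_, hnd, hL, fun _ => ?_, Or.inl ⟨rfl, rfl⟩⟩
        · unfold stepS
          simp only [hG, hH, hN]
        · exact next_none P q E L hL hfeas hN
      · obtain ⟨T, hT1, hT2, hT3⟩ := next_some _ _ _ _ _ _ hN
        refine ⟨L ++ [T], P, false, ?_, ?_, ?_, fun h => absurd h (by simp),
          Or.inr (Or.inl ⟨rfl, rfl, by simp⟩)⟩
        · unfold stepS
          simp only [hG, hH, hN, hT1, List.map_append, List.map_cons, List.map_nil]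
        · rw [List.nodup_append]
          refine ⟨hnd, List.nodup_singleton T, ?_⟩
          intro B hB C hC hBC
          rw [List.mem_singleton] at hC
          exact hT3 B hB (by rw [hBC, hC])
        · intro B hB
          rw [List.mem_append, List.mem_singleton] at hB
          rcases hB with h | h
          · exact hL B h
          · rw [h]; exact hT2
  · have hfeas := List.find?_some hG
    obtain ⟨L', h1, h2, h3⟩ := direct_spec P q E hfeas
    refine ⟨L', P, true, ?_, h2, fun B hB => (h3 B).1 hB, fun _ T hT => (h3 T).2 hT,
      Or.inl ⟨rfl, rfl⟩⟩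
    unfold stepS
    simp only [hG, h1]

end Pool.Agent.Helper81.VCP
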