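import Mathlib
import Pool.Agent.Helper68.PT.Ext2
import Pool.Agent.Helper81.VCP.Defs
import Pool.Agent.Helper81.VCP.K3
import Pool.Agent.Helper81.VCP.F1

/-!
# VCP-F2: the run of the main loop (uses K3, F1 as black boxes; 80-130 lines)

Let `A = (TrF E).card`, `Q = (n * (E.length + A) + n + 2) ^ (v + 2)`.
PROOF. Starting from `L = []`, `P = 0`, `f = false`, iterate `step_spec` as long as `f = false`. Invariant:
the state is `((n, E.map vec), (L.map vec, (P, false)))`, `L.Nodup`, `∀ B ∈ L, MinTr E B` (so
`L.length ≤ A`), `P ≤ (Q + 1)^2`, and (number of rounds so far) `≤ L.length + (number of increases of P)`,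
where every increase happens at a value `P < Q` and makes `P` larger, so there are at most `Q` of them:
e.g. use the measure `(A - L.length) + (Q - min P Q)`, which decreases strictly in every round with
`f = false`. So some round `k ≤ A + Q + 1` ends with `f = true`; then `L` is the list of all minimal
transversals, `L.length = A`.
Sizes: `esz (a, b) = 2 * esz a + 1 + esz b` (`esz_pair`), `esz` of a number is the number (`esz_nat`), of a
Boolean 1, of a list the sum of `2 * esz x + 1`, so `esz (vec T) = 3 * n` and
`esz (L.map vec) = L.length * (6 * n + 1)`; total `4 n + 2 (E.length + L.length) (6 n + 1) + 2 P + 6`.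
-/

set_option autoImplicit false

namespace Pool.Agent.Helper81.VCP

open Pool.Agent.Helper36.PT

variable {n : ℕ}

private theorem f2_esz_list {α : Type} [Enc α] (l : List α) :
    esz l = (l.map fun x => 2 * esz x + 1).sum := by
  induction l with
  | nil => rfl
  | cons a l ih =>
    change (fr (enc a) ++ encL l).length = _
    rw [List.length_append, length_fr, List.map_cons, List.sum_cons, ← ih]
    rfl

private theorem f2_esz_pair {α β : Type} [Enc α] [Enc β] (a : α) (b : β) :
    esz (a, b) = 2 * esz a + 1 + esz b := by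
  change (fr (enc a) ++ enc b).length = _
  rw [List.length_append, length_fr]
  rfl

private theorem f2_esz_nat (m : ℕ) : esz m = m := by
  change (List.replicate m true).length = m
  rw [List.length_replicate]

private theorem f2_esz_bools (l : List Bool) : esz l = 3 * l.length := by
  rw [f2_esz_list]
  have h : (l.map fun x => 2 * esz x + 1) = List.replicate l.length 3 := by
    rw [List.eq_replicate_iff]
    refine ⟨List.length_map _, ?_⟩
    intro b hb
    obtain ⟨x, -, rfl⟩ := List.mem_map.mp hb
    rfl
  rw [h, List.sum_replicate, smul_eq_mul, Nat.mul_comm]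

private theorem f2_esz_vecs (L : List (Finset (Fin n))) :
    esz (L.map vec) = L.length * (6 * n + 1) := by
  rw [f2_esz_list, List.map_map]
  have h : (L.map ((fun x => 2 * esz x + 1) ∘ vec)) = List.replicate L.length (6 * n + 1) := by
    rw [List.eq_replicate_iff]
    refine ⟨List.length_map _, ?_⟩
    intro b hb
    obtain ⟨T, -, rfl⟩ := List.mem_map.mp hb
    change 2 * esz (vec T) + 1 = 6 * n + 1
    rw [f2_esz_bools, length_vec]
    ring
  rw [h, List.sum_replicate, smul_eq_mul]

theorem esz_state (E L : List (Finset (Fin n))) (P : ℕ) (f : Bool) :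
    esz (((n, E.map vec), (L.map vec, (P, f))) : State) =
      4 * n + 2 * (E.length + L.length) * (6 * n + 1) + 2 * P + 6 := by
  rw [f2_esz_pair, f2_esz_pair, f2_esz_pair, f2_esz_pair, f2_esz_nat, f2_esz_nat, f2_esz_vecs,
    f2_esz_vecs]
  have h : esz f = 1 := rfl
  rw [h]
  ring

private theorem f2_length_le (E L : List (Finset (Fin n))) (hnd : L.Nodup)
    (hL : ∀ B ∈ L, MinTr E B) : L.length ≤ (TrF E).card := by
  rw [← List.toFinset_card_of_nodup hnd]
  apply Finset.card_le_card
  intro B hB
  classical
  unfold TrF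
  rw [Finset.mem_filter]
  exact ⟨Finset.mem_univ B, hL B (List.mem_toFinset.1 hB)⟩

private theorem f2_loop (E : List (Finset (Fin n))) (v : ℕ)
    (hv : E.toFinset.vcDim ≤ v ∨ (TrF E).vcDim ≤ v) (A Q : ℕ) (hA : A = (TrF E).card)
    (hQ : Q = (n * (E.length + (TrF E).card) + n + 2) ^ (v + 2)) :
    ∀ (m : ℕ) (L : List (Finset (Fin n))) (P : ℕ), L.Nodup → (∀ B ∈ L, MinTr E B) →
      P ≤ (Q + 1) ^ 2 → (A - L.length) + (Q - min P Q) ≤ m →
      ∃ (k : ℕ) (L' : List (Finset (Fin n))) (P' : ℕ), L'.Nodup ∧ (∀ T, T ∈ L' ↔ MinTr E T) ∧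
        stepS^[k] (((n, E.map vec), (L.map vec, (P, false))) : State) =
          ((n, E.map vec), (L'.map vec, (P', true))) ∧
        (∀ j < k, doneS (stepS^[j] (((n, E.map vec), (L.map vec, (P, false))) : State)) = false) ∧
        k ≤ m + 1 ∧
        ∀ j ≤ k, esz (stepS^[j] (((n, E.map vec), (L.map vec, (P, false))) : State)) ≤
          4 * n + 2 * (E.length + A) * (6 * n + 1) + 2 * (Q + 1) ^ 2 + 6 := by
  have hsz : ∀ (L : List (Finset (Fin n))) (P : ℕ) (f : Bool), L.Nodup →
      (∀ B ∈ L, MinTr E B) → P ≤ (Q + 1) ^ 2 →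
      esz (((n, E.map vec), (L.map vec, (P, f))) : State) ≤
        4 * n + 2 * (E.length + A) * (6 * n + 1) + 2 * (Q + 1) ^ 2 + 6 := by
    intro L P f hnd hL hP
    rw [esz_state]
    have h1 : L.length ≤ A := by
      rw [hA]
      exact f2_length_le E L hnd hL
    have h2 : 2 * (E.length + L.length) * (6 * n + 1) ≤ 2 * (E.length + A) * (6 * n + 1) :=
      Nat.mul_le_mul_right _ (by omega)
    omega
  intro m
  induction m with
  | zero =>
    intro L P hnd hL hP hm
    obtain ⟨L', P', f, hst, hnd', hL', hall, hc⟩ := step_spec E L P v hnd hL hv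
    rcases hc with ⟨hf, hP'⟩ | ⟨hf, hP', hlen⟩ | ⟨hf, hLL, hP', hlt⟩
    · subst hf
      subst hP'
      refine ⟨1, L', P', hnd', fun T => ⟨fun hT => hL' T hT, fun hT => hall rfl T hT⟩, hst, ?_,
        le_rfl, ?_⟩
      · intro j hj
        have : j = 0 := by omega
        subst this
        rfl
      · intro j hj
        interval_cases j
        · exact hsz L P' false hnd hL hP
        · rw [Function.iterate_one, hst]
          exact hsz L' P' true hnd' hL' hP
    · exfalso
      have h1 := f2_length_le E L' hnd' hL'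
      rw [← hA] at h1
      omega
    · exfalso
      rw [← hQ] at hlt
      rw [Nat.min_eq_left hlt.le] at hm
      omega
  | succ m ih =>
    intro L P hnd hL hP hm
    obtain ⟨L', P', f, hst, hnd', hL', hall, hc⟩ := step_spec E L P v hnd hL hv
    have hcase : f = true ∧ P' = P ∨ (f = false ∧ P' ≤ (Q + 1) ^ 2 ∧
        (A - L'.length) + (Q - min P' Q) ≤ m) := by
      rcases hc with ⟨hf, hP'⟩ | ⟨hf, hP', hlen⟩ | ⟨hf, hLL, hP', hlt⟩
      · exact Or.inl ⟨hf, hP'⟩
      · refine Or.inr ⟨hf, by rw [hP']; exact hP, ?_⟩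
        have h1 := f2_length_le E L' hnd' hL'
        rw [← hA] at h1
        rw [hP']
        omega
      · rw [← hQ] at hlt
        rw [Nat.min_eq_left hlt.le] at hm
        refine Or.inr ⟨hf, ?_, ?_⟩
        · rw [hP', pow_two]
          exact Nat.mul_le_mul (by omega) (by omega)
        · have h2 : P + 1 ≤ P' := by
            rw [hP']
            nlinarith
          rw [hLL]
          have h3 : P + 1 ≤ min P' Q := le_min h2 hlt
          omega
    rcases hcase with ⟨hf, hP'⟩ | ⟨hf, hPb, hmb⟩
    · subst hf
      subst hP'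
      refine ⟨1, L', P', hnd', fun T => ⟨fun hT => hL' T hT, fun hT => hall rfl T hT⟩, hst, ?_,
        by omega, ?_⟩
      · intro j hj
        have : j = 0 := by omega
        subst this
        rfl
      · intro j hj
        interval_cases j
        · exact hsz L P' false hnd hL hP
        · rw [Function.iterate_one, hst]
          exact hsz L' P' true hnd' hL' hP
    · subst hf
      obtain ⟨k, L'', P'', g1, g2, g3, g4, g5, g6⟩ := ih L' P' hnd' hL' hPb hmb
      refine ⟨k + 1, L'', P'', g1, g2, ?_, ?_, by omega, ?_⟩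
      · rw [Function.iterate_succ_apply, hst]
        exact g3
      · intro j hj
        rcases j with _ | j
        · rfl
        · rw [Function.iterate_succ_apply, hst]
          exact g4 j (by omega)
      · intro j hj
        rcases j with _ | j
        · exact hsz L P false hnd hL hP
        · rw [Function.iterate_succ_apply, hst]
          exact g6 j (by omega)

theorem run_spec (E : List (Finset (Fin n))) (v : ℕ)
    (hv : E.toFinset.vcDim ≤ v ∨ (TrF E).vcDim ≤ v) :
    ∃ (k : ℕ) (L : List (Finset (Fin n))) (P : ℕ), L.Nodup ∧ (∀ T, T ∈ L ↔ MinTr E T) ∧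
      stepS^[k] (((n, E.map vec), ([], (0, false))) : State) =
        ((n, E.map vec), (L.map vec, (P, true))) ∧
      (∀ j < k, doneS (stepS^[j] (((n, E.map vec), ([], (0, false))) : State)) = false) ∧
      k ≤ L.length + (n * (E.length + L.length) + n + 2) ^ (v + 2) + 1 ∧
      ∀ j ≤ k, esz (stepS^[j] (((n, E.map vec), ([], (0, false))) : State)) ≤
        4 * n + 2 * (E.length + L.length) * (6 * n + 1) +
          2 * ((n * (E.length + L.length) + n + 2) ^ (v + 2) + 1) ^ 2 + 6 := by
  obtain ⟨k, L, P, g1, g2, g3, g4, g5, g6⟩ := f2_loop E v hv (TrF E).card _ rfl rfl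
    ((TrF E).card + (n * (E.length + (TrF E).card) + n + 2) ^ (v + 2)) [] 0 List.nodup_nil
    (fun B hB => absurd hB (List.not_mem_nil)) (Nat.zero_le _) (by
      simp)
  have hlen : L.length = (TrF E).card := by
    classical
    rw [← List.toFinset_card_of_nodup g1]
    congr 1
    ext T
    rw [List.mem_toFinset, g2 T]
    unfold TrF
    rw [Finset.mem_filter]
    exact ⟨fun h => ⟨Finset.mem_univ T, h⟩, fun h => h.2⟩
  refine ⟨k, L, P, g1, g2, g3, g4, ?_, ?_⟩
  · rw [hlen]
    exact g5
  · rw [hlen]
    exact g6

end Pool.Agent.Helper81.VCP
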