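import Mathlib
import Pool.Agent.Helper81.VCP.Defs

/-!
# VCP-PARSE: the codes of the input and of the output (Mathlib + PT.mu; 60-100 lines)

The input word over `Option Bool` is `n` times `some true`, `none`, and for every `T ∈ E` the `n` symbols
`some (i ∈ T)` followed by `none`: `(n+1) * (1 + |E|)` symbols; every symbol gives two bits, the first
bit of the code of symbol number `k` is at position `2k`, it is `false` exactly for `none`.
* `parse_spec`: the least `i` such that bit `2 i` is `false` (`getD` with default `true`) is `n`
  (`PT.mu m Q` is the least `i < m` with `Q i`; here `m` is the length of the word, `> n`); the number of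
  rows is `length / 2 / (n+1) - 1 = |E|`; entry `j < n` of row `k < |E|` is symbol number
  `(k+1)(n+1) + j`, and its second bit is `decide (j ∈ T_k)`.
* `out_spec`: `outS` gives the code of the output word.
-/

set_option autoImplicit false

namespace Pool.Agent.Helper81.VCP

open Pool.Agent.Helper36

/-- The symbols of the rows. -/
def rows {n : ℕ} (L : List (Finset (Fin n))) : List (Option Bool) :=
  (L.map (fun T : Finset (Fin n) =>
    List.ofFn (fun i : Fin n => some (decide (i ∈ T))) ++ [none])).flatten

/-- The input word. -/
def inputW {n : ℕ} (E : List (Finset (Fin n))) : List (Option Bool) :=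
  List.replicate n (some true) ++ [none] ++ rows E

theorem length_rows {n : ℕ} (L : List (Finset (Fin n))) :
    (rows L).length = (n + 1) * L.length := by
  induction L with
  | nil => simp [rows]
  | cons T L ih =>
    have h : rows (T :: L) =
        (List.ofFn (fun i : Fin n => some (decide (i ∈ T))) ++ [none]) ++ rows L := by
      simp [rows]
    have h2 : (T :: L).length = L.length + 1 := rfl
    rw [h, List.length_append, ih, List.length_append, List.length_ofFn, List.length_singleton, h2]
    ring

theorem length_inputW {n : ℕ} (E : List (Finset (Fin n))) :
    (inputW E).length = (n + 1) * (E.length + 1) := by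
  unfold inputW
  rw [List.length_append, List.length_append, List.length_replicate, List.length_singleton,
    length_rows]
  ring

private theorem length_flatMap_cod (W : List (Option Bool)) :
    (W.flatMap cod).length = 2 * W.length := by
  induction W with
  | nil => simp
  | cons s W ih =>
    rw [List.flatMap_cons, List.length_append, ih, List.length_cons]
    cases s <;> simp [cod] <;> ring

private theorem getD_cod_even (W : List (Option Bool)) (k : ℕ) (d : Bool) :
    (W.flatMap cod).getD (2 * k) d = ((W[k]?).map Option.isSome).getD d := by
  induction W generalizing k with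
  | nil => simp
  | cons s W ih =>
    rw [List.flatMap_cons]
    rcases k with _ | k
    · cases s <;> simp [cod]
    · have h : 2 * (k + 1) = 2 * k + 1 + 1 := by ring
      rw [h]
      cases s
      · simp only [cod, List.cons_append, List.nil_append, List.getD_cons_succ,
          List.getElem?_cons_succ]
        exact ih k
      · simp only [cod, List.cons_append, List.nil_append, List.getD_cons_succ,
          List.getElem?_cons_succ]
        exact ih k

private theorem getD_cod_odd (W : List (Option Bool)) (k : ℕ) (d : Bool) :
    (W.flatMap cod).getD (2 * k + 1) d = ((W[k]?).map (fun s => s.getD false)).getD d := by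
  induction W generalizing k with
  | nil => simp
  | cons s W ih =>
    rw [List.flatMap_cons]
    rcases k with _ | k
    · cases s <;> simp [cod]
    · have h : 2 * (k + 1) + 1 = (2 * k + 1) + 1 + 1 := by ring
      rw [h]
      cases s
      · simp only [cod, List.cons_append, List.nil_append, List.getD_cons_succ,
          List.getElem?_cons_succ]
        exact ih k
      · simp only [cod, List.cons_append, List.nil_append, List.getD_cons_succ,
          List.getElem?_cons_succ]
        exact ih k

private theorem rows_getElem? {n : ℕ} (L : List (Finset (Fin n))) (k j : ℕ) (hk : k < L.length)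
    (hj : j < n) : (rows L)[k * (n + 1) + j]? = some (some (decide ((⟨j, hj⟩ : Fin n) ∈ L[k]))) := by
  induction L generalizing k with
  | nil => simp at hk
  | cons T L ih =>
    have h : rows (T :: L) =
        (List.ofFn (fun i : Fin n => some (decide (i ∈ T))) ++ [none]) ++ rows L := by
      simp [rows]
    have hl : (List.ofFn (fun i : Fin n => some (decide (i ∈ T))) ++ [none]).length = n + 1 := by
      simp
    rw [h]
    rcases k with _ | k
    · rw [List.getElem?_append_left (by rw [hl]; omega), List.getElem?_append_left (by simp; omega)]
      simp [hj]
    · rw [List.getElem?_append_right (by rw [hl]; nlinarith [Nat.zero_le (k * (n + 1))]), hl]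
      have e : (k + 1) * (n + 1) + j - (n + 1) = k * (n + 1) + j := by
        have : (k + 1) * (n + 1) = k * (n + 1) + (n + 1) := by ring
        omega
      rw [e, ih k (by simpa using hk)]
      simp

private theorem inputW_lt {n : ℕ} (E : List (Finset (Fin n))) (i : ℕ) (hi : i < n) :
    (inputW E)[i]? = some (some true) := by
  unfold inputW
  rw [List.getElem?_append_left (by simp; omega), List.getElem?_append_left (by simp; omega)]
  simp [hi]

private theorem inputW_n {n : ℕ} (E : List (Finset (Fin n))) : (inputW E)[n]? = some none := by
  unfold inputW
  rw [List.getElem?_append_left (by simp), List.getElem?_append_right (by simp)]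
  simp

private theorem inputW_row {n : ℕ} (E : List (Finset (Fin n))) (k j : ℕ) (hk : k < E.length)
    (hj : j < n) :
    (inputW E)[(k + 1) * (n + 1) + j]? = some (some (decide ((⟨j, hj⟩ : Fin n) ∈ E[k]))) := by
  unfold inputW
  have hl : (List.replicate n (some true) ++ [none] : List (Option Bool)).length = n + 1 := by simp
  rw [List.getElem?_append_right (by rw [hl]; nlinarith [Nat.zero_le (k * (n + 1))]), hl]
  have e : (k + 1) * (n + 1) + j - (n + 1) = k * (n + 1) + j := by
    have : (k + 1) * (n + 1) = k * (n + 1) + (n + 1) := by ring
    omega
  rw [e]
  exact rows_getElem? E k j hk hj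

open Classical in
private theorem mu_eq (m n : ℕ) (Q : ℕ → Prop) (hn : n < m) (hQ : Q n) (h : ∀ i < n, ¬ Q i) :
    PT.mu m Q = n := by
  unfold PT.mu
  have hex : ∃ i, i < m ∧ Q i := ⟨n, hn, hQ⟩
  rw [dif_pos hex]
  apply le_antisymm
  · exact Nat.find_min' hex ⟨hn, hQ⟩
  · by_contra hlt
    exact h _ (not_le.1 hlt) (Nat.find_spec hex).2

private theorem parseN_spec {n : ℕ} (E : List (Finset (Fin n))) :
    parseN ((inputW E).flatMap cod) = n := by
  unfold parseN
  have hlen : ((inputW E).flatMap cod).length = 2 * ((n + 1) * (E.length + 1)) := by
    rw [length_flatMap_cod, length_inputW]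
  apply mu_eq
  · rw [hlen]
    nlinarith [Nat.zero_le (n * E.length)]
  · rw [getD_cod_even, inputW_n]
    rfl
  · intro m hm h2
    rw [getD_cod_even, inputW_lt E m hm] at h2
    simp at h2

theorem parse_spec {n : ℕ} (E : List (Finset (Fin n))) :
    parse ((inputW E).flatMap cod) = (n, E.map vec) := by
  unfold parse
  rw [parseN_spec, length_flatMap_cod, length_inputW]
  have e : 2 * ((n + 1) * (E.length + 1)) / 2 / (n + 1) - 1 = E.length := by
    rw [Nat.mul_div_cancel_left _ (by norm_num), Nat.mul_div_cancel_left _ (Nat.succ_pos n)]
    simp
  rw [e]
  congr 1
  apply List.ext_getElem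
  · simp
  · intro k h1 h2
    have hk : k < E.length := by simpa using h1
    rw [List.getElem_map, List.getElem_range, List.getElem_map]
    unfold vec
    apply List.ext_getElem
    · simp
    · intro j h3 h4
      have hj : j < n := by simpa using h3
      rw [List.getElem_map, List.getElem_range, List.getElem_ofFn, getD_cod_odd,
        inputW_row E k j hk hj]
      rfl

theorem out_spec {n : ℕ} (E : List (List Bool)) (L : List (Finset (Fin n))) (r : ℕ × Bool) :
    (outS ((n, E), (L.map vec, r))).w = (rows L).flatMap cod := by
  unfold outS
  simp only
  induction L with
  | nil => simp [rows]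
  | cons T L ih =>
    have h : rows (T :: L) =
        (List.ofFn (fun i : Fin n => some (decide (i ∈ T))) ++ [none]) ++ rows L := by
      simp [rows]
    have h1 : List.ofFn (fun i : Fin n => some (decide (i ∈ T))) = (vec T).map some := by
      unfold vec
      rw [List.map_ofFn]
      rfl
    have h2 : ((vec T).map some).flatMap cod = (vec T).flatMap (fun b => [true, b]) := by
      rw [List.flatMap_map]
      rfl
    have h3 : ([none] : List (Option Bool)).flatMap cod = [false, false] := by
      simp [cod]
    rw [h, h1, List.flatMap_append, List.flatMap_append, ← ih, List.map_cons, List.flatMap_cons, h2,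
      h3]

end Pool.Agent.Helper81.VCP
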