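import Mathlib
import Pool.Agent.Helper68.PT.Ext2
import Pool.Agent.Helper81.VCP.Defs

/-!
# VCP-W1: programs on the six Boolean stacks and two more stacks over `Option Bool`
(Helper68.SP, Helper36.PT.Base; 60-100 lines)

`emb p` is the program `p` acting on the first six stacks. `exec_emb`: induction on the execution; the
only point is `Function.update (st2 S I O) (Sum.inl k) y = st2 (Function.update S k y) I O`.
`evals_of_exec`: extract it from the proof of `polytime_of_exec` in `Pool.Agent.Helper68.SP`
(`Exec p S n S'` with input only on `k₀` and output only on `k₁` gives `n + 1` steps of the machine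
`machine k₀ k₁ p`): the statement here is about one single run.
-/

set_option autoImplicit false

namespace Pool.Agent.Helper81.VCP

open Pool.Agent.Helper68.SP Pool.Agent.Helper36.PT

/-- The alphabets of the stacks: the six Boolean ones, input (`inr false`) and output (`inr true`). -/
@[reducible] def Γ2 : Stk ⊕ Bool → Type
  | .inl _ => Bool
  | .inr _ => Option Bool

/-- A program acting on the Boolean stacks. -/
def emb : Prog Γ → Prog Γ2
  | .skip => .skip
  | .push k a => .push (.inl k) a
  | .pop k => .pop (.inl k)
  | .seq p q => .seq (emb p) (emb q)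
  | .ite k t p q => .ite (.inl k) t (emb p) (emb q)
  | .whl k t p => .whl (.inl k) t (emb p)

/-- The state of the eight stacks. -/
def st2 (S : St) (I O : List (Option Bool)) : ∀ k, List (Γ2 k)
  | .inl k => S k
  | .inr false => I
  | .inr true => O

theorem update_st2_inl (S : St) (I O : List (Option Bool)) (k : Stk) (y : List Bool) :
    Function.update (st2 S I O) (Sum.inl k) y = st2 (Function.update S k y) I O := by
  funext j
  rcases j with j | j
  · by_cases h : j = k
    · subst h
      rw [Function.update_self]
      change y = Function.update S j y j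
      rw [Function.update_self]
    · rw [Function.update_of_ne (fun e => h (Sum.inl.inj e))]
      change S j = Function.update S k y j
      rw [Function.update_of_ne h]
  · rw [Function.update_of_ne (by simp : (Sum.inr j : Stk ⊕ Bool) ≠ Sum.inl k)]
    cases j <;> rfl

theorem update_st2_in (S : St) (I O y : List (Option Bool)) :
    Function.update (st2 S I O) (Sum.inr false) y = st2 S y O := by
  funext j
  rcases j with j | j
  · rw [Function.update_of_ne (by simp : (Sum.inl j : Stk ⊕ Bool) ≠ Sum.inr false)]
    rfl
  · cases j
    · rw [Function.update_self]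
      rfl
    · rw [Function.update_of_ne (by simp : (Sum.inr true : Stk ⊕ Bool) ≠ Sum.inr false)]
      rfl

theorem update_st2_out (S : St) (I O y : List (Option Bool)) :
    Function.update (st2 S I O) (Sum.inr true) y = st2 S I y := by
  funext j
  rcases j with j | j
  · rw [Function.update_of_ne (by simp : (Sum.inl j : Stk ⊕ Bool) ≠ Sum.inr true)]
    rfl
  · cases j
    · rw [Function.update_of_ne (by simp : (Sum.inr false : Stk ⊕ Bool) ≠ Sum.inr true)]
      rfl
    · rw [Function.update_self]
      rfl

theorem exec_emb {p : Prog Γ} {S S' : St} {m : ℕ} (h : Exec p S m S')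
    (I O : List (Option Bool)) : Exec (emb p) (st2 S I O) m (st2 S' I O) := by
  induction h with
  | skip S => exact Exec.skip _
  | push k a S =>
    rw [← update_st2_inl]
    exact Exec.push (Γ := Γ2) (Sum.inl k) a (st2 S I O)
  | pop k S =>
    rw [← update_st2_inl]
    exact Exec.pop (Γ := Γ2) (Sum.inl k) (st2 S I O)
  | seq p q S S' S'' n m h1 h2 ih1 ih2 => exact Exec.seq _ _ _ _ _ _ _ ih1 ih2
  | ite_true k t p q S S' n ht h ih =>
    exact Exec.ite_true (Γ := Γ2) (Sum.inl k) t _ _ _ _ _ ht ih
  | ite_false k t p q S S' n ht h ih =>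
    exact Exec.ite_false (Γ := Γ2) (Sum.inl k) t _ _ _ _ _ ht ih
  | whl_true k t p S S' S'' n m ht h1 h2 ih1 ih2 =>
    exact Exec.whl_true (Γ := Γ2) (Sum.inl k) t _ _ _ _ _ _ ht ih1 ih2
  | whl_false k t p S ht =>
    exact Exec.whl_false (Γ := Γ2) (Sum.inl k) t _ _ ht

/-- One run of the machine of a program. -/
theorem evals_of_exec {K : Type} [DecidableEq K] {Γ' : K → Type} [Fintype K] (k₀ k₁ : K)
    [Fintype (Γ' k₀)] (p : Prog Γ') (u : List (Γ' k₀)) (v : List (Γ' k₁)) (m : ℕ)
    (h : Exec p (Function.update (fun _ => []) k₀ u) m (Function.update (fun _ => []) k₁ v)) :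
    Nonempty (Turing.EvalsToInTime (machine k₀ k₁ p).step
      (Turing.initList (machine k₀ k₁ p) u) (some (Turing.haltList (machine k₀ k₁ p) v))
      (m + 1)) := by
  classical
  obtain ⟨v', hs⟩ := sim (machine k₀ k₁ p).m h some none (fun l => rfl) false
  refine ⟨⟨⟨m + 1, ?_⟩, le_rfl⟩⟩
  have e1 : Turing.initList (machine k₀ k₁ p) u =
      (⟨some (some (entry p)), false, Function.update (fun _ => []) k₀ u⟩ :
        Turing.TM2.Cfg Γ' (Option (Lbl p)) Bool) := by
    unfold Turing.initList
    congr 1
    exact dite_update _ Γ' k₀ u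
  have e2 : Turing.haltList (machine k₀ k₁ p) v =
      (⟨none, false, Function.update (fun _ => []) k₁ v⟩ :
        Turing.TM2.Cfg Γ' (Option (Lbl p)) Bool) := by
    unfold Turing.haltList
    congr 1
    exact dite_update _ Γ' k₁ v
  have hs2 := hs.trans (Steps.one (m := (machine k₀ k₁ p).m) (l := (none : Option (Lbl p)))
    (v := v') (S := Function.update (fun _ => []) k₁ v)
    (c' := ⟨none, false, Function.update (fun _ => []) k₁ v⟩) (by
      simp [machine, Turing.TM2.stepAux]))
  unfold Steps at hs2
  change (flip bind (Turing.TM2.step (machine k₀ k₁ p).m))^[m + 1]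
    (some (Turing.initList (machine k₀ k₁ p) u)) =
    some (Turing.haltList (machine k₀ k₁ p) v)
  rw [e1, e2]
  exact hs2

end Pool.Agent.Helper81.VCP
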