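import Mathlib
import Pool.Agent.Helper68.PT.Ext2
import Pool.Agent.Helper81.VCP.Defs
import Pool.Agent.Helper81.VCP.W1

/-!
# VCP-W2: reading the input and writing the output (uses W1; 120-180 lines)

`fr w` is `w` with `true` before every letter, followed by `false` (top of the stack first).
Reading: we need `fr (u.flatMap cod)` on `x`, `cod none = [false, false]`, `cod (some b) = [true, b]`.
`readI`: push `false` on `a`; while the input stack is not empty: if the top is `none`, pop it and push on
`a` (in this order) `false, true, false, true`; if it is `some b`: pop it and push `true, true, b, true`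
(i.e. the letter and then the mark `true`, for the two letters); then the stack `a` is
`fr (reverse of the word)`, and `mvF .a .x` (embedded; `exec_mvF` in the PT library) reverses it to `x`.
Writing: `mvF .x .a` gives `fr (reversed word)` on `a`; the reversed word is the concatenation of
`[b, true]` for `some b` and `[false, false]` for `none`, in reversed order of the symbols; pop the mark
and the letter `b`, pop the mark and the letter `c` (`c = true` iff the symbol is `some b`), and push the
symbol on the output stack; stop at the end mark `false` and pop it.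
Time: linear. See `exec_inF`, `exec_outF` in `Pool.Agent.Helper68.PT.A3` for the model.
-/

set_option autoImplicit false

namespace Pool.Agent.Helper81.VCP

open Pool.Agent.Helper68.SP Pool.Agent.Helper36.PT

/-! ### Executions with a bound for the number of steps -/

/-- Execution with a bound on the number of steps. -/
def W2XL (p : Prog Γ2) (S : ∀ k, List (Γ2 k)) (n : ℕ) (S' : ∀ k, List (Γ2 k)) : Prop :=
  ∃ m ≤ n, Exec p S m S'

theorem W2XL.mono {p : Prog Γ2} {S S' : ∀ k, List (Γ2 k)} {n m : ℕ} (h : W2XL p S n S')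
    (hm : n ≤ m) : W2XL p S m S' := by
  obtain ⟨k, hk, hx⟩ := h
  exact ⟨k, hk.trans hm, hx⟩

theorem W2XL.seq {p q : Prog Γ2} {S S' S'' : ∀ k, List (Γ2 k)} {n m : ℕ} (h1 : W2XL p S n S')
    (h2 : W2XL q S' m S'') : W2XL (.seq p q) S (n + m) S'' := by
  obtain ⟨k, hk, hx⟩ := h1
  obtain ⟨l, hl, hy⟩ := h2
  exact ⟨k + l, by omega, .seq _ _ _ _ _ _ _ hx hy⟩

theorem W2XL.ite_true {k : Stk ⊕ Bool} {t : Option (Γ2 k) → Bool} {p q : Prog Γ2}
    {S S' : ∀ k, List (Γ2 k)} {n : ℕ} (ht : t (S k).head? = true) (h : W2XL p S n S') :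
    W2XL (.ite k t p q) S (n + 1) S' := by
  obtain ⟨l, hl, hy⟩ := h
  exact ⟨l + 1, by omega, .ite_true _ _ _ _ _ _ _ ht hy⟩

theorem W2XL.ite_false {k : Stk ⊕ Bool} {t : Option (Γ2 k) → Bool} {p q : Prog Γ2}
    {S S' : ∀ k, List (Γ2 k)} {n : ℕ} (ht : t (S k).head? = false) (h : W2XL q S n S') :
    W2XL (.ite k t p q) S (n + 1) S' := by
  obtain ⟨l, hl, hy⟩ := h
  exact ⟨l + 1, by omega, .ite_false _ _ _ _ _ _ _ ht hy⟩

theorem W2XL.whl_step {k : Stk ⊕ Bool} {t : Option (Γ2 k) → Bool} {p : Prog Γ2}
    {S S' S'' : ∀ k, List (Γ2 k)} {n m : ℕ} (ht : t (S k).head? = true) (h1 : W2XL p S n S')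
    (h2 : W2XL (.whl k t p) S' m S'') : W2XL (.whl k t p) S (n + m + 1) S'' := by
  obtain ⟨n', hn, x1⟩ := h1
  obtain ⟨m', hm, x2⟩ := h2
  exact ⟨n' + m' + 1, by omega, .whl_true _ _ _ _ _ _ _ _ ht x1 x2⟩

theorem W2XL.whl_done {k : Stk ⊕ Bool} {t : Option (Γ2 k) → Bool} {p : Prog Γ2}
    {S : ∀ k, List (Γ2 k)} (ht : t (S k).head? = false) : W2XL (.whl k t p) S 1 S :=
  ⟨1, le_rfl, .whl_false _ _ _ _ ht⟩

theorem W2XL.emb {p : P} {S S' : St} {n : ℕ} (h : ExecLe p S n S') (I O : List (Option Bool)) :
    W2XL (emb p) (st2 S I O) n (st2 S' I O) := by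
  obtain ⟨m, hm, hx⟩ := h
  exact ⟨m, hm, exec_emb hx I O⟩

section

variable {i x r a b o : List Bool} {I O : List (Option Bool)}

theorem W2XL.pushA (c : Bool) :
    W2XL (.push (Sum.inl .a) c) (st2 (st i x r a b o) I O) 1
      (st2 (st i x r (c :: a) b o) I O) := by
  refine ⟨1, le_rfl, ?_⟩
  have h := Exec.push (Γ := Γ2) (Sum.inl Stk.a) c (st2 (st i x r a b o) I O)
  rw [update_st2_inl] at h
  have e : (st2 (st i x r a b o) I O) (Sum.inl Stk.a) = a := rfl
  rw [e, upd_a] at h
  exact h

theorem W2XL.popA :
    W2XL (.pop (Sum.inl .a)) (st2 (st i x r a b o) I O) 1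
      (st2 (st i x r a.tail b o) I O) := by
  refine ⟨1, le_rfl, ?_⟩
  have h := Exec.pop (Γ := Γ2) (Sum.inl Stk.a) (st2 (st i x r a b o) I O)
  rw [update_st2_inl] at h
  have e : (st2 (st i x r a b o) I O) (Sum.inl Stk.a) = a := rfl
  rw [e, upd_a] at h
  exact h

theorem W2XL.popIn :
    W2XL (.pop (Sum.inr false)) (st2 (st i x r a b o) I O) 1
      (st2 (st i x r a b o) I.tail O) := by
  refine ⟨1, le_rfl, ?_⟩
  have h := Exec.pop (Γ := Γ2) (Sum.inr false) (st2 (st i x r a b o) I O)
  rw [update_st2_in] at h
  exact h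

theorem W2XL.pushOut (c : Option Bool) :
    W2XL (.push (Sum.inr true) c) (st2 (st i x r a b o) I O) 1
      (st2 (st i x r a b o) I (c :: O)) := by
  refine ⟨1, le_rfl, ?_⟩
  have h := Exec.push (Γ := Γ2) (Sum.inr true) c (st2 (st i x r a b o) I O)
  rw [update_st2_out] at h
  exact h

end

/-- Push four symbols on `a`. -/
def w2push4 (c1 c2 c3 c4 : Bool) : Prog Γ2 :=
  .seq (.push (.inl .a) c1) (.seq (.push (.inl .a) c2)
    (.seq (.push (.inl .a) c3) (.push (.inl .a) c4)))

theorem w2push4_spec (c1 c2 c3 c4 : Bool) {i x r a b o : List Bool} {I O : List (Option Bool)} :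
    W2XL (w2push4 c1 c2 c3 c4) (st2 (st i x r a b o) I O) 4
      (st2 (st i x r (c4 :: c3 :: c2 :: c1 :: a) b o) I O) :=
  ((W2XL.pushA c1).seq ((W2XL.pushA c2).seq ((W2XL.pushA c3).seq (W2XL.pushA c4)))).mono
    (by omega)

/-- Is there a symbol? -/
def w2isS (c : Option (Option Bool)) : Bool := c.isSome

/-- Is the symbol `none`? -/
def w2isN (c : Option (Option Bool)) : Bool := c == some none

/-- Is the symbol `some true`? -/
def w2isT (c : Option (Option Bool)) : Bool := c == some (some true)

/-- The body of the reading loop. -/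
def w2body : Prog Γ2 :=
  .ite (.inr false) w2isN (.seq (.pop (.inr false)) (w2push4 false true false true))
    (.ite (.inr false) w2isT (.seq (.pop (.inr false)) (w2push4 true true true true))
      (.seq (.pop (.inr false)) (w2push4 true true false true)))

/-- The reading loop. -/
def w2loop : Prog Γ2 := .whl (.inr false) w2isS w2body

theorem w2body_spec (s : Option Bool) (I : List (Option Bool)) (l : List Bool) :
    W2XL w2body (st2 (st [] [] [] (fr l) [] []) (s :: I) []) 7
      (st2 (st [] [] [] (fr ((cod s).reverse ++ l)) [] []) I []) := by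
  cases s with
  | none =>
    refine (W2XL.ite_true (by rfl) (W2XL.popIn.seq (w2push4_spec _ _ _ _))).mono (by omega)
  | some c =>
    cases c with
    | true =>
      refine (W2XL.ite_false (by rfl) (W2XL.ite_true (by rfl)
        (W2XL.popIn.seq (w2push4_spec _ _ _ _)))).mono (by omega)
    | false =>
      refine (W2XL.ite_false (by rfl) (W2XL.ite_false (by rfl)
        (W2XL.popIn.seq (w2push4_spec _ _ _ _)))).mono (by omega)

theorem w2loop_spec (u : List (Option Bool)) : ∀ l : List Bool,
    W2XL w2loop (st2 (st [] [] [] (fr l) [] []) u []) (8 * u.length + 1)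
      (st2 (st [] [] [] (fr ((u.flatMap cod).reverse ++ l)) [] []) [] []) := by
  induction u with
  | nil =>
    intro l
    exact (W2XL.whl_done rfl).mono (by simp)
  | cons s u ih =>
    intro l
    have h := W2XL.whl_step (k := Sum.inr false) (t := w2isS) (p := w2body) (by rfl)
      (w2body_spec s u l) (ih ((cod s).reverse ++ l))
    have e : ((s :: u).flatMap cod).reverse ++ l =
        (u.flatMap cod).reverse ++ ((cod s).reverse ++ l) := by
      rw [List.flatMap_cons, List.reverse_append, List.append_assoc]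
    rw [e]
    exact h.mono (by rw [List.length_cons]; omega)

theorem w2len_cod (u : List (Option Bool)) : (u.flatMap cod).length = 2 * u.length := by
  induction u with
  | nil => rfl
  | cons s u ih =>
    rw [List.flatMap_cons, List.length_append, ih, List.length_cons]
    have : (cod s).length = 2 := by cases s <;> rfl
    omega

theorem exists_readI : ∃ p : Prog Γ2, ∃ C : ℕ, ∀ u : List (Option Bool),
    ∃ m ≤ C * (u.length + 1),
      Exec p (st2 (st [] [] [] [] [] []) u []) m
        (st2 (st [] (fr (u.flatMap cod)) [] [] [] []) [] []) := by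
  refine ⟨.seq (.push (.inl .a) false) (.seq w2loop (emb (mvF .a .x))), 30, fun u => ?_⟩
  have h0 : W2XL (.push (Sum.inl .a) false) (st2 (st [] [] [] [] [] []) u []) 1
      (st2 (st [] [] [] (fr []) [] []) u []) := W2XL.pushA false
  have h1 := w2loop_spec u []
  rw [List.append_nil] at h1
  have h2 := exec_mvF .a .x (by decide) (u.flatMap cod).reverse
    (st [] [] [] (fr (u.flatMap cod).reverse) [] []) [] (by simp only [st_a, List.append_nil])
  simp only [upd_a, upd_x, st_x, List.reverse_reverse, List.append_nil] at h2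
  have h3 := W2XL.emb h2 [] []
  refine (h0.seq (h1.seq h3)).mono ?_
  rw [List.length_reverse, w2len_cod]
  omega

/-- The body of the writing loop. -/
def w2wbody : Prog Γ2 :=
  .seq (.pop (.inl .a)) (.ite (.inl .a) isT
    (.seq (.pop (.inl .a)) (.seq (.pop (.inl .a)) (.seq (.pop (.inl .a))
      (.push (.inr true) (some true)))))
    (.seq (.pop (.inl .a)) (.seq (.pop (.inl .a)) (.ite (.inl .a) isT
      (.seq (.pop (.inl .a)) (.push (.inr true) (some false)))
      (.seq (.pop (.inl .a)) (.push (.inr true) none))))))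

/-- The writing loop. -/
def w2wloop : Prog Γ2 := .whl (.inl .a) isT w2wbody

theorem w2wbody_spec (s : Option Bool) (O : List (Option Bool)) (l : List Bool) :
    W2XL w2wbody (st2 (st [] [] [] (fr ((cod s).reverse ++ l)) [] []) [] O) 8
      (st2 (st [] [] [] (fr l) [] []) [] (s :: O)) := by
  cases s with
  | none =>
    refine (W2XL.popA.seq (W2XL.ite_false (by rfl) (W2XL.popA.seq (W2XL.popA.seq
      (W2XL.ite_false (by rfl) (W2XL.popA.seq (W2XL.pushOut none))))))).mono (by omega)
  | some c =>
    cases c with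
    | true =>
      refine (W2XL.popA.seq (W2XL.ite_true (by rfl) (W2XL.popA.seq (W2XL.popA.seq
        (W2XL.popA.seq (W2XL.pushOut (some true))))))).mono (by omega)
    | false =>
      refine (W2XL.popA.seq (W2XL.ite_false (by rfl) (W2XL.popA.seq (W2XL.popA.seq
        (W2XL.ite_true (by rfl) (W2XL.popA.seq (W2XL.pushOut (some false)))))))).mono (by omega)

theorem w2wloop_spec (w : List (Option Bool)) : ∀ O : List (Option Bool),
    W2XL w2wloop (st2 (st [] [] [] (fr (w.flatMap fun s => (cod s).reverse)) [] []) [] O)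
      (9 * w.length + 1)
      (st2 (st [] [] [] (fr []) [] []) [] (w.reverse ++ O)) := by
  induction w with
  | nil =>
    intro O
    exact (W2XL.whl_done rfl).mono (by simp)
  | cons s w ih =>
    intro O
    have ht : isT ((st2 (st [] [] [] (fr ((cod s).reverse ++
        w.flatMap fun s => (cod s).reverse)) [] []) [] O) (Sum.inl .a)).head? = true := by
      cases s <;> rfl
    have h := W2XL.whl_step (k := Sum.inl .a) (t := isT) (p := w2wbody) ht
      (w2wbody_spec s O (w.flatMap fun s => (cod s).reverse)) (ih (s :: O))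
    rw [List.flatMap_cons, List.reverse_cons, List.append_assoc]
    exact h.mono (by rw [List.length_cons]; omega)

theorem exists_writeO : ∃ p : Prog Γ2, ∃ C : ℕ, ∀ v : List (Option Bool),
    ∃ m ≤ C * (v.length + 1),
      Exec p (st2 (st [] (fr (v.flatMap cod)) [] [] [] []) [] []) m
        (st2 (st [] [] [] [] [] []) [] v) := by
  refine ⟨.seq (emb (mvF .x .a)) (.seq w2wloop (.pop (.inl .a))), 30, fun v => ?_⟩
  have h0 := exec_mvF .x .a (by decide) (v.flatMap cod)
    (st [] (fr (v.flatMap cod)) [] [] [] []) [] (by simp only [st_x, List.append_nil])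
  simp only [upd_a, upd_x, st_a, List.append_nil] at h0
  have h1 := W2XL.emb h0 [] []
  have e : (v.flatMap cod).reverse = v.reverse.flatMap fun s => (cod s).reverse := by
    rw [List.reverse_flatMap]
    rfl
  rw [e] at h1
  have h2 := w2wloop_spec v.reverse []
  rw [List.append_nil, List.reverse_reverse] at h2
  have h3 : W2XL (.pop (Sum.inl .a)) (st2 (st [] [] [] (fr []) [] []) [] v) 1
      (st2 (st [] [] [] [] [] []) [] v) := W2XL.popA
  refine (h1.seq (h2.seq h3)).mono ?_
  rw [List.length_reverse, w2len_cod]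
  omega

end Pool.Agent.Helper81.VCP
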