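import Mathlib
import Pool.Agent.Helper68.PT.Ext2
import Pool.Agent.Helper81.VCP.Defs

/-!
# VCP-W3: a while loop over a polynomial time step (PT library; 80-140 lines)

`σ` is an encoded type, `init`, `step`, `done`, `out` are polynomial time. The program: run `init`; then
`FLAG`; then `while the stack inp has top true do (pop inp; step; FLAG)`; then `out`. `FLAG` = duplicate
the top frame (`dupF`), run `done` on the copy (it becomes the frame of `[b]`), `caseF`: for `b = true`
`dropF` (only the empty frame is left, `caseF` deletes the letter), for `b = false` `dropF` and push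
`true` on the stack `inp`. The `Does` statements hold for arbitrary contents of `inp`, `out`, `r`, so the
stack `inp` can be used for the flag; it is empty at the beginning and at the end. `PolyTime.out` gives
programs and bounds.
Time: every iteration takes at most `(B + 2)^c'` steps, `B` a bound for the sizes of all the states; the
last application of `out` at most `(B + 2)^c'`; `init` at most `(w.length + 2)^c'`.
The frame of the word `w` is the encoding frame of `(⟨w⟩ : Word)`.
-/

set_option autoImplicit false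

namespace Pool.Agent.Helper81.VCP

open Pool.Agent.Helper68.SP Pool.Agent.Helper36.PT

/-- The flag program. -/
def flagP (pd : P) : P :=
  .seq dupF (.seq pd (caseF .skip (.seq dropF (.push .inp true)) dropF))

/-- The contents of the stack `inp` after the flag program. -/
def flagL (c : Bool) : List Bool := bif c then [] else [true]

theorem exec_flagP {σ : Type} [Enc σ] {done : σ → Bool} {pd : P} {dd : ℕ}
    (h : ∀ (a : σ) (X : List Bool),
      Does pd (fr (enc a) ++ X) ((esz a + 2) ^ dd) (fr (enc (done a)) ++ X))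
    (s : σ) (B : ℕ) (hB : esz s ≤ B) (r o : List Bool) :
    ExecLe (flagP pd) (st [] (fr (enc s)) r [] [] o) (40 * B + 60 + (B + 2) ^ dd)
      (st (flagL (done s)) (fr (enc s)) r [] [] o) := by
  have hp : (esz s + 2) ^ dd ≤ (B + 2) ^ dd := Nat.pow_le_pow_left (by omega) dd
  have hB' : (enc s).length ≤ B := hB
  have h1 : ExecLe dupF (st [] (fr (enc s)) r [] [] o) (40 * (enc s).length + 40)
      (st [] (fr (enc s) ++ fr (enc s)) r [] [] o) := by
    have := does_dupF (w := enc s) (X := []) [] r o
    simpa only [List.append_nil] using this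
  have h2 := h s (fr (enc s)) [] r o
  cases hd : done s with
  | true =>
    rw [hd] at h2
    have h3 : Does (caseF .skip (.seq dropF (.push .inp true)) dropF)
        (fr (enc true) ++ fr (enc s)) (4 * ([] : List Bool).length + 4 + 4) (fr (enc s)) :=
      does_caseF_true does_dropF
    have h4 := h3 [] r o
    refine (h1.seq (h2.seq h4)).mono ?_
    simp only [List.length_nil]
    omega
  | false =>
    rw [hd] at h2
    have h4 : ExecLe (caseF .skip (.seq dropF (.push .inp true)) dropF)
        (st [] (fr (enc false) ++ fr (enc s)) r [] [] o) 12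
        (st [true] (fr (enc s)) r [] [] o) := by
      have k1 := ExecLe.pop .x (st [] (fr (enc false) ++ fr (enc s)) r [] [] o)
      simp only [upd_x, st_x] at k1
      have k2 := ExecLe.pop .x (st [] ((fr (enc false) ++ fr (enc s)).tail) r [] [] o)
      simp only [upd_x, st_x] at k2
      have k3 : ExecLe dropF (st [] ((fr (enc false) ++ fr (enc s)).tail.tail) r [] [] o)
          (4 * ([] : List Bool).length + 4) (st [] (fr (enc s)) r [] [] o) :=
        does_dropF (w := []) (X := fr (enc s)) [] r o
      have k4 := ExecLe.push .inp true (st [] (fr (enc s)) r [] [] o)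
      simp only [upd_inp, st_inp] at k4
      refine (ExecLe.ite_true rfl (k1.seq (ExecLe.ite_false rfl
        (k2.seq (k3.seq k4))))).mono ?_
      simp only [List.length_nil]
      omega
    refine (h1.seq (h2.seq h4)).mono ?_
    omega

theorem exec_loopP {σ : Type} [Enc σ] {step : σ → σ} {done : σ → Bool} {ps pd : P} {ds dd : ℕ}
    (hs : ∀ (a : σ) (X : List Bool),
      Does ps (fr (enc a) ++ X) ((esz a + 2) ^ ds) (fr (enc (step a)) ++ X))
    (h : ∀ (a : σ) (X : List Bool),
      Does pd (fr (enc a) ++ X) ((esz a + 2) ^ dd) (fr (enc (done a)) ++ X))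
    (B : ℕ) (r o : List Bool) : ∀ (m : ℕ) (s : σ),
    (∀ j < m, done (step^[j] s) = false) → done (step^[m] s) = true →
    (∀ j ≤ m, esz (step^[j] s) ≤ B) →
    ExecLe (.whl .inp isT (.seq (.pop .inp) (.seq ps (flagP pd))))
      (st (flagL (done s)) (fr (enc s)) r [] [] o)
      (m * (40 * B + 62 + (B + 2) ^ dd + (B + 2) ^ ds) + 1)
      (st [] (fr (enc (step^[m] s))) r [] [] o) := by
  intro m
  induction m with
  | zero =>
    intro s _ hd _
    have hd' : done s = true := hd
    rw [hd']
    exact (ExecLe.whl_done rfl).mono (by omega)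
  | succ m ih =>
    intro s hf hd hB
    have hf0 : done s = false := hf 0 (Nat.succ_pos m)
    have hB0 : esz s ≤ B := hB 0 (Nat.zero_le _)
    have hB1 : esz (step s) ≤ B := hB 1 (by omega)
    have hstep := ih (step s) (fun j hj => hf (j + 1) (by omega)) hd
      (fun j hj => hB (j + 1) (by omega))
    rw [hf0]
    have k1 := ExecLe.pop .inp (st [true] (fr (enc s)) r [] [] o)
    simp only [upd_inp, st_inp] at k1
    have k2 : ExecLe ps (st [] (fr (enc s)) r [] [] o) ((B + 2) ^ ds)
        (st [] (fr (enc (step s))) r [] [] o) := by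
      have := (hs s []).mono (Nat.pow_le_pow_left (by omega : esz s + 2 ≤ B + 2) ds) [] r o
      simpa only [List.append_nil] using this
    have k3 := exec_flagP h (step s) B hB1 r o
    refine (ExecLe.whl_step rfl (k1.seq (k2.seq k3)) hstep).mono ?_
    have e : (m + 1) * (40 * B + 62 + (B + 2) ^ dd + (B + 2) ^ ds) =
        m * (40 * B + 62 + (B + 2) ^ dd + (B + 2) ^ ds) +
          (40 * B + 62 + (B + 2) ^ dd + (B + 2) ^ ds) := by ring
    rw [e]
    omega

theorem exists_loop {σ : Type} [Enc σ] (init : Word → σ) (step : σ → σ) (done : σ → Bool)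
    (out : σ → Word) (hi : PolyTime init) (hs : PolyTime step) (hd : PolyTime done)
    (ho : PolyTime out) :
    ∃ (p : P) (c : ℕ), ∀ (w : List Bool) (k B : ℕ),
      (∀ j < k, done (step^[j] (init ⟨w⟩)) = false) →
      done (step^[k] (init ⟨w⟩)) = true →
      (∀ j ≤ k, esz (step^[j] (init ⟨w⟩)) ≤ B) →
      ExecLe p (st [] (fr w) [] [] [] []) ((w.length + k + B + 2) ^ c)
        (st [] (fr (out (step^[k] (init ⟨w⟩))).w) [] [] [] []) := by
  obtain ⟨pi, di, hpi⟩ := hi
  obtain ⟨ps, ds, hps⟩ := hs
  obtain ⟨pd, dd, hpd⟩ := hd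
  obtain ⟨po, d0, hpo⟩ := ho
  refine ⟨.seq pi (.seq (flagP pd)
    (.seq (.whl .inp isT (.seq (.pop .inp) (.seq ps (flagP pd)))) po)),
    di + ds + dd + d0 + 1 + 8, ?_⟩
  intro w k B hf hk hB
  have k1 : ExecLe pi (st [] (fr w) [] [] [] []) ((w.length + 2) ^ di)
      (st [] (fr (enc (init ⟨w⟩))) [] [] [] []) := by
    have := hpi ⟨w⟩ [] [] [] []
    rw [List.append_nil, List.append_nil] at this
    exact this
  have k2 := exec_flagP hpd (init ⟨w⟩) B (hB 0 (Nat.zero_le _)) [] []
  have k3 := exec_loopP hps hpd B [] [] k (init ⟨w⟩) hf hk hB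
  have k4 : ExecLe po (st [] (fr (enc (step^[k] (init ⟨w⟩)))) [] [] [] []) ((B + 2) ^ d0)
      (st [] (fr (out (step^[k] (init ⟨w⟩))).w) [] [] [] []) := by
    have := (hpo (step^[k] (init ⟨w⟩)) []).mono
      (Nat.pow_le_pow_left (Nat.add_le_add_right (hB k le_rfl) 2) d0) [] [] []
    rw [List.append_nil, List.append_nil] at this
    exact this
  refine (k1.seq (k2.seq (k3.seq k4))).mono ?_
  set N := w.length + k + B + 2 with hN
  set D := di + ds + dd + d0 + 1 with hD
  have hN2 : 2 ≤ N := by omega
  have hN1 : 1 ≤ N := by omega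
  have e1 : (w.length + 2) ^ di ≤ N ^ D :=
    (Nat.pow_le_pow_left (by omega) di).trans (Nat.pow_le_pow_right hN1 (by omega))
  have e2 : (B + 2) ^ dd ≤ N ^ D :=
    (Nat.pow_le_pow_left (by omega) dd).trans (Nat.pow_le_pow_right hN1 (by omega))
  have e3 : (B + 2) ^ ds ≤ N ^ D :=
    (Nat.pow_le_pow_left (by omega) ds).trans (Nat.pow_le_pow_right hN1 (by omega))
  have e4 : (B + 2) ^ d0 ≤ N ^ D :=
    (Nat.pow_le_pow_left (by omega) d0).trans (Nat.pow_le_pow_right hN1 (by omega))
  have e5 : N ≤ N ^ D := by
    calc N = N ^ 1 := (pow_one N).symm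
      _ ≤ N ^ D := Nat.pow_le_pow_right hN1 (by omega)
  have e6 : 40 * B + 62 ≤ 62 * N := by omega
  have e7 : k * (40 * B + 62 + (B + 2) ^ dd + (B + 2) ^ ds) ≤ N * (64 * N ^ D) :=
    Nat.mul_le_mul (by omega) (by omega)
  have e8 : N ^ D ≤ N * N ^ D := Nat.le_mul_of_pos_left _ (by omega)
  have e9 : (2 : ℕ) ^ 7 ≤ N ^ 7 := Nat.pow_le_pow_left hN2 7
  have e10 : 1 ≤ N ^ D := Nat.one_le_pow _ _ (by omega)
  have e11 : (w.length + 2) ^ di + (40 * B + 60 + (B + 2) ^ dd +
      (k * (40 * B + 62 + (B + 2) ^ dd + (B + 2) ^ ds) + 1 + (B + 2) ^ d0)) ≤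
      128 * (N * N ^ D) := by
    have : N * (64 * N ^ D) = 64 * (N * N ^ D) := by ring
    omega
  refine e11.trans ?_
  have e12 : N ^ (D + 8) = N ^ 7 * (N * N ^ D) := by ring
  rw [e12]
  exact Nat.mul_le_mul_right _ e9

end Pool.Agent.Helper81.VCP
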