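import Mathlib
import Pool.Agent.Helper68.PT.Ext2
import Pool.Agent.Helper81.VCP.Defs
import Pool.Agent.Helper81.VCP.W1
import Pool.Agent.Helper81.VCP.W2
import Pool.Agent.Helper81.VCP.W3

/-!
# VCP-W4: the machine (uses W1, W2, W3 as black boxes; 50-90 lines)

`p = seq readI (seq (emb loop) writeO)`, `k₀ = inr false`, `k₁ = inr true`, machine `machine k₀ k₁ p`,
`eIn`, `eOut` the identity (`tm.Γ tm.k₀` is definitionally `Option Bool`; `Equiv.refl _`).
`Function.update (fun _ => []) (inr false) u = st2 (st [] [] [] [] [] []) u []` by cases. The word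
`u.flatMap cod` has length `2 * u.length`. Apply `exec_emb` to the execution of the loop,
`evals_of_exec`, and bound the total time by a power of `u.length + v.length + k + B + 2`.
A bound on the time may be increased: `EvalsToInTime` has a field `steps ≤ bound`.
`List.map (fun b => eIn.symm b) u = u` for `eIn = Equiv.refl _`.
-/

set_option autoImplicit false

namespace Pool.Agent.Helper81.VCP

open Pool.Agent.Helper68.SP Pool.Agent.Helper36.PT

theorem w4_empty : (fun _ => [] : ∀ k, List (Γ2 k)) = st2 (st [] [] [] [] [] []) [] [] := by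
  funext k
  rcases k with k | k
  · cases k <;> rfl
  · cases k <;> rfl

theorem w4_bound (N C x : ℕ) (hN : 2 ≤ N) (hx : x ≤ N) : C * x ≤ N ^ (C + 1) := by
  have h1 : C ≤ N ^ C := (Nat.lt_pow_self (by omega : 1 < N)).le
  calc C * x ≤ N ^ C * N := Nat.mul_le_mul h1 hx
    _ = N ^ (C + 1) := (pow_succ N C).symm

theorem loop_machine {σ : Type} [Enc σ] (init : Word → σ) (step : σ → σ) (done : σ → Bool)
    (out : σ → Word) (hi : PolyTime init) (hs : PolyTime step) (hd : PolyTime done)
    (ho : PolyTime out) :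
    ∃ tm : Turing.FinTM2, ∃ eIn : tm.Γ tm.k₀ ≃ Option Bool, ∃ eOut : tm.Γ tm.k₁ ≃ Option Bool,
      ∃ c : ℕ, ∀ (u v : List (Option Bool)) (k B : ℕ),
        (∀ j < k, done (step^[j] (init ⟨u.flatMap cod⟩)) = false) →
        done (step^[k] (init ⟨u.flatMap cod⟩)) = true →
        (out (step^[k] (init ⟨u.flatMap cod⟩))).w = v.flatMap cod →
        (∀ j ≤ k, esz (step^[j] (init ⟨u.flatMap cod⟩)) ≤ B) →
        Nonempty (Turing.EvalsToInTime tm.step
          (Turing.initList tm (List.map (fun b : Option Bool => eIn.symm b) u))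
          (some (Turing.haltList tm (List.map (fun b : Option Bool => eOut.symm b) v)))
          ((u.length + v.length + k + B + 2) ^ c)) := by
  obtain ⟨pr, Cr, hr⟩ := exists_readI
  obtain ⟨pw, Cw, hw⟩ := exists_writeO
  obtain ⟨pl, c, hl⟩ := exists_loop init step done out hi hs hd ho
  have : Fintype (Γ2 (Sum.inr false)) := inferInstanceAs (Fintype (Option Bool))
  refine ⟨machine (Sum.inr false) (Sum.inr true) (.seq pr (.seq (emb pl) pw)), Equiv.refl _,
    Equiv.refl _, 2 * c + Cr + Cw + 4, fun u v k B h1 h2 h3 h4 => ?_⟩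
  obtain ⟨m1, hm1, x1⟩ := hr u
  obtain ⟨m3, hm3, x3⟩ := hw v
  obtain ⟨m2, hm2, x2⟩ := hl (u.flatMap cod) k B h1 h2 h4
  rw [h3] at x2
  have x2' := exec_emb x2 [] []
  have x := Exec.seq _ _ _ _ _ _ _ x1 (Exec.seq _ _ _ _ _ _ _ x2' x3)
  have eu : Function.update (fun _ => [] : ∀ k, List (Γ2 k)) (Sum.inr false) u =
      st2 (st [] [] [] [] [] []) u [] := by
    rw [w4_empty, update_st2_in]
  have ev : Function.update (fun _ => [] : ∀ k, List (Γ2 k)) (Sum.inr true) v =
      st2 (st [] [] [] [] [] []) [] v := by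
    rw [w4_empty, update_st2_out]
  rw [← eu, ← ev] at x
  obtain ⟨r⟩ := evals_of_exec (Sum.inr false) (Sum.inr true) (.seq pr (.seq (emb pl) pw)) u v _ x
  have hlen : (u.flatMap cod).length = 2 * u.length := w2len_cod u
  have hbd : m1 + (m2 + m3) + 1 ≤
      (u.length + v.length + k + B + 2) ^ (2 * c + Cr + Cw + 4) := by
    set N := u.length + v.length + k + B + 2 with hN
    have hN2 : 2 ≤ N := by omega
    have b1 : m1 ≤ N ^ (Cr + 1) := hm1.trans (w4_bound N Cr _ hN2 (by omega))
    have b3 : m3 ≤ N ^ (Cw + 1) := hm3.trans (w4_bound N Cw _ hN2 (by omega))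
    have b2 : m2 ≤ N ^ (2 * c) := by
      refine hm2.trans ?_
      rw [hlen, pow_mul]
      refine Nat.pow_le_pow_left ?_ c
      nlinarith
    have hpos : 0 < N := by omega
    have c1 : N ^ (Cr + 1) ≤ N ^ (2 * c + Cr + Cw + 1) := Nat.pow_le_pow_right hpos (by omega)
    have c2 : N ^ (2 * c) ≤ N ^ (2 * c + Cr + Cw + 1) := Nat.pow_le_pow_right hpos (by omega)
    have c3 : N ^ (Cw + 1) ≤ N ^ (2 * c + Cr + Cw + 1) := Nat.pow_le_pow_right hpos (by omega)
    have c4 : 1 ≤ N ^ (2 * c + Cr + Cw + 1) := Nat.one_le_pow _ _ hpos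
    have c5 : 4 * N ^ (2 * c + Cr + Cw + 1) ≤ N ^ (2 * c + Cr + Cw + 4) := by
      have : N ^ (2 * c + Cr + Cw + 4) = N ^ 3 * N ^ (2 * c + Cr + Cw + 1) := by
        rw [← pow_add]
        congr 1
        omega
      rw [this]
      refine Nat.mul_le_mul_right _ ?_
      have : 2 ^ 3 ≤ N ^ 3 := Nat.pow_le_pow_left hN2 3
      omega
    omega
  have key : ∀ (u' v' : List (Option Bool)), u' = u → v' = v →
      Nonempty (StateTransition.EvalsToInTime
        (machine (Sum.inr false) (Sum.inr true) (.seq pr (.seq (emb pl) pw))).step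
        (Turing.initList (machine (Sum.inr false) (Sum.inr true) (.seq pr (.seq (emb pl) pw))) u')
        (some (Turing.haltList
          (machine (Sum.inr false) (Sum.inr true) (.seq pr (.seq (emb pl) pw))) v'))
        ((u.length + v.length + k + B + 2) ^ (2 * c + Cr + Cw + 4))) := by
    intro u' v' h5 h6
    subst h5 h6
    exact ⟨⟨r.toEvalsTo, r.steps_le_m.trans hbd⟩⟩
  exact key _ _ (List.map_id u) (List.map_id v)

end Pool.Agent.Helper81.VCP
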