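import Mathlib
import Pool.Agent.Helper68.PT.Ext2
import Pool.Agent.Helper81.VCP.Defs
import Pool.Agent.Helper81.VCP.PT3
import Pool.Agent.Helper81.VCP.Parse
import Pool.Agent.Helper81.VCP.W4
import Pool.Agent.Helper81.VCP.F2

/-!
# Assembly
-/

set_option autoImplicit false

namespace Pool.Agent.Helper81.VCP

open Pool.Agent.Helper36.PT

theorem bound_arith (N Q c v x y z : ℕ) (hN : 3 ≤ N) (hQ : Q ≤ N ^ (v + 2)) (hx : x ≤ N)
    (hy : y ≤ N + Q + 1) (hz : z ≤ 20 * N + 2 * (Q + 1) ^ 2) :
    (x + y + z + 2) ^ c ≤ N ^ (16 * c * (1 + v)) := by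
  have h1 : N ≤ N ^ (v + 2) := Nat.le_self_pow (by omega) N
  have hM1 : 9 ≤ N ^ (v + 2) := by
    calc 9 = 3 ^ 2 := by norm_num
      _ ≤ N ^ 2 := Nat.pow_le_pow_left hN 2
      _ ≤ N ^ (v + 2) := Nat.pow_le_pow_right (by omega) (by omega)
  have hkey : x + y + z + 2 ≤ (N ^ (v + 2)) ^ 4 := by
    generalize N ^ (v + 2) = M at hQ h1 hM1 ⊢
    have h2 : (Q + 1) ^ 2 ≤ (M + 1) ^ 2 := Nat.pow_le_pow_left (by omega) 2
    have h3 : x + y + z + 2 ≤ 2 * M ^ 2 + 27 * M + 5 := by nlinarith
    have h4 : 2 * M ^ 2 + 27 * M + 5 ≤ M ^ 3 := by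
      have h5 : 9 * M ≤ M ^ 2 := by nlinarith
      have h6 : 9 * M ^ 2 ≤ M ^ 3 := by nlinarith
      nlinarith
    exact h3.trans (h4.trans (Nat.pow_le_pow_right (by omega) (by norm_num)))
  calc (x + y + z + 2) ^ c ≤ ((N ^ (v + 2)) ^ 4) ^ c := Nat.pow_le_pow_left hkey c
    _ = N ^ ((v + 2) * 4 * c) := by rw [← pow_mul, ← pow_mul, mul_assoc]
    _ ≤ N ^ (16 * c * (1 + v)) := by
        apply Nat.pow_le_pow_right (by omega)
        nlinarith [Nat.zero_le (c * v)]

theorem main : ∃ tm : Turing.FinTM2, ∃ eIn : tm.Γ tm.k₀ ≃ Option Bool,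
    ∃ eOut : tm.Γ tm.k₁ ≃ Option Bool, ∃ c : ℕ,
      ∀ n : ℕ, ∀ E : List (Finset (Fin n)), ∃ L : List (Finset (Fin n)),
        L.Nodup ∧ (∀ T : Finset (Fin n),
          T ∈ L ↔ Minimal (fun S : Finset (Fin n) => ∀ e ∈ E, (S ∩ e).Nonempty) T) ∧
        Nonempty (Turing.EvalsToInTime tm.step
          (Turing.initList tm (List.map (fun b : Option Bool => eIn.symm b) (inputW E)))
          (some (Turing.haltList tm (List.map (fun b : Option Bool => eOut.symm b) (rows L))))
          (((inputW E).length + (rows L).length + 2) ^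
            (c * (1 + min E.toFinset.vcDim L.toFinset.vcDim)))) := by
  obtain ⟨tm, eIn, eOut, c, hm⟩ :=
    loop_machine initS stepS doneS outS initS_pt stepS_pt doneS_pt outS_pt
  refine ⟨tm, eIn, eOut, 16 * c, fun n E => ?_⟩
  obtain ⟨k, L, P, hnd, hL, hend, hnot, hk, hsz⟩ :=
    run_spec E (min E.toFinset.vcDim (TrF E).vcDim) (by
      rcases min_choice E.toFinset.vcDim (TrF E).vcDim with h | h
      · exact Or.inl (le_of_eq h.symm)
      · exact Or.inr (le_of_eq h.symm))
  have hLT : L.toFinset = TrF E := by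
    ext T
    rw [List.mem_toFinset, hL T]
    unfold TrF
    simp
  refine ⟨L, hnd, hL, ?_⟩
  rw [hLT]
  generalize min E.toFinset.vcDim (TrF E).vcDim = v at hk hsz ⊢
  have hinit : initS ⟨(inputW E).flatMap cod⟩ = ((n, E.map vec), ([], (0, false))) := by
    rw [initS, parse_spec]
  obtain ⟨tr⟩ := hm (inputW E) (rows L) k _ (by rw [hinit]; exact hnot)
    (by rw [hinit, hend]; rfl) (by rw [hinit, hend]; exact out_spec _ _ _)
    (by rw [hinit]; exact hsz)
  have hbound : ((inputW E).length + (rows L).length + k +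
      (4 * n + 2 * (E.length + L.length) * (6 * n + 1) +
          2 * ((n * (E.length + L.length) + n + 2) ^ (v + 2) + 1) ^ 2 + 6) + 2) ^ c ≤
      ((inputW E).length + (rows L).length + 2) ^ (16 * c * (1 + v)) := by
    have hlen : (inputW E).length + (rows L).length = (n + 1) * (E.length + L.length + 1) := by
      rw [length_inputW, length_rows]; ring
    have hexp : (n + 1) * (E.length + L.length + 1) =
        n * (E.length + L.length) + n + (E.length + L.length) + 1 := by ring
    apply bound_arith _ ((n * (E.length + L.length) + n + 2) ^ (v + 2)) c v _ _ _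
    · rw [hlen, hexp]; omega
    · apply Nat.pow_le_pow_left
      rw [hlen, hexp]; omega
    · omega
    · rw [hlen, hexp]
      omega
    · rw [hlen, hexp]
      have : 2 * (E.length + L.length) * (6 * n + 1) =
          12 * (n * (E.length + L.length)) + 2 * (E.length + L.length) := by ring
      omega
  exact ⟨{ tr with steps_le_m := tr.steps_le_m.trans hbound }⟩

end Pool.Agent.Helper81.VCP
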